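import Pool.Agent.K3h31.SQ.Cnt

/-! The covariance of the remainders for two moduli. -/

set_option autoImplicit false

open Finset

namespace Pool.Agent.K3h31.SQ

open Pool.Agent.K3h31.LP (class_count sum_range_mul' sum_crt sum_periodic)

theorem rho_bd (m : ℤ) (T : Finset ℕ) :
    0 ≤ ∏ q ∈ T, (1 + ch m q) ∧ ∏ q ∈ T, (1 + ch m q) ≤ 2 ^ T.card := by
  have h1 : ∀ q, 0 ≤ 1 + ch m q ∧ 1 + ch m q ≤ 2 := by
    intro q
    have := abs_le.1 (ch_abs m q)
    constructor <;> linarith [this.1, this.2]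
  refine ⟨prod_nonneg fun q _ => (h1 q).1, ?_⟩
  calc _ ≤ ∏ q ∈ T, (2 : ℝ) := prod_le_prod (fun q _ => (h1 q).1) (fun q _ => (h1 q).2)
    _ = _ := by rw [prod_const]

/-- few roots -/
theorem roots_le (m : ℤ) (T : Finset ℕ) (hT : ∀ p ∈ T, p.Prime) :
    (((range (∏ q ∈ T, q)).filter (fun s : ℕ => ((∏ q ∈ T, q : ℕ) : ℤ) ∣ (s : ℤ) ^ 2 + m)).card : ℝ) ≤
      2 ^ T.card := by
  have h := root_prod 1 0 m T hT (fun p _ => Nat.coprime_one_left p)
  simp only [zero_add, one_mul] at h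
  rw [h]
  exact (rho_bd _ _).2

theorem sum_KK (σ : ℤ) (H : ℕ) (G : Finset ℕ) (hG : ∀ p ∈ G, p.Prime) :
    ∑ u ∈ range (∏ q ∈ G, q), ((KK σ H (∏ q ∈ G, q) u).card : ℝ) ≤ H * 2 ^ G.card := by
  unfold KK
  simp_rw [card_filter]
  push_cast
  rw [sum_comm]
  calc ∑ k ∈ Icc 1 H, ∑ u ∈ range (∏ q ∈ G, q),
        (if (∏ q ∈ G, (q : ℤ)) ∣ (u : ℤ) ^ 2 + σ * k then (1 : ℝ) else 0) ≤
      ∑ k ∈ Icc 1 H, (2 : ℝ) ^ G.card := by
        apply sum_le_sum
        intro k _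
        have := roots_le (σ * k) G hG
        rw [card_filter] at this
        push_cast at this
        exact this
    _ = _ := by
        rw [sum_const, Nat.card_Icc, Nat.add_sub_cancel, nsmul_eq_mul]

/-- the character sum -/
noncomputable def TU (σ : ℤ) (H g u : ℕ) (U : Finset ℕ) : ℝ :=
  ∑ k ∈ KK σ H g u, ∏ q ∈ U, ch (-(σ * k)) q

theorem TU_abs (σ : ℤ) (H g u : ℕ) (U : Finset ℕ) : |TU σ H g u U| ≤ (KK σ H g u).card := by
  unfold TU
  refine (abs_sum_le_sum_abs _ _).trans ?_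
  calc ∑ k ∈ KK σ H g u, |∏ q ∈ U, ch (-(σ * k)) q| ≤ ∑ k ∈ KK σ H g u, (1 : ℝ) := by
        apply sum_le_sum
        intro k _
        rw [abs_prod]
        exact prod_le_one (fun q _ => abs_nonneg _) (fun q _ => ch_abs _ q)
    _ = _ := by simp

/-- the terms of the expansion -/
noncomputable def ff (σ : ℤ) (H g u : ℕ) (U : Finset ℕ) : ℝ :=
  if U = ∅ then ((KK σ H g u).card : ℝ) - (H : ℝ) / g else TU σ H g u U

theorem AA_exp (σ : ℤ) (H g u : ℕ) (hg : 0 < g) (T : Finset ℕ) (hT : ∀ p ∈ T, p.Prime)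
    (hgT : ∀ p ∈ T, Nat.Coprime g p) :
    AA σ H g (∏ q ∈ T, q) u = ∑ U ∈ T.powerset, ff σ H g u U := by
  classical
  rw [AA_eq σ H g u hg T hT hgT]
  have h1 : ∑ k ∈ KK σ H g u, ∏ q ∈ T, (1 + ch (-(σ * k)) q) = ∑ U ∈ T.powerset, TU σ H g u U := by
    unfold TU
    rw [sum_comm]
    apply sum_congr rfl
    intro k _
    rw [prod_one_add]
  rw [h1]
  have h2 : (∅ : Finset ℕ) ∈ T.powerset := empty_mem_powerset T
  rw [← add_sum_erase _ _ h2, ← add_sum_erase _ _ h2]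
  have h3 : TU σ H g u ∅ = (KK σ H g u).card := by
    unfold TU
    simp
  have h4 : ff σ H g u ∅ = ((KK σ H g u).card : ℝ) - (H : ℝ) / g := by
    unfold ff
    rw [if_pos rfl]
  have h5 : ∑ U ∈ T.powerset.erase ∅, ff σ H g u U = ∑ U ∈ T.powerset.erase ∅, TU σ H g u U := by
    apply sum_congr rfl
    intro U hU
    unfold ff
    rw [if_neg (mem_erase.1 hU).1]
  rw [h3, h4, h5]
  ring

theorem AA_sq (σ : ℤ) (H g u : ℕ) (hg : 0 < g) (T : Finset ℕ) (hT : ∀ p ∈ T, p.Prime)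
    (hgT : ∀ p ∈ T, Nat.Coprime g p) :
    AA σ H g (∏ q ∈ T, q) u ^ 2 ≤ 2 ^ T.card * ∑ U ∈ T.powerset, ff σ H g u U ^ 2 := by
  rw [AA_exp σ H g u hg T hT hgT]
  have := sq_sum_le_card_mul_sum_sq (s := T.powerset) (f := ff σ H g u)
  rw [card_powerset] at this
  push_cast at this
  exact this

theorem AA_abs (σ : ℤ) (H g u : ℕ) (hg : 0 < g) (T : Finset ℕ) (hT : ∀ p ∈ T, p.Prime)
    (hgT : ∀ p ∈ T, Nat.Coprime g p) :
    |AA σ H g (∏ q ∈ T, q) u| ≤ 2 ^ T.card * ((KK σ H g u).card + (H : ℝ) / g) := by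
  rw [AA_eq σ H g u hg T hT hgT]
  have h1 : 0 ≤ ∑ k ∈ KK σ H g u, ∏ q ∈ T, (1 + ch (-(σ * k)) q) :=
    sum_nonneg fun k _ => (rho_bd _ T).1
  have h2 : ∑ k ∈ KK σ H g u, ∏ q ∈ T, (1 + ch (-(σ * k)) q) ≤ 2 ^ T.card * (KK σ H g u).card := by
    calc _ ≤ ∑ k ∈ KK σ H g u, (2 : ℝ) ^ T.card := sum_le_sum fun k _ => (rho_bd _ T).2
      _ = _ := by
          rw [sum_const, nsmul_eq_mul]
          ring
  have h3 : (0 : ℝ) ≤ (H : ℝ) / g := by positivity
  have h4 : (1 : ℝ) ≤ 2 ^ T.card := one_le_pow₀ (by norm_num)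
  have h5 : (H : ℝ) / g ≤ 2 ^ T.card * ((H : ℝ) / g) := le_mul_of_one_le_left h3 h4
  have h6 : (0 : ℝ) ≤ 2 ^ T.card * (KK σ H g u).card := by positivity
  rw [abs_le]
  constructor <;> nlinarith

/-- the second moment over the residue classes, for large `g` -/
theorem FF_large (σ : ℤ) (hσ : σ * σ = 1) (H : ℕ) (G T : Finset ℕ) (hG : ∀ p ∈ G, p.Prime)
    (hT : ∀ p ∈ T, p.Prime) (hgT : ∀ p ∈ T, Nat.Coprime (∏ q ∈ G, q) p) :
    ∑ u ∈ range (∏ q ∈ G, q), AA σ H (∏ q ∈ G, q) (∏ q ∈ T, q) u ^ 2 ≤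
      4 ^ T.card * (2 ^ G.card * (2 * H * (2 * ((H : ℝ) / ((∏ q ∈ G, q : ℕ) : ℝ)) + 1))) := by
  set g : ℕ := ∏ q ∈ G, q with hgdef
  have hg : 0 < g := prod_pos fun q hq => (hG q hq).pos
  have hgr : (0 : ℝ) < g := by exact_mod_cast hg
  have hH0 : (0 : ℝ) ≤ H := Nat.cast_nonneg H
  have hHg : (0 : ℝ) ≤ (H : ℝ) / g := by positivity
  have h1 : ∀ u ∈ range g, AA σ H g (∏ q ∈ T, q) u ^ 2 ≤
      4 ^ T.card * ((2 * ((H : ℝ) / g) + 1) * ((KK σ H g u).card + (H : ℝ) / g)) := by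
    intro u _
    have h2 := AA_abs σ H g u hg T hT hgT
    have h3 := KK_le σ hσ H g u hg
    have h4 : (0 : ℝ) ≤ (KK σ H g u).card + (H : ℝ) / g := by positivity
    have h5 : AA σ H g (∏ q ∈ T, q) u ^ 2 ≤ (2 ^ T.card * ((KK σ H g u).card + (H : ℝ) / g)) ^ 2 := by
      rw [← sq_abs]
      exact pow_le_pow_left₀ (abs_nonneg _) h2 2
    refine h5.trans ?_
    rw [mul_pow, ← pow_mul, mul_comm T.card 2, pow_mul]
    norm_num
    rw [sq]
    apply mul_le_mul_of_nonneg_right _ h4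
    linarith
  refine (sum_le_sum h1).trans ?_
  rw [← mul_sum, ← mul_sum, sum_add_distrib, sum_const, card_range, nsmul_eq_mul]
  have h6 := sum_KK σ H G hG
  rw [← hgdef] at h6
  have h7 : (g : ℝ) * ((H : ℝ) / g) = H := by field_simp
  rw [h7]
  apply mul_le_mul_of_nonneg_left _ (by positivity)
  have h8 : (1 : ℝ) ≤ 2 ^ G.card := one_le_pow₀ (by norm_num)
  have h9 : (H : ℝ) ≤ H * 2 ^ G.card := le_mul_of_one_le_right hH0 h8
  calc (2 * ((H : ℝ) / g) + 1) * (∑ u ∈ range g, ((KK σ H g u).card : ℝ) + H) ≤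
      (2 * ((H : ℝ) / g) + 1) * (2 * (H * 2 ^ G.card)) := by
        apply mul_le_mul_of_nonneg_left _ (by positivity)
        linarith
    _ = _ := by ring

theorem E_abs (σ : ℤ) (H d n : ℕ) : |E σ H d n| ≤ (KK σ H d n).card + (H : ℝ) / d := by
  unfold E
  have h2 : (0 : ℝ) ≤ (KK σ H d n).card := Nat.cast_nonneg _
  have h3 : (0 : ℝ) ≤ (H : ℝ) / d := by positivity
  rw [abs_le]
  constructor <;> linarith

/-- sums over periods -/
theorem sum_period_KK (σ : ℤ) (H b : ℕ) (T : Finset ℕ) (hT : ∀ p ∈ T, p.Prime) :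
    ∑ n ∈ range ((∏ q ∈ T, q) * b), ((KK σ H (∏ q ∈ T, q) n).card : ℝ) ≤ b * (H * 2 ^ T.card) := by
  set d : ℕ := ∏ q ∈ T, q with hd
  rw [sum_range_mul']
  have hs := sum_KK σ H T hT
  rw [← hd] at hs
  calc ∑ u ∈ range d, ∑ m ∈ range b, ((KK σ H d (u + d * m)).card : ℝ) =
        ∑ u ∈ range d, b * ((KK σ H d u).card : ℝ) := by
        apply sum_congr rfl
        intro u _
        have : ∀ m ∈ range b, ((KK σ H d (u + d * m)).card : ℝ) = (KK σ H d u).card := by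
          intro m _
          rw [KK_congr σ H (show u + d * m ≡ u [MOD d] by simp [Nat.ModEq])]
        rw [sum_congr rfl this, sum_const, card_range, nsmul_eq_mul]
    _ = b * ∑ u ∈ range d, ((KK σ H d u).card : ℝ) := by rw [mul_sum]
    _ ≤ _ := mul_le_mul_of_nonneg_left hs (Nat.cast_nonneg b)

theorem sum_KK_KK (σ : ℤ) (H d' : ℕ) (T B : Finset ℕ) (hT : ∀ p ∈ T, p.Prime)
    (hB : ∀ p ∈ B, p.Prime) (hTB : Nat.Coprime (∏ q ∈ T, q) (∏ q ∈ B, q)) (hb : (∏ q ∈ B, q) ∣ d') :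
    ∑ n ∈ range ((∏ q ∈ T, q) * ∏ q ∈ B, q), ((KK σ H (∏ q ∈ T, q) n).card : ℝ) *
      ((KK σ H d' n).card : ℝ) ≤ H ^ 2 * (2 ^ T.card * 2 ^ B.card) := by
  set d : ℕ := ∏ q ∈ T, q with hd
  set b : ℕ := ∏ q ∈ B, q with hbd
  have hd0 : 0 < d := prod_pos fun q hq => (hT q hq).pos
  have hb0 : 0 < b := prod_pos fun q hq => (hB q hq).pos
  unfold KK
  simp_rw [card_filter]
  push_cast
  simp_rw [sum_mul_sum]
  rw [sum_comm]
  calc ∑ k ∈ Icc 1 H, ∑ n ∈ range (d * b), ∑ k' ∈ Icc 1 H,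
        (if (d : ℤ) ∣ (n : ℤ) ^ 2 + σ * k then (1 : ℝ) else 0) *
        (if (d' : ℤ) ∣ (n : ℤ) ^ 2 + σ * k' then (1 : ℝ) else 0) =
      ∑ k ∈ Icc 1 H, ∑ k' ∈ Icc 1 H, ∑ n ∈ range (d * b),
        (if (d : ℤ) ∣ (n : ℤ) ^ 2 + σ * k then (1 : ℝ) else 0) *
        (if (d' : ℤ) ∣ (n : ℤ) ^ 2 + σ * k' then (1 : ℝ) else 0) := by
        apply sum_congr rfl
        intro k _
        rw [sum_comm]
    _ ≤ ∑ k ∈ Icc 1 H, ∑ k' ∈ Icc 1 H, ((2 : ℝ) ^ T.card * 2 ^ B.card) := by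
        apply sum_le_sum
        intro k _
        apply sum_le_sum
        intro k' _
        calc ∑ n ∈ range (d * b), (if (d : ℤ) ∣ (n : ℤ) ^ 2 + σ * k then (1 : ℝ) else 0) *
            (if (d' : ℤ) ∣ (n : ℤ) ^ 2 + σ * k' then (1 : ℝ) else 0) ≤
            ∑ n ∈ range (d * b), (if (d : ℤ) ∣ (n : ℤ) ^ 2 + σ * k then (1 : ℝ) else 0) *
            (if (b : ℤ) ∣ (n : ℤ) ^ 2 + σ * k' then (1 : ℝ) else 0) := by
              apply sum_le_sum
              intro n _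
              apply mul_le_mul_of_nonneg_left
              · by_cases h : (d' : ℤ) ∣ (n : ℤ) ^ 2 + σ * k'
                · have h' : (b : ℤ) ∣ (n : ℤ) ^ 2 + σ * k' :=
                    (Int.natCast_dvd_natCast.2 hb).trans h
                  rw [if_pos h, if_pos h']
                · rw [if_neg h]
                  split_ifs <;> norm_num
              · split_ifs <;> norm_num
          _ = (∑ s ∈ range d, (if (d : ℤ) ∣ (s : ℤ) ^ 2 + σ * k then (1 : ℝ) else 0)) *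
              ∑ t ∈ range b, (if (b : ℤ) ∣ (t : ℤ) ^ 2 + σ * k' then (1 : ℝ) else 0) := by
              apply sum_crt d b hd0 hb0 hTB
                (fun n => if (d : ℤ) ∣ (n : ℤ) ^ 2 + σ * k then (1 : ℝ) else 0)
                (fun n => if (b : ℤ) ∣ (n : ℤ) ^ 2 + σ * k' then (1 : ℝ) else 0)
              · intro m
                have h2 := dvd_congr (Nat.mod_modEq m d).symm (σ * k)
                simp only [h2]
              · intro m
                have h2 := dvd_congr (Nat.mod_modEq m b).symm (σ * k')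
                simp only [h2]
          _ ≤ _ := by
              have e1 := roots_le (σ * k) T hT
              have e2 := roots_le (σ * k') B hB
              rw [card_filter] at e1 e2
              push_cast at e1 e2
              rw [hd, hbd]
              push_cast
              apply mul_le_mul e1 e2 _ (by positivity)
              apply sum_nonneg
              intro t _
              split_ifs <;> norm_num
    _ = _ := by
        rw [sum_const, sum_const, Nat.card_Icc, Nat.add_sub_cancel, nsmul_eq_mul, nsmul_eq_mul]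
        ring

end Pool.Agent.K3h31.SQ
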