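import Pool.Agent.K3h31.LP.Pair

/-! The `k ≤ H` with `d ∣ n ^ 2 + σ k`, and the roots of `s ^ 2 = m` modulo squarefree numbers. -/

set_option autoImplicit false

open Finset

namespace Pool.Agent.K3h31.SQ

open Pool.Agent.K3h31.LP (class_count sum_range_mul' sum_crt sum_periodic)

/-- the `k ≤ H` with `d ∣ n ^ 2 + σ k` -/
def KK (σ : ℤ) (H d n : ℕ) : Finset ℕ :=
  (Icc 1 H).filter (fun k => (d : ℤ) ∣ (n : ℤ) ^ 2 + σ * k)

/-- the remainder -/
noncomputable def E (σ : ℤ) (H d n : ℕ) : ℝ := ((KK σ H d n).card : ℝ) - (H : ℝ) / d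

theorem dvd_congr {d n n' : ℕ} (h : n ≡ n' [MOD d]) (m : ℤ) :
    (d : ℤ) ∣ (n : ℤ) ^ 2 + m ↔ (d : ℤ) ∣ (n' : ℤ) ^ 2 + m := by
  have h1 : (n : ℤ) ≡ n' [ZMOD d] := (Int.natCast_modEq_iff).2 h
  have h2 : (n : ℤ) ^ 2 + m ≡ (n' : ℤ) ^ 2 + m [ZMOD d] := (h1.pow 2).add_right m
  constructor
  · intro h3
    exact (Int.modEq_zero_iff_dvd).1 (h2.symm.trans ((Int.modEq_zero_iff_dvd).2 h3))
  · intro h3
    exact (Int.modEq_zero_iff_dvd).1 (h2.trans ((Int.modEq_zero_iff_dvd).2 h3))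

theorem KK_congr (σ : ℤ) (H : ℕ) {d n n' : ℕ} (h : n ≡ n' [MOD d]) : KK σ H d n = KK σ H d n' := by
  unfold KK
  apply filter_congr
  intro k _
  exact dvd_congr h _

theorem E_congr (σ : ℤ) (H : ℕ) {d n n' : ℕ} (h : n ≡ n' [MOD d]) : E σ H d n = E σ H d n' := by
  unfold E
  rw [KK_congr σ H h]

theorem class_b (σ : ℤ) (hσ : σ * σ = 1) (d : ℕ) (hd : 0 < d) (m : ℤ) :
    ∃ b : ℕ, ∀ k : ℕ, ((d : ℤ) ∣ m + σ * k ↔ d ∣ 1 * k + b) := by
  have hd' : (0 : ℤ) < d := by exact_mod_cast hd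
  refine ⟨((σ * m) % d).toNat, fun k => ?_⟩
  have hb : ((((σ * m) % d).toNat : ℕ) : ℤ) = (σ * m) % d :=
    Int.toNat_of_nonneg (Int.emod_nonneg _ hd'.ne')
  rw [← Int.natCast_dvd_natCast]
  push_cast
  rw [one_mul, hb]
  have h1 : (k : ℤ) + (σ * m) % d ≡ k + σ * m [ZMOD d] := (Int.mod_modEq _ _).add_left k
  have h2 : (d : ℤ) ∣ k + (σ * m) % d ↔ (d : ℤ) ∣ k + σ * m := by
    constructor
    · intro h3
      exact (Int.modEq_zero_iff_dvd).1 (h1.symm.trans ((Int.modEq_zero_iff_dvd).2 h3))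
    · intro h3
      exact (Int.modEq_zero_iff_dvd).1 (h1.trans ((Int.modEq_zero_iff_dvd).2 h3))
  rw [h2]
  constructor
  · intro h
    have : (k : ℤ) + σ * m = σ * (m + σ * k) := by
      linear_combination (-(k : ℤ)) * hσ
    rw [this]
    exact h.mul_left σ
  · intro h
    have : m + σ * k = σ * (k + σ * m) := by
      linear_combination (-m) * hσ
    rw [this]
    exact h.mul_left σ

theorem card_KK (σ : ℤ) (hσ : σ * σ = 1) (H d n : ℕ) (hd : 0 < d) :
    |((KK σ H d n).card : ℝ) - (H : ℝ) / d| ≤ 1 := by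
  obtain ⟨b, hb⟩ := class_b σ hσ d hd ((n : ℤ) ^ 2)
  have e : KK σ H d n = (Icc 1 H).filter (fun k => d ∣ 1 * k + b) := by
    unfold KK
    apply filter_congr
    intro k _
    exact hb k
  rw [e]
  exact class_count d hd 1 b (Nat.coprime_one_left d) H

theorem KK_le (σ : ℤ) (hσ : σ * σ = 1) (H d n : ℕ) (hd : 0 < d) :
    ((KK σ H d n).card : ℝ) ≤ (H : ℝ) / d + 1 := by
  have := card_KK σ hσ H d n hd
  rw [abs_le] at this
  linarith [this.2]

/-- the character modulo a prime -/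
noncomputable def ch (m : ℤ) (q : ℕ) : ℝ := if q = 2 then 0 else ((jacobiSym m q : ℤ) : ℝ)

theorem ch_abs (m : ℤ) (q : ℕ) : |ch m q| ≤ 1 := by
  unfold ch
  split_ifs
  · simp
  · rcases jacobiSym.trichotomy m q with h | h | h <;> rw [h] <;> norm_num

theorem ch_mul (m m' : ℤ) (q : ℕ) : ch m q * ch m' q = ch (m * m') q := by
  unfold ch
  split_ifs
  · simp
  · rw [jacobiSym.mul_left]
    push_cast
    rfl

theorem two_root : ∀ z : ZMod 2, ((univ : Finset (ZMod 2)).filter (fun x => x ^ 2 = z)).card = 1 := by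
  decide

theorem root_prime (q : ℕ) (hq : q.Prime) (g u : ℕ) (hg : Nat.Coprime g q) (m : ℤ) :
    (((range q).filter (fun s => (q : ℤ) ∣ ((u + g * s : ℕ) : ℤ) ^ 2 + m)).card : ℝ) =
      1 + ch (-m) q := by
  have : Fact q.Prime := ⟨hq⟩
  have hgu : (g : ZMod q) ≠ 0 := by
    intro h
    rw [ZMod.natCast_eq_zero_iff] at h
    have := Nat.Coprime.eq_one_of_dvd hg.symm h
    exact hq.one_lt.ne' this
  have h1 : ((range q).filter (fun s => (q : ℤ) ∣ ((u + g * s : ℕ) : ℤ) ^ 2 + m)).card =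
      ((univ : Finset (ZMod q)).filter (fun x => x ^ 2 = ((-m : ℤ) : ZMod q))).card := by
    refine card_bij (fun (s : ℕ) _ => ((u : ZMod q) + (g : ZMod q) * (s : ZMod q) : ZMod q)) ?_ ?_ ?_
    · intro s hs
      rw [mem_filter] at hs ⊢
      refine ⟨mem_univ _, ?_⟩
      have h2 := (ZMod.intCast_zmod_eq_zero_iff_dvd _ _).2 hs.2
      push_cast at h2
      push_cast
      linear_combination h2
    · intro s hs t ht hst
      rw [mem_filter, mem_range] at hs ht
      have h2 : (s : ZMod q) = t := by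
        have h3 := add_left_cancel hst
        exact mul_left_cancel₀ hgu h3
      have h4 := (ZMod.natCast_eq_natCast_iff _ _ _).1 h2
      exact Nat.ModEq.eq_of_lt_of_lt h4 hs.1 ht.1
    · intro y hy
      rw [mem_filter] at hy
      refine ⟨(((g : ZMod q)⁻¹ * (y - u)) : ZMod q).val, ?_, ?_⟩
      · rw [mem_filter, mem_range]
        refine ⟨ZMod.val_lt _, ?_⟩
        rw [← ZMod.intCast_zmod_eq_zero_iff_dvd]
        push_cast
        rw [ZMod.natCast_zmod_val, mul_inv_cancel_left₀ hgu]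
        have := hy.2
        push_cast at this
        linear_combination this
      · rw [ZMod.natCast_zmod_val, mul_inv_cancel_left₀ hgu]
        ring
  rw [h1]
  by_cases h2 : q = 2
  · subst h2
    rw [two_root]
    simp [ch]
  · have h3 := legendreSym.card_sqrts q h2 (-m)
    have h4 : ((univ : Finset (ZMod q)).filter (fun x => x ^ 2 = ((-m : ℤ) : ZMod q))) =
        {x : ZMod q | x ^ 2 = ((-m : ℤ) : ZMod q)}.toFinset := by
      ext x
      simp
    rw [h4]
    unfold ch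
    rw [if_neg h2, ← jacobiSym.legendreSym.to_jacobiSym]
    have h5 : (((({x : ZMod q | x ^ 2 = ((-m : ℤ) : ZMod q)}.toFinset).card : ℕ) : ℤ) : ℝ) =
        ((legendreSym q (-m) + 1 : ℤ) : ℝ) := by rw [h3]
    push_cast at h5 ⊢
    linarith

theorem root_prod (g u : ℕ) (m : ℤ) (T : Finset ℕ) : (∀ p ∈ T, p.Prime) →
    (∀ p ∈ T, Nat.Coprime g p) →
    (((range (∏ q ∈ T, q)).filter (fun s => ((∏ q ∈ T, q : ℕ) : ℤ) ∣
      ((u + g * s : ℕ) : ℤ) ^ 2 + m)).card : ℝ) = ∏ q ∈ T, (1 + ch (-m) q) := by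
  classical
  induction T using Finset.induction_on with
  | empty =>
    intro _ _
    simp
  | insert q T hq ih =>
    intro hT hgT
    have hT' : ∀ p ∈ T, p.Prime := fun p hp => hT p (mem_insert_of_mem hp)
    have hqp : q.Prime := hT q (mem_insert_self _ _)
    have hcop : Nat.Coprime q (∏ p ∈ T, p) := by
      apply Nat.Coprime.prod_right
      intro p hp
      rw [Nat.coprime_primes hqp (hT' p hp)]
      rintro rfl
      exact hq hp
    have hpos : 0 < ∏ p ∈ T, p := prod_pos fun p hp => (hT' p hp).pos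
    rw [prod_insert hq, prod_insert hq, ← ih hT' (fun p hp => hgT p (mem_insert_of_mem hp)),
      ← root_prime q hqp g u (hgT q (mem_insert_self _ _)) m]
    rw [card_filter, card_filter, card_filter]
    push_cast
    rw [← sum_crt q (∏ p ∈ T, p) hqp.pos hpos hcop
      (fun s => if (q : ℤ) ∣ ((u : ℤ) + g * s) ^ 2 + m then (1 : ℝ) else 0)
      (fun s => if (∏ p ∈ T, (p : ℤ)) ∣ ((u : ℤ) + g * s) ^ 2 + m then (1 : ℝ) else 0)]
    · apply sum_congr rfl
      intro s _
      have hc2 : IsCoprime (q : ℤ) (∏ p ∈ T, (p : ℤ)) := by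
        have := Nat.isCoprime_iff_coprime.2 hcop
        push_cast at this
        exact this
      by_cases h1 : (q : ℤ) ∣ ((u : ℤ) + g * s) ^ 2 + m
      · by_cases h2 : (∏ p ∈ T, (p : ℤ)) ∣ ((u : ℤ) + g * s) ^ 2 + m
        · rw [if_pos (hc2.mul_dvd h1 h2), if_pos h1, if_pos h2, one_mul]
        · rw [if_neg (fun h => h2 ((dvd_mul_left _ _).trans h)), if_neg h2, mul_zero]
      · rw [if_neg (fun h => h1 ((dvd_mul_right _ _).trans h)), if_neg h1, zero_mul]
    · intro s
      have h : u + g * s ≡ u + g * (s % q) [MOD q] :=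
        Nat.ModEq.add_left u ((Nat.mod_modEq s q).symm.mul_left g)
      have h2 := dvd_congr h m
      push_cast at h2 ⊢
      simp only [h2]
    · intro s
      have h : u + g * s ≡ u + g * (s % (∏ p ∈ T, p)) [MOD (∏ p ∈ T, p)] :=
        Nat.ModEq.add_left u ((Nat.mod_modEq s _).symm.mul_left g)
      have h2 := dvd_congr h m
      push_cast at h2 ⊢
      simp only [h2]

/-- the sum of the remainders over the residue classes modulo `g d` above `u` modulo `g` -/
noncomputable def AA (σ : ℤ) (H g d u : ℕ) : ℝ := ∑ s ∈ range d, E σ H (g * d) (u + g * s)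

theorem full_period (σ : ℤ) (H g a b : ℕ) (ha : 0 < a) (hb : 0 < b) (hab : Nat.Coprime a b) :
    ∑ n ∈ range (g * (a * b)), E σ H (g * a) n * E σ H (g * b) n =
      ∑ u ∈ range g, AA σ H g a u * AA σ H g b u := by
  rw [sum_range_mul']
  apply sum_congr rfl
  intro u _
  unfold AA
  apply sum_crt a b ha hb hab (fun m => E σ H (g * a) (u + g * m)) (fun m => E σ H (g * b) (u + g * m))
  · intro m
    apply E_congr
    exact Nat.ModEq.add_left u (Nat.ModEq.mul_left' g (Nat.mod_modEq m a).symm)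
  · intro m
    apply E_congr
    exact Nat.ModEq.add_left u (Nat.ModEq.mul_left' g (Nat.mod_modEq m b).symm)

theorem AA_eq (σ : ℤ) (H g u : ℕ) (hg : 0 < g) (T : Finset ℕ) (hT : ∀ p ∈ T, p.Prime)
    (hgT : ∀ p ∈ T, Nat.Coprime g p) :
    AA σ H g (∏ q ∈ T, q) u = ∑ k ∈ KK σ H g u, ∏ q ∈ T, (1 + ch (-(σ * k)) q) - (H : ℝ) / g := by
  have hd0 : 0 < ∏ q ∈ T, q := prod_pos fun q hq => (hT q hq).pos
  have hgd : Nat.Coprime g (∏ q ∈ T, q) := Nat.Coprime.prod_right hgT
  have hgdi : IsCoprime (g : ℤ) ((∏ q ∈ T, q : ℕ) : ℤ) := Nat.isCoprime_iff_coprime.2 hgd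
  unfold AA E
  rw [sum_sub_distrib, sum_const, card_range, nsmul_eq_mul]
  have hdr : ((∏ q ∈ T, q : ℕ) : ℝ) ≠ 0 := by exact_mod_cast hd0.ne'
  have hgr : (g : ℝ) ≠ 0 := by exact_mod_cast hg.ne'
  congr 1
  · unfold KK
    simp_rw [card_filter]
    push_cast
    rw [sum_comm, sum_filter]
    apply sum_congr rfl
    intro k _
    split_ifs with h
    · rw [← root_prod g u (σ * k) T hT hgT, card_filter]
      push_cast
      apply sum_congr rfl
      intro s _
      have h1 : (g : ℤ) ∣ ((u : ℤ) + g * s) ^ 2 + σ * k := by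
        have : u + g * s ≡ u [MOD g] := by simp [Nat.ModEq]
        have h2 := (dvd_congr this (σ * k)).2 h
        push_cast at h2
        exact h2
      push_cast at hgdi
      by_cases h2 : (∏ p ∈ T, (p : ℤ)) ∣ ((u : ℤ) + g * s) ^ 2 + σ * k
      · rw [if_pos (hgdi.mul_dvd h1 h2), if_pos h2]
      · rw [if_neg (fun h => h2 ((dvd_mul_left _ _).trans h)), if_neg h2]
    · apply sum_eq_zero
      intro s _
      rw [if_neg]
      intro h1
      apply h
      have : u + g * s ≡ u [MOD g] := by simp [Nat.ModEq]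
      have h2 := (dvd_congr this (σ * k))
      push_cast at h2
      exact h2.1 ((dvd_mul_right _ _).trans h1)
  · push_cast
    push_cast at hdr
    field_simp

end Pool.Agent.K3h31.SQ
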