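import Pool.Agent.K3h31.SQ.Main

/-! Almost primes close to the squares of almost all integers: all lengths. -/

set_option autoImplicit false

open Finset Filter

namespace Pool.Agent.K3h31.SQ

open Pool.Agent.K3h31.LP (log_pow_le)

theorem good_mono (σ : ℤ) (n : ℕ) (w : ℝ) {x x' : ℕ} (h : x ≤ x') : good σ n w x ⊆ good σ n w x' := by
  classical
  intro k hk
  unfold good at *
  rw [mem_filter, mem_Icc] at *
  exact ⟨⟨hk.1.1, hk.1.2.trans h⟩, hk.2⟩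

theorem all_H : ∃ δ C : ℝ, 0 < δ ∧ 0 < C ∧ ∃ P₀ : ℕ, ∀ P : ℕ, P₀ ≤ P → ∀ x₀ : ℕ, 1 ≤ x₀ →
    ∃ B : Finset ℕ, (B.card : ℝ) ≤ C * (P * Real.log P ^ 11 / x₀) ∧
      ∀ n : ℕ, 1 ≤ n → n ≤ P → n ∉ B → ∀ H : ℝ, (x₀ : ℝ) ^ 8 ≤ H → H ≤ (P : ℝ) ^ (4 / 5 : ℝ) →
        ∀ σ : ℤ, (σ = 1 ∨ σ = -1) →
        δ * H / Real.log P ≤ ((good σ n ((P : ℝ) ^ (1 / 10 : ℝ)) ⌊H⌋₊).card : ℝ) := by
  classical
  obtain ⟨δ, C, hδ, hC, P₀, HO⟩ := one_h
  refine ⟨δ / 256, 4 * C, by positivity, by positivity, max P₀ 3, ?_⟩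
  intro P hP x₀ hx₀
  have hP0 : P₀ ≤ P := (le_max_left _ _).trans hP
  have hP3 : 3 ≤ P := (le_max_right _ _).trans hP
  have hPr : (3 : ℝ) ≤ P := by exact_mod_cast hP3
  have hPpos : (0 : ℝ) < P := by linarith
  have hlP : 0 < Real.log P := Real.log_pos (by linarith)
  have hx₀r : (1 : ℝ) ≤ x₀ := by exact_mod_cast hx₀
  set J : Finset ℕ := (range P).filter (fun j => ((2 ^ j * x₀ : ℕ) : ℝ) ≤ (P : ℝ) ^ (1 / 10 : ℝ)) with hJ
  set Bx : ℤ → ℕ → Finset ℕ := fun σ h => (Icc 1 P).filter (fun n =>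
    ((good σ n ((P : ℝ) ^ (1 / 10 : ℝ)) (h ^ 8)).card : ℝ) < δ * (h : ℝ) ^ 8 / Real.log P) with hBx
  refine ⟨J.biUnion (fun j => Bx 1 (2 ^ j * x₀) ∪ Bx (-1) (2 ^ j * x₀)), ?_, ?_⟩
  · have h1 : ((J.biUnion (fun j => Bx 1 (2 ^ j * x₀) ∪ Bx (-1) (2 ^ j * x₀))).card : ℝ) ≤
        ∑ j ∈ J, ((Bx 1 (2 ^ j * x₀) ∪ Bx (-1) (2 ^ j * x₀)).card : ℝ) := by
      exact_mod_cast card_biUnion_le
    refine h1.trans ?_
    have h2 : ∀ j ∈ J, ((Bx 1 (2 ^ j * x₀) ∪ Bx (-1) (2 ^ j * x₀)).card : ℝ) ≤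
        2 * C * (P * Real.log P ^ 11 / x₀) * (1 / 2) ^ j := by
      intro j hj
      rw [hJ, mem_filter] at hj
      have h3 := HO P hP0 (2 ^ j * x₀) (Nat.one_le_iff_ne_zero.2 (by positivity)) hj.2 1 (Or.inl rfl)
      have h4 := HO P hP0 (2 ^ j * x₀) (Nat.one_le_iff_ne_zero.2 (by positivity)) hj.2 (-1) (Or.inr rfl)
      have h5 : ((Bx 1 (2 ^ j * x₀) ∪ Bx (-1) (2 ^ j * x₀)).card : ℝ) ≤
          ((Bx 1 (2 ^ j * x₀)).card : ℝ) + ((Bx (-1) (2 ^ j * x₀)).card : ℝ) := by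
        exact_mod_cast card_union_le _ _
      have h6 : C * (P * Real.log P ^ 11 / ((2 ^ j * x₀ : ℕ) : ℝ)) =
          C * (P * Real.log P ^ 11 / x₀) * (1 / 2) ^ j := by
        push_cast
        rw [one_div, inv_pow]
        field_simp
      rw [h6] at h3 h4
      have h7 : ((Bx 1 (2 ^ j * x₀)).card : ℝ) ≤ C * (P * Real.log P ^ 11 / x₀) * (1 / 2) ^ j := h3
      have h8 : ((Bx (-1) (2 ^ j * x₀)).card : ℝ) ≤ C * (P * Real.log P ^ 11 / x₀) * (1 / 2) ^ j := h4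
      linarith
    refine (sum_le_sum h2).trans ?_
    rw [← mul_sum]
    have h4 : ∑ j ∈ J, (1 / 2 : ℝ) ^ j ≤ 2 := by
      calc ∑ j ∈ J, (1 / 2 : ℝ) ^ j ≤ ∑ j ∈ range P, (1 / 2 : ℝ) ^ j :=
            sum_le_sum_of_subset_of_nonneg (filter_subset _ _) (fun i _ _ => by positivity)
        _ ≤ 2 := sum_geometric_two_le P
    calc 2 * C * (P * Real.log P ^ 11 / x₀) * ∑ j ∈ J, (1 / 2 : ℝ) ^ j ≤
        2 * C * (P * Real.log P ^ 11 / x₀) * 2 := mul_le_mul_of_nonneg_left h4 (by positivity)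
      _ = _ := by ring
  · intro n hn1 hnP hnB H hH1 hH2 σ hσ
    have hH0 : (0 : ℝ) ≤ H := le_trans (by positivity) hH1
    set y : ℕ := ⌊H ^ (1 / 8 : ℝ)⌋₊ with hy
    have hroot : (H ^ (1 / 8 : ℝ)) ^ 8 = H := by
      rw [← Real.rpow_natCast, ← Real.rpow_mul hH0]
      norm_num
    have hyx : x₀ ≤ y := by
      apply Nat.le_floor
      have h1 : ((x₀ : ℝ) ^ 8) ^ (1 / 8 : ℝ) ≤ H ^ (1 / 8 : ℝ) :=
        Real.rpow_le_rpow (by positivity) hH1 (by norm_num)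
      have h2 : ((x₀ : ℝ) ^ 8) ^ (1 / 8 : ℝ) = x₀ := by
        rw [← Real.rpow_natCast, ← Real.rpow_mul (by positivity)]
        norm_num
      rwa [h2] at h1
    have hyle : (y : ℝ) ≤ H ^ (1 / 8 : ℝ) := Nat.floor_le (by positivity)
    have hylt : H ^ (1 / 8 : ℝ) < y + 1 := Nat.lt_floor_add_one _
    have hy8 : ((y ^ 8 : ℕ) : ℝ) ≤ H := by
      push_cast
      calc (y : ℝ) ^ 8 ≤ (H ^ (1 / 8 : ℝ)) ^ 8 := pow_le_pow_left₀ (Nat.cast_nonneg y) hyle 8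
        _ = H := hroot
    have hHlt : H ≤ ((y : ℝ) + 1) ^ 8 := by
      rw [← hroot]
      exact pow_le_pow_left₀ (by positivity) hylt.le 8
    have hyP : (y : ℝ) ≤ (P : ℝ) ^ (1 / 10 : ℝ) := by
      refine hyle.trans ?_
      calc H ^ (1 / 8 : ℝ) ≤ ((P : ℝ) ^ (4 / 5 : ℝ)) ^ (1 / 8 : ℝ) :=
            Real.rpow_le_rpow hH0 hH2 (by norm_num)
        _ = _ := by
            rw [← Real.rpow_mul hPpos.le]
            norm_num
    set j : ℕ := Nat.log 2 (y / x₀) with hj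
    have hx0 : y / x₀ ≠ 0 := by
      have := Nat.div_pos hyx (by omega : 0 < x₀)
      omega
    have h1 : 2 ^ j ≤ y / x₀ := Nat.pow_log_le_self 2 hx0
    have h2 : y / x₀ < 2 ^ (j + 1) := Nat.lt_pow_succ_log_self (by norm_num) _
    have h3 : 2 ^ j * x₀ ≤ y := (Nat.mul_le_mul_right x₀ h1).trans (Nat.div_mul_le_self y x₀)
    have h4 : y < 2 ^ (j + 1) * x₀ := by
      have := Nat.lt_div_mul_add (a := y) (by omega : 0 < x₀)
      calc y < y / x₀ * x₀ + x₀ := this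
        _ = (y / x₀ + 1) * x₀ := by ring
        _ ≤ 2 ^ (j + 1) * x₀ := Nat.mul_le_mul_right x₀ h2
    set h : ℕ := 2 ^ j * x₀ with hh
    have h3r : (h : ℝ) ≤ y := by exact_mod_cast h3
    have h4r : (y : ℝ) + 1 ≤ 2 * h := by
      have : y + 1 ≤ 2 * h := by
        rw [pow_succ] at h4
        rw [hh]
        linarith
      exact_mod_cast this
    have hxP' : y ≤ P := by
      have h5 : (y : ℝ) ≤ P := hyP.trans (by
        calc (P : ℝ) ^ (1 / 10 : ℝ) ≤ (P : ℝ) ^ (1 : ℝ) :=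
              Real.rpow_le_rpow_of_exponent_le (by linarith) (by norm_num)
          _ = P := Real.rpow_one _)
      exact_mod_cast h5
    have hjJ : j ∈ J := by
      rw [hJ, mem_filter, mem_range]
      refine ⟨?_, h3r.trans hyP⟩
      calc j < 2 ^ j := Nat.lt_two_pow_self
        _ ≤ 2 ^ j * x₀ := Nat.le_mul_of_pos_right _ (by omega)
        _ ≤ P := h3.trans hxP'
    have h6 : n ∉ Bx σ h := by
      intro hmem
      apply hnB
      rw [mem_biUnion]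
      refine ⟨j, hjJ, ?_⟩
      rw [mem_union]
      rcases hσ with h' | h' <;> rw [h'] at hmem
      · exact Or.inl hmem
      · exact Or.inr hmem
    rw [hBx] at h6
    simp only [mem_filter, mem_Icc, not_and, not_lt] at h6
    have h7 := h6 ⟨hn1, hnP⟩
    have h8 : h ^ 8 ≤ ⌊H⌋₊ := by
      apply Nat.le_floor
      refine le_trans ?_ hy8
      have : h ^ 8 ≤ y ^ 8 := Nat.pow_le_pow_left h3 8
      exact_mod_cast this
    have h9 : ((good σ n ((P : ℝ) ^ (1 / 10 : ℝ)) (h ^ 8)).card : ℝ) ≤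
        ((good σ n ((P : ℝ) ^ (1 / 10 : ℝ)) ⌊H⌋₊).card : ℝ) := by
      exact_mod_cast card_le_card (good_mono σ n _ h8)
    refine le_trans ?_ (h7.trans h9)
    apply div_le_div_of_nonneg_right _ hlP.le
    have h10 : H ≤ 256 * (h : ℝ) ^ 8 := by
      calc H ≤ ((y : ℝ) + 1) ^ 8 := hHlt
        _ ≤ (2 * (h : ℝ)) ^ 8 := pow_le_pow_left₀ (by positivity) h4r 8
        _ = _ := by ring
    calc δ / 256 * H ≤ δ / 256 * (256 * (h : ℝ) ^ 8) := mul_le_mul_of_nonneg_left h10 (by positivity)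
      _ = _ := by ring

/-- the almost primes in `(n ^ 2, n ^ 2 + H]` -/
def above (n : ℕ) (w H : ℝ) : Set ℕ := {m : ℕ | n ^ 2 < m ∧ (m : ℝ) ≤ (n : ℝ) ^ 2 + H ∧ AP5 w m}

/-- the almost primes in `[n ^ 2 - H, n ^ 2)` -/
def below (n : ℕ) (w H : ℝ) : Set ℕ := {m : ℕ | (n : ℝ) ^ 2 - H ≤ m ∧ m < n ^ 2 ∧ AP5 w m}

theorem le_above (n : ℕ) (w H : ℝ) (hH : 0 ≤ H) : ((good 1 n w ⌊H⌋₊).card : ℝ) ≤ (above n w H).ncard := by
  classical
  have hfin : (above n w H).Finite := by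
    apply (Set.finite_Iic ⌊(n : ℝ) ^ 2 + H⌋₊).subset
    intro m hm
    exact Nat.le_floor hm.2.1
  have h1 : (good 1 n w ⌊H⌋₊).card = ((good 1 n w ⌊H⌋₊).image (fun k => n ^ 2 + k)).card := by
    rw [card_image_of_injective]
    intro a b hab
    simpa using hab
  rw [h1, ← Set.ncard_coe_finset]
  have h2 : (((good 1 n w ⌊H⌋₊).image (fun k => n ^ 2 + k) : Finset ℕ) : Set ℕ) ⊆ above n w H := by
    intro m hm
    rw [mem_coe, mem_image] at hm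
    obtain ⟨k, hk, rfl⟩ := hm
    unfold good at hk
    rw [mem_filter, mem_Icc] at hk
    obtain ⟨⟨hk1, hk2⟩, hk3, hk4⟩ := hk
    have e : ((n : ℤ) ^ 2 + 1 * k).natAbs = n ^ 2 + k := by
      have : (n : ℤ) ^ 2 + 1 * k = ((n ^ 2 + k : ℕ) : ℤ) := by push_cast; ring
      rw [this, Int.natAbs_natCast]
    rw [e] at hk4
    refine ⟨by omega, ?_, hk4⟩
    push_cast
    have h3 : (k : ℝ) ≤ H := le_trans (by exact_mod_cast hk2) (Nat.floor_le hH)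
    linarith
  exact_mod_cast Set.ncard_le_ncard h2 hfin

theorem le_below (n : ℕ) (w H : ℝ) (hH : 0 ≤ H) : ((good (-1) n w ⌊H⌋₊).card : ℝ) ≤ (below n w H).ncard := by
  classical
  have hfin : (below n w H).Finite := by
    apply (Set.finite_Iio (n ^ 2)).subset
    intro m hm
    exact hm.2.1
  have hk0 : ∀ k ∈ good (-1) n w ⌊H⌋₊, 1 ≤ k ∧ k ≤ ⌊H⌋₊ ∧ k < n ^ 2 ∧
      AP5 w ((n : ℤ) ^ 2 + (-1) * k).natAbs := by
    intro k hk
    unfold good at hk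
    rw [mem_filter, mem_Icc] at hk
    obtain ⟨⟨hk1, hk2⟩, hk3, hk4⟩ := hk
    refine ⟨hk1, hk2, ?_, hk4⟩
    have : (k : ℤ) < (n : ℤ) ^ 2 := by linarith
    exact_mod_cast this
  have h1 : (good (-1) n w ⌊H⌋₊).card = ((good (-1) n w ⌊H⌋₊).image (fun k => n ^ 2 - k)).card := by
    rw [card_image_of_injOn]
    intro a ha b hb hab
    rw [mem_coe] at ha hb
    have h2 := hk0 a ha
    have h3 := hk0 b hb
    simp only at hab
    omega
  rw [h1, ← Set.ncard_coe_finset]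
  have h2 : (((good (-1) n w ⌊H⌋₊).image (fun k => n ^ 2 - k) : Finset ℕ) : Set ℕ) ⊆ below n w H := by
    intro m hm
    rw [mem_coe, mem_image] at hm
    obtain ⟨k, hk, rfl⟩ := hm
    obtain ⟨hk1, hk2, hk3, hk4⟩ := hk0 k hk
    have e : ((n : ℤ) ^ 2 + (-1) * k).natAbs = n ^ 2 - k := by
      have : (n : ℤ) ^ 2 + (-1) * k = ((n ^ 2 - k : ℕ) : ℤ) := by
        rw [Nat.cast_sub hk3.le]
        push_cast
        ring
      rw [this, Int.natAbs_natCast]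
    rw [e] at hk4
    refine ⟨?_, by omega, hk4⟩
    rw [Nat.cast_sub hk3.le]
    push_cast
    have h3 : (k : ℝ) ≤ H := le_trans (by exact_mod_cast hk2) (Nat.floor_le hH)
    linarith
  exact_mod_cast Set.ncard_le_ncard h2 hfin

end Pool.Agent.K3h31.SQ
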