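import Pool.Agent.K3h31.SQ.Fin

/-! Almost primes close to the squares of almost all integers: lengths which are powers of the logarithm. -/

set_option autoImplicit false

open Finset Filter

namespace Pool.Agent.K3h31.SQ

open Pool.Agent.K3h31.LP (log_pow_le)

theorem above_mono (n : ℕ) {w w' : ℝ} (h : w ≤ w') (H : ℝ) :
    ((above n w' H).ncard : ℝ) ≤ (above n w H).ncard := by
  have hfin : (above n w H).Finite := by
    apply (Set.finite_Iic ⌊(n : ℝ) ^ 2 + H⌋₊).subset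
    intro m hm
    exact Nat.le_floor hm.2.1
  have : above n w' H ⊆ above n w H := fun m hm =>
    ⟨hm.1, hm.2.1, hm.2.2.1, hm.2.2.2.1, fun q hq hd => h.trans (hm.2.2.2.2 q hq hd)⟩
  exact_mod_cast Set.ncard_le_ncard this hfin

theorem below_mono (n : ℕ) {w w' : ℝ} (h : w ≤ w') (H : ℝ) :
    ((below n w' H).ncard : ℝ) ≤ (below n w H).ncard := by
  have hfin : (below n w H).Finite := by
    apply (Set.finite_Iio (n ^ 2)).subset
    intro m hm
    exact hm.2.1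
  have : below n w' H ⊆ below n w H := fun m hm =>
    ⟨hm.1, hm.2.1, hm.2.2.1, hm.2.2.2.1, fun q hq hd => h.trans (hm.2.2.2.2 q hq hd)⟩
  exact_mod_cast Set.ncard_le_ncard this hfin

theorem almost_all (B : ℕ) : ∃ A N₀ : ℕ, ∀ N : ℕ, N₀ ≤ N →
    ({n : ℕ | n ≤ N ∧ (((above n ((n : ℝ) ^ (1 / 10 : ℝ)) (Real.log n ^ A)).ncard : ℝ) < Real.log n ^ B ∨
      ((below n ((n : ℝ) ^ (1 / 10 : ℝ)) (Real.log n ^ A)).ncard : ℝ) < Real.log n ^ B)}.ncard : ℝ) ≤
      N / Real.log N ^ B := by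
  classical
  obtain ⟨δ, C, hδ, hC, P₀, HA⟩ := all_H
  have hlog : Tendsto (fun N : ℕ => Real.log N) atTop atTop :=
    Real.tendsto_log_atTop.comp tendsto_natCast_atTop_atTop
  have ev1 : ∀ᶠ N : ℕ in atTop, (2 : ℝ) ^ (B + 14) ≤ Real.log N := hlog.eventually_ge_atTop _
  have ev2 : ∀ᶠ N : ℕ in atTop, 2 * C ≤ Real.log N := hlog.eventually_ge_atTop _
  have ev3 : ∀ᶠ N : ℕ in atTop, 1 / δ ≤ Real.log N := hlog.eventually_ge_atTop _
  have ev4 : ∀ᶠ N : ℕ in atTop, 1 * Real.log N ^ (8 * (B + 13)) * (N : ℝ) ^ (0 : ℝ) ≤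
      (N : ℝ) ^ (4 / 5 : ℝ) := log_pow_le 1 _ _ _ (by norm_num)
  have ev5 : ∀ᶠ N : ℕ in atTop, 4 * Real.log N ^ B * (N : ℝ) ^ (1 / 2 : ℝ) ≤
      (N : ℝ) ^ (1 : ℝ) := log_pow_le 4 _ _ _ (by norm_num)
  obtain ⟨N₀, hN₀⟩ := eventually_atTop.1 (ev1.and (ev2.and (ev3.and (ev4.and (ev5.and
    ((eventually_ge_atTop P₀).and (eventually_ge_atTop 3)))))))
  refine ⟨8 * (B + 13), N₀, fun N hN => ?_⟩
  obtain ⟨e1, e2, e3, e4, e5, e6, e7⟩ := hN₀ N hN
  have hNr : (3 : ℝ) ≤ N := by exact_mod_cast e7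
  have hN0 : (0 : ℝ) < N := by linarith
  have hN1 : (1 : ℝ) ≤ N := by linarith
  set l : ℝ := Real.log N with hl
  have hl1 : 1 ≤ l := le_trans (one_le_pow₀ (by norm_num)) e1
  have hl0 : 0 < l := by linarith
  rw [Real.rpow_zero, mul_one, one_mul] at e4
  rw [Real.rpow_one] at e5
  set x₀ : ℕ := ⌈l ^ (B + 12)⌉₊ with hx₀
  have hx1 : l ^ (B + 12) ≤ x₀ := Nat.le_ceil _
  have hlB : 1 ≤ l ^ (B + 12) := one_le_pow₀ hl1
  have hx2 : (x₀ : ℝ) ≤ 2 * l ^ (B + 12) := by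
    have := Nat.ceil_lt_add_one (a := l ^ (B + 12)) (by positivity)
    rw [← hx₀] at this
    linarith
  have hx3 : 1 ≤ x₀ := by
    have : (1 : ℝ) ≤ x₀ := hlB.trans hx1
    exact_mod_cast this
  have hx0r : (0 : ℝ) < x₀ := by linarith
  obtain ⟨Bs, hB1, hB2⟩ := HA N e6 x₀ hx3
  have hsub : {n : ℕ | n ≤ N ∧ (((above n ((n : ℝ) ^ (1 / 10 : ℝ)) (Real.log n ^ (8 * (B + 13)))).ncard : ℝ) <
      Real.log n ^ B ∨
      ((below n ((n : ℝ) ^ (1 / 10 : ℝ)) (Real.log n ^ (8 * (B + 13)))).ncard : ℝ) < Real.log n ^ B)} ⊆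
      ((Bs ∪ range (⌊(N : ℝ) ^ (1 / 2 : ℝ)⌋₊ + 1) : Finset ℕ) : Set ℕ) := by
    rintro n ⟨hnN, hn⟩
    by_contra hcon
    rw [mem_coe, mem_union, mem_range] at hcon
    push Not at hcon
    obtain ⟨hnB, hn2⟩ := hcon
    have g1 : (N : ℝ) ^ (1 / 2 : ℝ) < n := by
      refine (Nat.lt_floor_add_one _).trans_le ?_
      exact_mod_cast hn2
    have hn1 : 1 ≤ n := by omega
    have hnr : (n : ℝ) ≤ N := by exact_mod_cast hnN
    have hn0 : (0 : ℝ) < n := by exact_mod_cast hn1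
    have g2 : 1 / 2 * l ≤ Real.log n := by
      have := Real.log_le_log (by positivity) g1.le
      rwa [Real.log_rpow hN0] at this
    have g3 : Real.log n ≤ l := Real.log_le_log hn0 hnr
    have g20 : 0 ≤ Real.log n := le_trans (by positivity) g2
    set H : ℝ := Real.log n ^ (8 * (B + 13)) with hH
    have hH0 : 0 ≤ H := by positivity
    have hH1 : (x₀ : ℝ) ^ 8 ≤ H := by
      have h1 : (x₀ : ℝ) ≤ Real.log n ^ (B + 13) := by
        refine hx2.trans ?_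
        calc 2 * l ^ (B + 12) = (1 / 2) ^ (B + 13) * l ^ (B + 12) * 2 ^ (B + 14) := by
              have : (1 / 2 : ℝ) ^ (B + 13) * 2 ^ (B + 14) = 2 := by
                rw [pow_succ 2 (B + 13), ← mul_assoc, ← mul_pow]
                norm_num
              calc 2 * l ^ (B + 12) = ((1 / 2 : ℝ) ^ (B + 13) * 2 ^ (B + 14)) * l ^ (B + 12) := by rw [this]
                _ = _ := by ring
          _ ≤ (1 / 2) ^ (B + 13) * l ^ (B + 12) * l := mul_le_mul_of_nonneg_left e1 (by positivity)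
          _ = (1 / 2 * l) ^ (B + 13) := by
              rw [mul_pow, pow_succ l (B + 12)]
              ring
          _ ≤ _ := pow_le_pow_left₀ (by positivity) g2 _
      calc (x₀ : ℝ) ^ 8 ≤ (Real.log n ^ (B + 13)) ^ 8 := pow_le_pow_left₀ hx0r.le h1 8
        _ = H := by rw [hH, ← pow_mul, mul_comm]
    have hH2 : H ≤ (N : ℝ) ^ (4 / 5 : ℝ) := by
      refine le_trans ?_ e4
      exact pow_le_pow_left₀ g20 g3 _
    have hw : (n : ℝ) ^ (1 / 10 : ℝ) ≤ (N : ℝ) ^ (1 / 10 : ℝ) :=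
      Real.rpow_le_rpow hn0.le hnr (by norm_num)
    have hcount : Real.log n ^ B ≤ δ * H / l := by
      rw [le_div_iff₀ hl0]
      have h1 : (l ^ (B + 12)) ^ 8 ≤ (x₀ : ℝ) ^ 8 := pow_le_pow_left₀ (by positivity) hx1 8
      have h2 : 1 ≤ δ * l := by
        rw [div_le_iff₀ hδ] at e3
        linarith
      have h3 : l ^ (B + 2) ≤ (l ^ (B + 12)) ^ 8 := by
        rw [← pow_mul]
        exact pow_le_pow_right₀ hl1 (by omega)
      calc Real.log n ^ B * l ≤ l ^ B * l :=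
            mul_le_mul_of_nonneg_right (pow_le_pow_left₀ g20 g3 _) hl0.le
        _ ≤ l ^ B * l * (δ * l) := le_mul_of_one_le_right (by positivity) h2
        _ = δ * l ^ (B + 2) := by ring
        _ ≤ δ * H := mul_le_mul_of_nonneg_left (h3.trans (h1.trans hH1)) hδ.le
    have k1 := hB2 n hn1 hnN hnB H hH1 hH2 1 (Or.inl rfl)
    have k2 := hB2 n hn1 hnN hnB H hH1 hH2 (-1) (Or.inr rfl)
    have k3 := (le_above n ((N : ℝ) ^ (1 / 10 : ℝ)) H hH0).trans (above_mono n hw H)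
    have k4 := (le_below n ((N : ℝ) ^ (1 / 10 : ℝ)) H hH0).trans (below_mono n hw H)
    rcases hn with hn | hn
    · linarith
    · linarith
  have h1 := Set.ncard_le_ncard hsub (Finset.finite_toSet _)
  rw [Set.ncard_coe_finset] at h1
  have hlBp : (0 : ℝ) < l ^ B := by positivity
  calc _ ≤ ((Bs ∪ range (⌊(N : ℝ) ^ (1 / 2 : ℝ)⌋₊ + 1)).card : ℝ) := by exact_mod_cast h1
    _ ≤ (Bs.card : ℝ) + ((range (⌊(N : ℝ) ^ (1 / 2 : ℝ)⌋₊ + 1)).card : ℝ) := by
        exact_mod_cast card_union_le _ _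
    _ ≤ 1 / 2 * (N / l ^ B) + 1 / 2 * (N / l ^ B) := by
        apply add_le_add
        · refine hB1.trans ?_
          have h2 : (N : ℝ) * l ^ 11 / x₀ ≤ N / (l ^ B * l) := by
            rw [div_le_div_iff₀ hx0r (by positivity)]
            calc (N : ℝ) * l ^ 11 * (l ^ B * l) = N * l ^ (B + 12) := by ring
              _ ≤ N * x₀ := mul_le_mul_of_nonneg_left hx1 hN0.le
          calc C * (N * l ^ 11 / x₀) ≤ C * (N / (l ^ B * l)) := mul_le_mul_of_nonneg_left h2 hC.le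
            _ = (C / l) * (N / l ^ B) := by field_simp
            _ ≤ 1 / 2 * (N / l ^ B) := by
                apply mul_le_mul_of_nonneg_right _ (by positivity)
                rw [div_le_iff₀ hl0]
                linarith
        · rw [card_range]
          push_cast
          have h2 : (⌊(N : ℝ) ^ (1 / 2 : ℝ)⌋₊ : ℝ) ≤ (N : ℝ) ^ (1 / 2 : ℝ) := Nat.floor_le (by positivity)
          have h3 : (1 : ℝ) ≤ (N : ℝ) ^ (1 / 2 : ℝ) := Real.one_le_rpow hN1 (by norm_num)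
          have h4 : 2 * (N : ℝ) ^ (1 / 2 : ℝ) ≤ 1 / 2 * (N / l ^ B) := by
            rw [mul_div_assoc', le_div_iff₀ hlBp]
            linarith
          linarith
    _ = _ := by ring

end Pool.Agent.K3h31.SQ
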