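import Pool.Agent.K3h31.SQ.Pair
import Pool.Agent.H568.SP.Moment
import Pool.Agent.Helper919.NonRes

/-! Sums of Jacobi symbols: Pólya-Vinogradov in progressions and a large sieve. -/

set_option autoImplicit false

open Finset

namespace Pool.Agent.K3h31.SQ

/-- the function `n ↦ (D/n)` for odd `n`, `0` for even `n` -/
def jf (D n : ℕ) : ℤ := if Odd n then jacobiSym D n else 0

theorem jf_mod (D n : ℕ) : jf D (n % (4 * D)) = jf D n := by
  unfold jf
  have hpar : Odd (n % (4 * D)) ↔ Odd n := by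
    rw [Nat.odd_iff, Nat.odd_iff]
    have : n % (4 * D) % 2 = n % 2 := by
      rw [Nat.mod_mod_of_dvd]
      exact ⟨2 * D, by ring⟩
    rw [this]
  by_cases h : Odd n
  · rw [if_pos h, if_pos (hpar.2 h)]
    exact (jacobiSym.mod_right' D h).symm
  · rw [if_neg h, if_neg (fun h' => h (hpar.1 h'))]

theorem jf_mul (D m n : ℕ) : jf D (m * n) = jf D m * jf D n := by
  unfold jf
  by_cases hm : Odd m
  · by_cases hn : Odd n
    · rw [if_pos hm, if_pos hn, if_pos (hm.mul hn)]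
      have : NeZero m := ⟨hm.pos.ne'⟩
      have : NeZero n := ⟨hn.pos.ne'⟩
      exact jacobiSym.mul_right D m n
    · rw [if_neg hn, if_neg (fun h => hn (Nat.odd_mul.1 h).2), mul_zero]
  · rw [if_neg hm, if_neg (fun h => hm (Nat.odd_mul.1 h).1), zero_mul]

theorem jf_one (D : ℕ) : jf D 1 = 1 := by
  unfold jf
  simp

theorem jf_nonunit (D n : ℕ) (h : ¬ n.Coprime (4 * D)) : jf D n = 0 := by
  unfold jf
  by_cases hn : Odd n
  · rw [if_pos hn]
    refine jacobiSym.eq_zero_iff.2 ⟨hn.pos.ne', fun hg => h ?_⟩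
    have h4 : n.Coprime 4 := by
      have : n.Coprime 2 := (Nat.coprime_two_right).2 hn
      exact Nat.Coprime.mul_right this this
    have hD' : n.Coprime D := by
      rw [Nat.coprime_comm]
      simpa [Int.gcd] using hg
    exact Nat.Coprime.mul_right h4 hD'
  · rw [if_neg hn]

/-- the character `n ↦ (D/n)` -/
noncomputable def psi (D : ℕ) (hD : 0 < D) : DirichletCharacter ℂ (4 * D) where
  toFun a := ((jf D a.val : ℤ) : ℂ)
  map_one' := by
    have : Fact (1 < 4 * D) := ⟨by omega⟩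
    rw [ZMod.val_one, jf_one]
    simp
  map_mul' a b := by
    have : NeZero (4 * D) := ⟨by omega⟩
    rw [ZMod.val_mul, jf_mod, jf_mul]
    push_cast
    rfl
  map_nonunit' a ha := by
    have : NeZero (4 * D) := ⟨by omega⟩
    have h : ¬ a.val.Coprime (4 * D) := by
      intro hc
      apply ha
      have := (ZMod.isUnit_iff_coprime a.val (4 * D)).2 hc
      rwa [ZMod.natCast_zmod_val] at this
    simp only [jf_nonunit D _ h]
    simp

theorem psi_nat (D : ℕ) (hD : 0 < D) (n : ℕ) :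
    psi D hD (n : ZMod (4 * D)) = ((jf D n : ℤ) : ℂ) := by
  change ((jf D ((n : ZMod (4 * D))).val : ℤ) : ℂ) = _
  rw [ZMod.val_natCast, jf_mod]

theorem psi_ne (D : ℕ) (hD : 0 < D) (h : ¬ IsSquare (D : ℤ)) : psi D hD ≠ 1 := by
  obtain ⟨n, hn, hj⟩ := Pool.Agent.Helper919.exists_jacobi_neg_one (D : ℤ) h
  intro he
  have h1 := psi_nat D hD n
  rw [he] at h1
  have h2 : jf D n = -1 := by unfold jf; rw [if_pos hn, hj]
  rw [h2] at h1
  by_cases hu : IsUnit (n : ZMod (4 * D))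
  · rw [MulChar.one_apply hu] at h1
    norm_num at h1
  · rw [MulChar.map_nonunit _ hu] at h1
    norm_num at h1

/-- Pólya-Vinogradov in the lower argument -/
theorem top_sum (D : ℕ) (hD : 0 < D) (h : ¬ IsSquare (D : ℤ)) (X : ℕ) :
    |∑ e ∈ Icc 1 X, ((jf D e : ℤ) : ℝ)| ≤ 4 * Real.sqrt ((4 * D : ℕ) : ℝ) *
      (1 + Real.log ((4 * D : ℕ) : ℝ)) := by
  have h1 := Pool.Agent.H38R2.CG.PVh.sum_le (4 * D) (psi D hD) (by omega) (psi_ne D hD h) X
  have h2 : ∑ n ∈ Icc 1 X, psi D hD (n : ZMod (4 * D)) =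
      ((∑ e ∈ Icc 1 X, ((jf D e : ℤ) : ℝ) : ℝ) : ℂ) := by
    push_cast
    exact sum_congr rfl fun n _ => by rw [psi_nat]
  rw [h2, Complex.norm_real] at h1
  exact h1

/-- pairs with a square product -/
theorem square_pairs (H : ℕ) :
    ((((Icc 1 H) ×ˢ (Icc 1 H)).filter (fun z : ℕ × ℕ => IsSquare (z.1 * z.2))).card : ℝ) ≤
      H * (1 + Real.log H) := by
  classical
  set B : ℕ → Finset ℕ := fun s => (Icc 1 (Nat.sqrt (H / s))).image (fun b => s * b ^ 2) with hB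
  have hsub : ((Icc 1 H) ×ˢ (Icc 1 H)).filter (fun z : ℕ × ℕ => IsSquare (z.1 * z.2)) ⊆
      (Icc 1 H).biUnion (fun s => B s ×ˢ B s) := by
    rintro ⟨k, l⟩ hz
    rw [mem_filter, mem_product, mem_Icc, mem_Icc] at hz
    obtain ⟨⟨hk, hl⟩, hsq⟩ := hz
    simp only at hk hl hsq
    obtain ⟨a, b, hab, ha⟩ := Nat.sq_mul_squarefree k
    obtain ⟨a', b', hab', ha'⟩ := Nat.sq_mul_squarefree l
    have hb0 : 0 < b := by
      rcases Nat.eq_zero_or_pos b with h | h
      · subst h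
        simp at hab
        omega
      · exact h
    have hb0' : 0 < b' := by
      rcases Nat.eq_zero_or_pos b' with h | h
      · subst h
        simp at hab'
        omega
      · exact h
    have ha0 : 0 < a := Nat.pos_of_ne_zero ha.ne_zero
    have ha0' : 0 < a' := Nat.pos_of_ne_zero ha'.ne_zero
    have haa : a' = a := by
      obtain ⟨c, hc⟩ := hsq
      have h1 : (b * b') ^ 2 * (a * a') = c ^ 2 := by
        rw [← hab, ← hab'] at hc
        rw [sq c, ← hc]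
        ring
      have h2 : b * b' ∣ c := by
        rw [← Nat.pow_dvd_pow_iff (n := 2) (by norm_num)]
        exact Dvd.intro _ h1
      obtain ⟨t, ht⟩ := h2
      have h3 : a * a' = t ^ 2 := by
        rw [ht, mul_pow (b * b') t 2] at h1
        exact Nat.eq_of_mul_eq_mul_left (pow_pos (Nat.mul_pos hb0 hb0') 2) h1
      have h4 : a ∣ t := by
        have h5 : a ∣ t ^ 2 := Dvd.intro _ h3
        exact (ha.dvd_pow_iff_dvd (by norm_num)).1 h5
      obtain ⟨t', ht'⟩ := h4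
      have h6 : a' = a * t' ^ 2 := by
        have h7 : a * a' = a * (a * t' ^ 2) := by
          rw [h3, ht']
          ring
        exact Nat.eq_of_mul_eq_mul_left ha0 h7
      have h8 : t' * t' ∣ a' := by
        rw [h6]
        exact ⟨a, by ring⟩
      have h9 := Nat.isUnit_iff.1 (ha' t' h8)
      rw [h6, h9]
      ring
    have hmem : ∀ (x y : ℕ), 1 ≤ x → x ≤ H → 0 < y → y ^ 2 * a = x → x ∈ B a := by
      intro x y h1 h2 h3 h4
      rw [hB]
      simp only
      rw [mem_image]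
      refine ⟨y, ?_, ?_⟩
      · rw [mem_Icc]
        refine ⟨h3, ?_⟩
        rw [Nat.le_sqrt', Nat.le_div_iff_mul_le ha0, h4]
        exact h2
      · rw [← h4]
        ring
    rw [mem_biUnion]
    refine ⟨a, ?_, ?_⟩
    · rw [mem_Icc]
      refine ⟨ha0, ?_⟩
      calc a ≤ b ^ 2 * a := Nat.le_mul_of_pos_left a (pow_pos hb0 2)
        _ = k := hab
        _ ≤ H := hk.2
    · rw [mem_product]
      refine ⟨hmem k b hk.1 hk.2 hb0 hab, hmem l b' hl.1 hl.2 hb0' ?_⟩
      rw [← haa]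
      exact hab'
  have hcard : ∀ s ∈ Icc 1 H, (((B s ×ˢ B s).card : ℕ) : ℝ) ≤ (H : ℝ) * (1 / (s : ℝ)) := by
    intro s hs
    rw [mem_Icc] at hs
    rw [card_product]
    have h1 : (B s).card ≤ Nat.sqrt (H / s) := by
      refine card_image_le.trans ?_
      rw [Nat.card_Icc, Nat.add_sub_cancel]
    have h2 : (B s).card * (B s).card ≤ H / s :=
      (Nat.mul_le_mul h1 h1).trans (Nat.sqrt_le _)
    calc (((B s).card * (B s).card : ℕ) : ℝ) ≤ ((H / s : ℕ) : ℝ) := by exact_mod_cast h2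
      _ ≤ (H : ℝ) / s := Nat.cast_div_le
      _ = _ := by ring
  have hharm : ∑ s ∈ Icc 1 H, 1 / (s : ℝ) ≤ 1 + Real.log H := by
    have h1 := harmonic_le_one_add_log H
    rw [harmonic_eq_sum_Icc] at h1
    push_cast at h1
    refine le_trans (le_of_eq ?_) h1
    apply sum_congr rfl
    intro s _
    rw [one_div]
  calc ((((Icc 1 H) ×ˢ (Icc 1 H)).filter (fun z : ℕ × ℕ => IsSquare (z.1 * z.2))).card : ℝ) ≤
      (((Icc 1 H).biUnion (fun s => B s ×ˢ B s)).card : ℝ) := by exact_mod_cast card_le_card hsub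
    _ ≤ ∑ s ∈ Icc 1 H, (((B s ×ˢ B s).card : ℕ) : ℝ) := by exact_mod_cast card_biUnion_le
    _ ≤ ∑ s ∈ Icc 1 H, (H : ℝ) * (1 / (s : ℝ)) := sum_le_sum hcard
    _ = H * ∑ s ∈ Icc 1 H, 1 / (s : ℝ) := by rw [mul_sum]
    _ ≤ _ := mul_le_mul_of_nonneg_left hharm (Nat.cast_nonneg H)

/-- **The large sieve for Jacobi symbols, elementary form.** -/
theorem large_sieve (σ : ℤ) (hσ : σ * σ = 1) (H X : ℕ) (hH : 1 ≤ H) (K : Finset ℕ)
    (hK : K ⊆ Icc 1 H) :
    ∑ e ∈ (Icc 1 X).filter (fun e => Odd e),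
      (∑ k ∈ K, ((jacobiSym (-(σ * k)) e : ℤ) : ℝ)) ^ 2 ≤
      X * (H * (1 + Real.log H)) + (H : ℝ) ^ 2 * (8 * H * (1 + Real.log (4 * (H : ℝ) ^ 2))) := by
  classical
  have hHr : (1 : ℝ) ≤ H := by exact_mod_cast hH
  set V : ℝ := 8 * H * (1 + Real.log (4 * (H : ℝ) ^ 2)) with hV
  have hlog0 : 0 ≤ Real.log (4 * (H : ℝ) ^ 2) := Real.log_nonneg (by nlinarith)
  have hV0 : 0 ≤ V := by positivity
  have h1 : ∑ e ∈ (Icc 1 X).filter (fun e => Odd e),
      (∑ k ∈ K, ((jacobiSym (-(σ * k)) e : ℤ) : ℝ)) ^ 2 =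
      ∑ z ∈ K ×ˢ K, ∑ e ∈ Icc 1 X, ((jf (z.1 * z.2) e : ℤ) : ℝ) := by
    rw [sum_comm, sum_filter]
    apply sum_congr rfl
    intro e _
    split_ifs with he
    · rw [sq, sum_mul_sum, ← sum_product']
      apply sum_congr rfl
      intro z _
      unfold jf
      rw [if_pos he]
      have e1 : (((z.1 * z.2 : ℕ) : ℤ)) = (-(σ * (z.1 : ℤ))) * (-(σ * (z.2 : ℤ))) := by
        push_cast
        linear_combination (-((z.1 : ℤ) * z.2)) * hσ
      rw [e1, jacobiSym.mul_left]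
      push_cast
      rfl
    · symm
      apply sum_eq_zero
      intro z _
      unfold jf
      rw [if_neg he]
      simp
  rw [h1]
  have h2 : ∀ z ∈ K ×ˢ K, ∑ e ∈ Icc 1 X, ((jf (z.1 * z.2) e : ℤ) : ℝ) ≤
      (if IsSquare (z.1 * z.2) then (X : ℝ) else 0) + V := by
    intro z hz
    rw [mem_product] at hz
    have hz1 := mem_Icc.1 (hK hz.1)
    have hz2 := mem_Icc.1 (hK hz.2)
    split_ifs with hsq
    · have : ∑ e ∈ Icc 1 X, ((jf (z.1 * z.2) e : ℤ) : ℝ) ≤ ∑ e ∈ Icc 1 X, (1 : ℝ) := by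
        apply sum_le_sum
        intro e _
        unfold jf
        split_ifs
        · rcases jacobiSym.trichotomy ((z.1 * z.2 : ℕ) : ℤ) e with h | h | h <;> rw [h] <;> norm_num
        · norm_num
      rw [sum_const, Nat.card_Icc, Nat.add_sub_cancel, nsmul_eq_mul, mul_one] at this
      linarith
    · have hpos : 0 < z.1 * z.2 := Nat.mul_pos hz1.1 hz2.1
      have hns : ¬ IsSquare ((z.1 * z.2 : ℕ) : ℤ) := by
        rw [Int.isSquare_natCast_iff]
        exact hsq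
      have h3 := (abs_le.1 (top_sum (z.1 * z.2) hpos hns X)).2
      have h4 : ((z.1 * z.2 : ℕ) : ℝ) ≤ (H : ℝ) ^ 2 := by
        have : z.1 * z.2 ≤ H * H := Nat.mul_le_mul hz1.2 hz2.2
        rw [sq]
        exact_mod_cast this
      have h5 : ((4 * (z.1 * z.2) : ℕ) : ℝ) ≤ 4 * (H : ℝ) ^ 2 := by
        push_cast at h4 ⊢
        linarith
      have h50 : (0 : ℝ) < ((4 * (z.1 * z.2) : ℕ) : ℝ) := by
        have : 0 < 4 * (z.1 * z.2) := by omega
        exact_mod_cast this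
      have h6 : Real.sqrt ((4 * (z.1 * z.2) : ℕ) : ℝ) ≤ 2 * H := by
        rw [Real.sqrt_le_left (by positivity)]
        refine h5.trans (le_of_eq ?_)
        ring
      have h7 : Real.log ((4 * (z.1 * z.2) : ℕ) : ℝ) ≤ Real.log (4 * (H : ℝ) ^ 2) :=
        Real.log_le_log h50 h5
      have h8 : 0 ≤ Real.log ((4 * (z.1 * z.2) : ℕ) : ℝ) := by
        apply Real.log_nonneg
        have : 1 ≤ 4 * (z.1 * z.2) := by omega
        exact_mod_cast this
      rw [zero_add]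
      refine h3.trans ?_
      rw [hV]
      calc 4 * Real.sqrt ((4 * (z.1 * z.2) : ℕ) : ℝ) * (1 + Real.log ((4 * (z.1 * z.2) : ℕ) : ℝ)) ≤
          4 * (2 * H) * (1 + Real.log (4 * (H : ℝ) ^ 2)) := by
            apply mul_le_mul _ (by linarith) (by linarith) (by positivity)
            exact mul_le_mul_of_nonneg_left h6 (by norm_num)
        _ = _ := by ring
  refine (sum_le_sum h2).trans ?_
  rw [sum_add_distrib, sum_const, nsmul_eq_mul, ← sum_filter, sum_const, nsmul_eq_mul]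
  have hcK : ((K ×ˢ K).card : ℝ) ≤ (H : ℝ) ^ 2 := by
    rw [card_product]
    have h3 : K.card ≤ H := by
      have := card_le_card hK
      rwa [Nat.card_Icc, Nat.add_sub_cancel] at this
    have : K.card * K.card ≤ H * H := Nat.mul_le_mul h3 h3
    rw [sq]
    exact_mod_cast this
  have hsub : (K ×ˢ K).filter (fun z : ℕ × ℕ => IsSquare (z.1 * z.2)) ⊆
      ((Icc 1 H) ×ˢ (Icc 1 H)).filter (fun z : ℕ × ℕ => IsSquare (z.1 * z.2)) :=
    filter_subset_filter _ (product_subset_product hK hK)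
  have h9 : (((K ×ˢ K).filter (fun z : ℕ × ℕ => IsSquare (z.1 * z.2))).card : ℝ) ≤
      H * (1 + Real.log H) :=
    le_trans (by exact_mod_cast card_le_card hsub) (square_pairs H)
  apply add_le_add
  · rw [mul_comm]
    exact mul_le_mul_of_nonneg_left h9 (Nat.cast_nonneg X)
  · exact mul_le_mul_of_nonneg_right hcK hV0

/-- Pólya-Vinogradov for arithmetic progressions -/
theorem ap_sum (M a q X : ℕ) (hM : 2 ≤ M) (hne : ∃ a : ℕ, jacobiSym (a : ℤ) M = -1)
    (hq : Nat.Coprime q M) :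
    |∑ j ∈ range X, ((jacobiSym ((a + q * j : ℕ) : ℤ) M : ℤ) : ℝ)| ≤
      8 * Real.sqrt M * (1 + Real.log M) := by
  have hNZ : NeZero M := ⟨by omega⟩
  obtain ⟨c, hc1, hc⟩ : ∃ c : ℕ, 1 ≤ c ∧ (q : ZMod M) * (c : ZMod M) = (a : ZMod M) := by
    have hu : IsUnit (q : ZMod M) := (ZMod.isUnit_iff_coprime q M).mpr hq
    obtain ⟨u, hu⟩ := hu
    refine ⟨((↑u⁻¹ : ZMod M) * (a : ZMod M)).val + M, by omega, ?_⟩
    rw [Nat.cast_add, ZMod.natCast_self, add_zero, ZMod.natCast_zmod_val, ← hu, ← mul_assoc,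
      Units.mul_inv, one_mul]
  have hterm : ∀ j : ℕ, ((jacobiSym ((a + q * j : ℕ) : ℤ) M : ℤ) : ℝ) =
      ((jacobiSym (q : ℤ) M : ℤ) : ℝ) * ((jacobiSym ((c + j : ℕ) : ℤ) M : ℤ) : ℝ) := by
    intro j
    rw [← Int.cast_mul, ← jacobiSym.mul_left]
    rw [jacobiSym.mod_left, jacobiSym.mod_left ((q : ℤ) * ((c + j : ℕ) : ℤ))]
    congr 2
    have h : ((((a + q * j : ℕ) : ℤ) : ℤ) : ZMod M) = (((q : ℤ) * ((c + j : ℕ) : ℤ) : ℤ) : ZMod M) := by
      push_cast
      rw [← hc]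
      ring
    exact (ZMod.intCast_eq_intCast_iff _ _ M).mp h
  have hsum : ∑ j ∈ range X, ((jacobiSym ((a + q * j : ℕ) : ℤ) M : ℤ) : ℝ) =
      ((jacobiSym (q : ℤ) M : ℤ) : ℝ) * (∑ n ∈ Icc 1 (c + X - 1), ((jacobiSym (n : ℤ) M : ℤ) : ℝ) -
        ∑ n ∈ Icc 1 (c - 1), ((jacobiSym (n : ℤ) M : ℤ) : ℝ)) := by
    rw [sum_congr rfl fun j _ => hterm j, ← mul_sum]
    congr 1
    have e1 : ∀ m : ℕ, 1 ≤ m → Icc 1 (m - 1) = Ico 1 m := by
      intro m hm
      ext x
      rw [mem_Icc, mem_Ico]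
      omega
    rw [e1 (c + X) (by omega), e1 c hc1, eq_sub_iff_add_eq, add_comm,
      ← sum_Ico_consecutive _ hc1 (Nat.le_add_right c X)]
    congr 1
    rw [sum_Ico_eq_sum_range, Nat.add_sub_cancel_left]
  have h1 := Pool.Agent.H568.SP.jac_sum_le M hM hne (c + X - 1)
  have h2 := Pool.Agent.H568.SP.jac_sum_le M hM hne (c - 1)
  have h3 := Pool.Agent.H568.SP.jac_abs_le (q : ℤ) M
  rw [hsum, abs_mul]
  calc _ ≤ 1 * |(∑ n ∈ Icc 1 (c + X - 1), ((jacobiSym (n : ℤ) M : ℤ) : ℝ)) -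
        ∑ n ∈ Icc 1 (c - 1), ((jacobiSym (n : ℤ) M : ℤ) : ℝ)| :=
        mul_le_mul_of_nonneg_right h3 (abs_nonneg _)
    _ ≤ _ := by
      rw [one_mul]
      refine (abs_sub _ _).trans ?_
      linarith

/-- the elements of `KK` form a progression -/
theorem KK_prog (σ : ℤ) (hσ : σ * σ = 1) (H g u : ℕ) (hg : 0 < g) :
    ∃ a X : ℕ, ∀ f : ℕ → ℝ, ∑ k ∈ KK σ H g u, f k = ∑ j ∈ range X, f (a + g * j) := by
  obtain ⟨b, hb⟩ := class_b σ hσ g hg ((u : ℤ) ^ 2)
  have hbg : b % g < g := Nat.mod_lt b hg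
  set a : ℕ := g - b % g with ha
  have ha1 : 1 ≤ a := by omega
  have hag : a ≤ g := by omega
  have hab : g ∣ a + b := by
    have h1 : a + b = g + g * (b / g) := by
      have := Nat.div_add_mod b g
      omega
    rw [h1]
    exact ⟨1 + b / g, by ring⟩
  refine ⟨a, (H + g - a) / g, fun f => ?_⟩
  have hX : ∀ j, j < (H + g - a) / g ↔ a + g * j ≤ H := by
    intro j
    rw [Nat.lt_iff_add_one_le, Nat.le_div_iff_mul_le hg]
    have : (j + 1) * g = g * j + g := by ring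
    rw [this]
    omega
  symm
  apply sum_bij (fun j _ => a + g * j)
  · intro j hj
    rw [mem_range, hX] at hj
    unfold KK
    rw [mem_filter, mem_Icc]
    refine ⟨⟨by omega, hj⟩, ?_⟩
    rw [hb]
    have : 1 * (a + g * j) + b = (a + b) + g * j := by ring
    rw [this]
    exact (Nat.dvd_add_left (dvd_mul_right g j)).2 hab
  · intro j _ j' _ h
    have h1 : g * j = g * j' := by omega
    exact Nat.eq_of_mul_eq_mul_left hg h1
  · intro k hk
    unfold KK at hk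
    rw [mem_filter, mem_Icc, hb, one_mul] at hk
    obtain ⟨⟨hk1, hk2⟩, hk3⟩ := hk
    have hka : a ≤ k := by
      by_contra hlt
      push Not at hlt
      have h1 : g ∣ (a + b) - (k + b) := Nat.dvd_sub hab hk3
      have h2 : (a + b) - (k + b) = a - k := by omega
      rw [h2] at h1
      have := Nat.le_of_dvd (by omega) h1
      omega
    have h1 : g ∣ (k + b) - (a + b) := Nat.dvd_sub hk3 hab
    have h2 : (k + b) - (a + b) = k - a := by omega
    rw [h2] at h1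
    obtain ⟨j, hj⟩ := h1
    have hkj : a + g * j = k := by omega
    refine ⟨j, ?_, hkj⟩
    rw [mem_range, hX, hkj]
    exact hk2
  · intro j _
    rfl

theorem pv_KK (σ : ℤ) (hσ : σ * σ = 1) (H g u e : ℕ) (hg : 0 < g) (he : 2 ≤ e) (ho : Odd e)
    (hs : Squarefree e) (hge : Nat.Coprime g e) :
    |∑ k ∈ KK σ H g u, ((jacobiSym (-(σ * k)) e : ℤ) : ℝ)| ≤ 8 * Real.sqrt e * (1 + Real.log e) := by
  have hne : ∃ a : ℕ, jacobiSym (a : ℤ) e = -1 := by
    obtain ⟨a, ha⟩ := Pool.Agent.H379R2.W.exists_neg_one hs squarefree_one ho odd_one (by omega)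
    exact ⟨a, by simpa using ha⟩
  have h1 : ∑ k ∈ KK σ H g u, ((jacobiSym (-(σ * k)) e : ℤ) : ℝ) =
      ((jacobiSym (-σ) e : ℤ) : ℝ) * ∑ k ∈ KK σ H g u, ((jacobiSym (k : ℤ) e : ℤ) : ℝ) := by
    rw [mul_sum]
    apply sum_congr rfl
    intro k _
    rw [← Int.cast_mul, ← jacobiSym.mul_left, neg_mul]
  obtain ⟨a, X, hX⟩ := KK_prog σ hσ H g u hg
  rw [h1, hX (fun k => ((jacobiSym (k : ℤ) e : ℤ) : ℝ)), abs_mul]
  have h2 := Pool.Agent.H568.SP.jac_abs_le (-σ) e
  have h3 := ap_sum e a g X he hne hge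
  calc _ ≤ 1 * (8 * Real.sqrt e * (1 + Real.log e)) :=
        mul_le_mul h2 h3 (abs_nonneg _) zero_le_one
    _ = _ := one_mul _

end Pool.Agent.K3h31.SQ
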