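import Pool.Agent.K3h31.SQ.Sq
import Pool.Agent.Y882.GW.Num2

/-! Almost primes close to the squares of almost all integers: one length. -/

set_option autoImplicit false

open Finset Filter

namespace Pool.Agent.K3h31.SQ

open Pool.Agent.W23.DC
open Pool.Agent.Y882
open Pool.Agent.Y882.KW
open Pool.Agent.K3h31.LP (lower prod_up prod_up2 log_pow_le cheb markov)

/-- a positive integer with at most five prime factors, all of them at least `w` -/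
def AP5 (w : ℝ) (m : ℕ) : Prop :=
  0 < m ∧ m.primeFactorsList.length ≤ 5 ∧ ∀ q : ℕ, q.Prime → q ∣ m → w ≤ q

open Classical in
/-- the `k ≤ H` such that `n ^ 2 + σ k` is positive and almost prime -/
noncomputable def good (σ : ℤ) (n : ℕ) (w : ℝ) (H : ℕ) : Finset ℕ :=
  (Icc 1 H).filter (fun k => 0 < (n : ℤ) ^ 2 + σ * k ∧ AP5 w ((n : ℤ) ^ 2 + σ * k).natAbs)

theorem prod_up4 (P : Finset ℕ) : ∏ p ∈ P, (1 + 4 / (p : ℝ)) ≤ (∏ p ∈ P, (1 + 2 / (p : ℝ))) ^ 2 := by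
  rw [← prod_pow]
  apply Finset.prod_le_prod
  · intro p _
    positivity
  · intro p _
    have h : (1 + 2 / (p : ℝ)) ^ 2 = 1 + 4 / (p : ℝ) + (2 / (p : ℝ)) ^ 2 := by ring
    rw [h]
    have := sq_nonneg (2 / (p : ℝ))
    linarith

/-- positive weights -/
theorem pos_good (σ : ℤ) (Y : ℕ) (hY : 2 ≤ Y) (n H : ℕ) (w : ℝ)
    (hpos : ∀ k ∈ Icc 1 H, 0 < (n : ℤ) ^ 2 + σ * k)
    (hval : ∀ k ∈ Icc 1 H, ((((n : ℤ) ^ 2 + σ * k).natAbs : ℕ) : ℝ) ≤ (Y : ℝ) ^ (201 / 100 : ℝ))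
    (hw : w ≤ (Y : ℝ) ^ ((444 / 1000 : ℝ) / 4)) :
    (((Icc 1 H).filter (fun k : ℕ => 0 < WW Y ((444 / 1000 : ℝ) / 4) (9 / 10 * (444 / 1000 : ℝ)) (80 / 77)
      (80 / 77 / (9 / 10 * (444 / 1000 : ℝ))) ((n : ℤ) ^ 2 + σ * k).natAbs)).card : ℝ) ≤
      (good σ n w H).card + (sqk σ Y ((444 / 1000 : ℝ) / 4) (9 / 10 * (444 / 1000 : ℝ)) n H).card := by
  classical
  have hsub : (Icc 1 H).filter (fun k : ℕ => 0 < WW Y ((444 / 1000 : ℝ) / 4) (9 / 10 * (444 / 1000 : ℝ))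
      (80 / 77) (80 / 77 / (9 / 10 * (444 / 1000 : ℝ))) ((n : ℤ) ^ 2 + σ * k).natAbs) ⊆
      good σ n w H ∪ sqk σ Y ((444 / 1000 : ℝ) / 4) (9 / 10 * (444 / 1000 : ℝ)) n H := by
    intro k hk
    rw [mem_filter] at hk
    obtain ⟨hk1, hk2⟩ := hk
    rw [mem_union]
    by_cases hs : k ∈ sqk σ Y ((444 / 1000 : ℝ) / 4) (9 / 10 * (444 / 1000 : ℝ)) n H
    · exact Or.inr hs
    left
    have hp := hpos k hk1
    have hne : ((n : ℤ) ^ 2 + σ * k).natAbs ≠ 0 := Int.natAbs_ne_zero.2 hp.ne'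
    obtain ⟨h3, h4⟩ := almost Y hY ((444 / 1000 : ℝ) / 4) (9 / 10 * (444 / 1000 : ℝ)) (80 / 77)
      (201 / 100) 5 (by norm_num) (by norm_num) (by norm_num) (by norm_num) (by norm_num)
      ((n : ℤ) ^ 2 + σ * k).natAbs hne (hval k hk1) hk2 (by
        intro q hq hd
        apply hs
        unfold sqk
        rw [mem_filter]
        refine ⟨hk1, q, hq, ?_⟩
        have h5 := Int.natCast_dvd.2 hd
        push_cast at h5
        exact h5)
    unfold good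
    rw [mem_filter]
    exact ⟨hk1, hp, Nat.pos_of_ne_zero hne, h3, fun q hq hd => hw.trans (h4 q hq hd)⟩
  exact_mod_cast (card_le_card hsub).trans (card_union_le _ _)

/-- the remainder of the sieve -/
theorem remainder (σ : ℤ) (Q : Finset (Finset ℕ)) (n H : ℕ) (c : Finset ℕ → ℝ) :
    ∑ T ∈ Q, c T *
      ((((Icc 1 H).filter (fun k : ℕ => ∏ q ∈ T, q ∣ ((n : ℤ) ^ 2 + σ * k).natAbs)).card : ℝ) -
        (Icc 1 H).card * ∏ q ∈ T, (1 / (q : ℝ))) =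
    ∑ T ∈ Q, c T * E σ H (∏ q ∈ T, q) n := by
  classical
  apply sum_congr rfl
  intro T _
  congr 1
  unfold E
  have h1 : (Icc 1 H).filter (fun k : ℕ => ∏ q ∈ T, q ∣ ((n : ℤ) ^ 2 + σ * k).natAbs) =
      KK σ H (∏ q ∈ T, q) n := by
    unfold KK
    apply filter_congr
    intro k _
    exact Int.natCast_dvd.symm
  rw [h1, inv_prod, Nat.card_Icc, Nat.add_sub_cancel]
  ring

theorem one_h : ∃ δ C : ℝ, 0 < δ ∧ 0 < C ∧ ∃ P₀ : ℕ, ∀ P : ℕ, P₀ ≤ P → ∀ h : ℕ, 1 ≤ h →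
    (h : ℝ) ≤ (P : ℝ) ^ (1 / 10 : ℝ) → ∀ σ : ℤ, (σ = 1 ∨ σ = -1) →
    (((Icc 1 P).filter (fun n => ((good σ n ((P : ℝ) ^ (1 / 10 : ℝ)) (h ^ 8)).card : ℝ) <
      δ * (h : ℝ) ^ 8 / Real.log P)).card : ℝ) ≤ C * (P * Real.log P ^ 11 / h) := by
  classical
  obtain ⟨δ₀, hδ₀, Y0, HL⟩ := lower (444 / 1000) ((444 / 1000 : ℝ) / 4) (9 / 10 * (444 / 1000 : ℝ))
    (80 / 77) (445 / 1000) (by norm_num) (by norm_num) (by norm_num) (by norm_num) (by norm_num)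
    (by norm_num) (by norm_num) (cond_C (444 / 1000) (80 / 77) (by norm_num) (by norm_num) (by norm_num))
    (by norm_num)
  obtain ⟨C₁, hC₁, HU⟩ := prod_up
  set C₂ : ℝ := C₁ ^ 3 * (657 + 7 * C₁ ^ 4) with hC₂
  have hC₂0 : 0 < C₂ := by positivity
  set F : ℝ := 800 * C₂ / δ₀ ^ 2 + 3 with hF
  refine ⟨δ₀ / 4, F, by positivity, by positivity, ?_⟩
  -- large `P`
  have ev1 : ∀ᶠ P : ℕ in atTop, 2 * Real.log P ^ 0 * (P : ℝ) ^ (2 : ℝ) ≤
      (P : ℝ) ^ (201 / 100 : ℝ) := log_pow_le 2 0 _ _ (by norm_num)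
  have ev2 : ∀ᶠ P : ℕ in atTop, (1600 * C₁ ^ 4 / δ₀ ^ 2) * Real.log P ^ 8 * (P : ℝ) ^ (89 / 100 : ℝ) ≤
      (P : ℝ) ^ (9 / 10 : ℝ) := log_pow_le _ 8 _ _ (by norm_num)
  have ev3 : ∀ᶠ P : ℕ in atTop, (40 / δ₀) * Real.log P ^ 1 * (P : ℝ) ^ (889 / 1000 : ℝ) ≤
      (P : ℝ) ^ (9 / 10 : ℝ) := log_pow_le _ 1 _ _ (by norm_num)
  have ev5 : ∀ᶠ P : ℕ in atTop, (3 : ℝ) ≤ (P : ℝ) ^ ((444 / 1000 : ℝ) / 4) :=
    ((tendsto_rpow_atTop (by norm_num)).comp tendsto_natCast_atTop_atTop).eventually_ge_atTop _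
  obtain ⟨P₀, hP₀⟩ := eventually_atTop.1 (ev1.and (ev2.and (ev3.and (ev5.and
    ((eventually_ge_atTop Y0).and (eventually_ge_atTop 3))))))
  refine ⟨P₀, ?_⟩
  intro P hP h hh1 hhP σ hσ'
  have hσ : σ * σ = 1 := by rcases hσ' with h | h <;> rw [h] <;> norm_num
  obtain ⟨e1, e2, e3, e5, e4, e6⟩ := hP₀ P hP
  have hPr : (3 : ℝ) ≤ P := by exact_mod_cast e6
  have hP0 : (0 : ℝ) < P := by linarith
  have hP1 : (1 : ℝ) ≤ P := by linarith
  have hh1r : (1 : ℝ) ≤ h := by exact_mod_cast hh1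
  have hh0 : (0 : ℝ) < h := by linarith
  set l : ℝ := Real.log P with hl
  have hlP1 : 1 ≤ l := by
    have h1 : Real.exp 1 ≤ P := by
      have := Real.exp_one_lt_d9
      linarith
    rw [hl, ← Real.log_exp 1]
    exact Real.log_le_log (Real.exp_pos 1) h1
  have hlP0 : 0 < l := by linarith
  obtain ⟨c, hcL, hcD, HC⟩ := HL P e4
  set D : ℕ := ⌊(P : ℝ) ^ (445 / 1000 : ℝ)⌋₊ with hD
  have hDle : (D : ℝ) ≤ (P : ℝ) ^ (445 / 1000 : ℝ) := Nat.floor_le (by positivity)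
  have hDP : (D : ℝ) ≤ P := hDle.trans (by
    calc (P : ℝ) ^ (445 / 1000 : ℝ) ≤ (P : ℝ) ^ (1 : ℝ) :=
          Real.rpow_le_rpow_of_exponent_le hP1 (by norm_num)
      _ = P := Real.rpow_one _)
  have hD2 : (D : ℝ) ^ 2 ≤ (P : ℝ) ^ (89 / 100 : ℝ) := by
    calc (D : ℝ) ^ 2 ≤ ((P : ℝ) ^ (445 / 1000 : ℝ)) ^ 2 := pow_le_pow_left₀ (Nat.cast_nonneg D) hDle 2
      _ = (P : ℝ) ^ (89 / 100 : ℝ) := by
          rw [← Real.rpow_natCast, ← Real.rpow_mul hP0.le]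
          norm_num
  have hlD : Real.log D ≤ l := by
    rcases Nat.eq_zero_or_pos D with h0 | h0
    · rw [h0]
      simp
      exact hlP0.le
    · exact Real.log_le_log (by exact_mod_cast h0) hDP
  -- the length
  have hh8 : (h : ℝ) ^ 8 ≤ (P : ℝ) ^ (8 / 10 : ℝ) := by
    calc (h : ℝ) ^ 8 ≤ ((P : ℝ) ^ (1 / 10 : ℝ)) ^ 8 := pow_le_pow_left₀ hh0.le hhP 8
      _ = _ := by
          rw [← Real.rpow_natCast, ← Real.rpow_mul hP0.le]
          norm_num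
  have hlh : Real.log h ≤ 1 / 10 * l := by
    have := Real.log_le_log hh0 hhP
    rwa [Real.log_rpow hP0] at this
  have hL1 : 2 + Real.log D ≤ 4 * l := by linarith
  have hL2 : 1 + Real.log (4 * ((h : ℝ) ^ 8) ^ 2) ≤ 4 * l := by
    rw [Real.log_mul (by norm_num) (by positivity), Real.log_pow, Real.log_pow]
    have h4 : Real.log 4 = 2 * Real.log 2 := by
      rw [show (4 : ℝ) = 2 ^ 2 by norm_num, Real.log_pow]
      push_cast
      ring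
    have := Real.log_two_lt_d9
    rw [h4]
    push_cast
    nlinarith
  -- `P / h` is large
  have hPh : (P : ℝ) ^ (9 / 10 : ℝ) ≤ P * l ^ 11 / h := by
    rw [le_div_iff₀ hh0]
    calc (P : ℝ) ^ (9 / 10 : ℝ) * h ≤ (P : ℝ) ^ (9 / 10 : ℝ) * (P : ℝ) ^ (1 / 10 : ℝ) :=
          mul_le_mul_of_nonneg_left hhP (by positivity)
      _ = P := by
          rw [← Real.rpow_add hP0]
          norm_num
      _ ≤ P * l ^ 11 := le_mul_of_one_le_right hP0.le (one_le_pow₀ hlP1)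
  set t : ℝ := δ₀ / 4 * (h : ℝ) ^ 8 / l with ht
  have ht0 : 0 < t := by positivity
  set υ : ℝ := 9 / 10 * (444 / 1000 : ℝ) with hυ
  set S : ℕ → ℝ := fun n => ∑ T ∈ (PZ P υ).powerset, c T * E σ (h ^ 8) (∏ q ∈ T, q) n with hS
  -- the exceptional sets
  set A1 : Finset ℕ := Icc 1 ⌊(P : ℝ) ^ (9 / 20 : ℝ)⌋₊ with hA1
  set A2 : Finset ℕ := (range (P + 1)).filter (fun n => t < |S n|) with hA2
  set A3 : Finset ℕ := (Icc 1 P).filter (fun n => t <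
    ((sqk σ P ((444 / 1000 : ℝ) / 4) υ n (h ^ 8)).card : ℝ)) with hA3
  have hsub : (Icc 1 P).filter (fun n => ((good σ n ((P : ℝ) ^ (1 / 10 : ℝ)) (h ^ 8)).card : ℝ) <
      δ₀ / 4 * (h : ℝ) ^ 8 / l) ⊆ (A1 ∪ A2) ∪ A3 := by
    intro n hn
    rw [mem_filter, ← ht] at hn
    obtain ⟨hn1, hn2⟩ := hn
    have hnP := (mem_Icc.1 hn1).2
    by_contra hcon
    rw [mem_union, mem_union] at hcon
    push Not at hcon
    obtain ⟨⟨hc1, hc2⟩, hc3⟩ := hcon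
    have g1 : (P : ℝ) ^ (9 / 20 : ℝ) < n := by
      by_contra h
      push Not at h
      apply hc1
      rw [hA1, mem_Icc]
      exact ⟨(mem_Icc.1 hn1).1, Nat.le_floor h⟩
    have g2 : |S n| ≤ t := by
      by_contra h
      push Not at h
      apply hc2
      rw [hA2, mem_filter, mem_range]
      exact ⟨by omega, h⟩
    have g3 : ((sqk σ P ((444 / 1000 : ℝ) / 4) υ n (h ^ 8)).card : ℝ) ≤ t := by
      by_contra h
      push Not at h
      apply hc3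
      rw [hA3, mem_filter]
      exact ⟨hn1, h⟩
    have hn2r : (P : ℝ) ^ (8 / 10 : ℝ) < (n : ℝ) ^ 2 := by
      calc (P : ℝ) ^ (8 / 10 : ℝ) ≤ (P : ℝ) ^ (9 / 10 : ℝ) :=
            Real.rpow_le_rpow_of_exponent_le hP1 (by norm_num)
        _ = ((P : ℝ) ^ (9 / 20 : ℝ)) ^ 2 := by
            rw [← Real.rpow_natCast, ← Real.rpow_mul hP0.le]
            norm_num
        _ < (n : ℝ) ^ 2 := pow_lt_pow_left₀ g1 (by positivity) (by norm_num)
    have hkn : ∀ k ∈ Icc 1 (h ^ 8), (k : ℤ) < (n : ℤ) ^ 2 := by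
      intro k hk
      have h1 : (k : ℝ) ≤ (h : ℝ) ^ 8 := by exact_mod_cast (mem_Icc.1 hk).2
      have h2 : (k : ℝ) < (n : ℝ) ^ 2 := (h1.trans hh8).trans_lt hn2r
      exact_mod_cast h2
    have hpos : ∀ k ∈ Icc 1 (h ^ 8), 0 < (n : ℤ) ^ 2 + σ * k := by
      intro k hk
      have h1 := hkn k hk
      have h2 : (1 : ℤ) ≤ k := by exact_mod_cast (mem_Icc.1 hk).1
      rcases hσ' with h | h <;> rw [h] <;> linarith
    have hval : ∀ k ∈ Icc 1 (h ^ 8), ((((n : ℤ) ^ 2 + σ * k).natAbs : ℕ) : ℝ) ≤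
        (P : ℝ) ^ (201 / 100 : ℝ) := by
      intro k hk
      have h1 := hkn k hk
      have h2 : (1 : ℤ) ≤ k := by exact_mod_cast (mem_Icc.1 hk).1
      have h3 : (n : ℤ) ^ 2 + σ * k ≤ 2 * (n : ℤ) ^ 2 := by
        rcases hσ' with h | h <;> rw [h] <;> linarith
      have h4 : ((((n : ℤ) ^ 2 + σ * k).natAbs : ℕ) : ℤ) = (n : ℤ) ^ 2 + σ * k :=
        Int.natAbs_of_nonneg (hpos k hk).le
      have h5 : ((((n : ℤ) ^ 2 + σ * k).natAbs : ℕ) : ℝ) ≤ 2 * (n : ℝ) ^ 2 := by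
        have h6 : ((((n : ℤ) ^ 2 + σ * k).natAbs : ℕ) : ℤ) ≤ 2 * (n : ℤ) ^ 2 := by rw [h4]; exact h3
        exact_mod_cast h6
      refine h5.trans ?_
      have h7 : (n : ℝ) ≤ P := by exact_mod_cast hnP
      calc 2 * (n : ℝ) ^ 2 ≤ 2 * (P : ℝ) ^ 2 := by
            apply mul_le_mul_of_nonneg_left _ (by norm_num)
            exact pow_le_pow_left₀ (Nat.cast_nonneg n) h7 2
        _ = 2 * l ^ 0 * (P : ℝ) ^ (2 : ℝ) := by
            rw [pow_zero, mul_one]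
            norm_num
        _ ≤ _ := e1
    have g4 := HC (fun q => 1 / (q : ℝ)) (Or.inr (by norm_num)) (fun q _ _ => rfl)
      (Icc 1 (h ^ 8)) (fun k => ((n : ℤ) ^ 2 + σ * k).natAbs)
    have g5 := remainder σ (PZ P υ).powerset n (h ^ 8) c
    have hw : (P : ℝ) ^ (1 / 10 : ℝ) ≤ (P : ℝ) ^ ((444 / 1000 : ℝ) / 4) :=
      Real.rpow_le_rpow_of_exponent_le hP1 (by norm_num)
    have g6 := pos_good σ P (by omega) n (h ^ 8) ((P : ℝ) ^ (1 / 10 : ℝ)) hpos hval hw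
    rw [← hυ] at g6
    rw [g5, Nat.card_Icc, Nat.add_sub_cancel] at g4
    have g8 := (abs_le.1 g2).1
    have e : S n = ∑ T ∈ (PZ P υ).powerset, c T * E σ (h ^ 8) (∏ q ∈ T, q) n := rfl
    rw [← e] at g4
    have g9 : δ₀ * ((h ^ 8 : ℕ) : ℝ) / Real.log P = 4 * t := by
      rw [ht, hl]
      push_cast
      ring
    rw [g9] at g4
    linarith
  -- the size of the exceptional sets
  have c1 : (A1.card : ℝ) ≤ P * l ^ 11 / h := by
    rw [hA1, Nat.card_Icc, Nat.add_sub_cancel]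
    refine (Nat.floor_le (by positivity)).trans (le_trans ?_ hPh)
    exact Real.rpow_le_rpow_of_exponent_le hP1 (by norm_num)
  have c3 : (A3.card : ℝ) ≤ P * l ^ 11 / h := by
    refine le_trans ?_ (e3.trans hPh)
    have h1 := markov (Icc 1 P)
      (fun n => ((sqk σ P ((444 / 1000 : ℝ) / 4) υ n (h ^ 8)).card : ℝ))
      (fun n => Nat.cast_nonneg _) t
    have h2 := sq_sum σ hσ (Y := P) (by omega) ((444 / 1000 : ℝ) / 4) υ e5 P (h ^ 8) le_rfl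
    have h3 : (P : ℝ) / (P : ℝ) ^ ((444 / 1000 : ℝ) / 4) ≤ (P : ℝ) ^ (889 / 1000 : ℝ) := by
      rw [div_le_iff₀ (by positivity), ← Real.rpow_add hP0]
      calc (P : ℝ) = (P : ℝ) ^ (1 : ℝ) := (Real.rpow_one _).symm
        _ ≤ _ := Real.rpow_le_rpow_of_exponent_le hP1 (by norm_num)
    have h4 : (P : ℝ) ^ υ ≤ (P : ℝ) ^ (889 / 1000 : ℝ) :=
      Real.rpow_le_rpow_of_exponent_le hP1 (by rw [hυ]; norm_num)
    have h5 : (A3.card : ℝ) * t ≤ (h : ℝ) ^ 8 * (10 * (P : ℝ) ^ (889 / 1000 : ℝ)) := by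
      refine h1.trans (h2.trans ?_)
      push_cast
      apply mul_le_mul_of_nonneg_left _ (by positivity)
      linarith
    have h6 : (A3.card : ℝ) ≤ (h : ℝ) ^ 8 * (10 * (P : ℝ) ^ (889 / 1000 : ℝ)) / t := by
      rw [le_div_iff₀ ht0]
      exact h5
    refine h6.trans (le_of_eq ?_)
    rw [ht, pow_one]
    field_simp
    ring
  have c2 : (A2.card : ℝ) ≤ (800 * C₂ / δ₀ ^ 2) * (P * l ^ 11 / h) + P * l ^ 11 / h := by
    have h1 := cheb (range (P + 1)) S t ht0.le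
    have hPZs : PZ P υ ⊆ (Icc 1 P).filter Nat.Prime := by
      intro q hq
      unfold PZ at hq
      rw [mem_filter] at hq ⊢
      exact ⟨hq.1, hq.2.1⟩
    have hPZp : ∀ q ∈ PZ P υ, q.Prime := fun q hq => (mem_filter.1 (hPZs hq)).2
    have h2 := moment σ hσ (PZ P υ) hPZp c
      (5 * l) (by positivity) D hcL (by
        intro T hT hcT
        have := hcD T hT hcT
        rw [hD]
        exact Nat.le_floor this) h (P + 1) hh1 (4 * l) hL1 hL2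
    have h3 := HU P e6 _ hPZs
    rw [← hl] at h3
    set P1 : ℝ := ∏ q ∈ PZ P υ, (1 + 1 / (q : ℝ)) with hP1'
    set P2 : ℝ := ∏ q ∈ PZ P υ, (1 + 2 / (q : ℝ)) with hP2'
    set P4 : ℝ := ∏ q ∈ PZ P υ, (1 + 4 / (q : ℝ)) with hP4'
    have h30 : 0 ≤ P1 := by positivity
    have h4 : P2 ≤ (C₁ * l) ^ 2 := (prod_up2 _).trans (pow_le_pow_left₀ h30 h3 2)
    have h40 : 0 ≤ P2 := by positivity
    have h5 : P4 ≤ (C₁ * l) ^ 4 := by
      calc P4 ≤ P2 ^ 2 := prod_up4 _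
        _ ≤ ((C₁ * l) ^ 2) ^ 2 := pow_le_pow_left₀ h40 h4 2
        _ = _ := by ring
    have h50 : 0 ≤ P4 := by positivity
    have l2 : l ^ 2 ≤ l ^ 4 := pow_le_pow_right₀ hlP1 (by norm_num)
    have l4 : 1 ≤ l ^ 4 := one_le_pow₀ hlP1
    have h6 : P2 * (1 + 7 * P4 + 41 * (4 * l) ^ 2) * P1 ≤ C₂ * l ^ 7 := by
      calc P2 * (1 + 7 * P4 + 41 * (4 * l) ^ 2) * P1 ≤
          (C₁ * l) ^ 2 * ((657 + 7 * C₁ ^ 4) * l ^ 4) * (C₁ * l) := by
            apply mul_le_mul _ h3 h30 (by positivity)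
            apply mul_le_mul h4 _ (by positivity) (by positivity)
            have e9 : (C₁ * l) ^ 4 = C₁ ^ 4 * l ^ 4 := by ring
            rw [e9] at h5
            nlinarith
        _ = _ := by
            rw [hC₂]
            ring
    have h7 : (A2.card : ℝ) * t ^ 2 ≤ (5 * l) ^ 2 * (((P + 1 : ℕ) : ℝ) * ((h : ℝ) ^ 15 * (C₂ * l ^ 7))) +
        4 * ((h : ℝ) ^ 8) ^ 2 * ((5 * l) ^ 2 * ((P : ℝ) ^ (89 / 100 : ℝ) * (C₁ * l) ^ 4)) := by
      refine h1.trans (h2.trans ?_)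
      apply add_le_add
      · apply mul_le_mul_of_nonneg_left _ (by positivity)
        apply mul_le_mul_of_nonneg_left _ (by positivity)
        calc (h : ℝ) ^ 15 * (P2 * (1 + 7 * P4 + 41 * (4 * l) ^ 2)) * P1 =
            (h : ℝ) ^ 15 * (P2 * (1 + 7 * P4 + 41 * (4 * l) ^ 2) * P1) := by ring
          _ ≤ _ := mul_le_mul_of_nonneg_left h6 (by positivity)
      · apply mul_le_mul_of_nonneg_left _ (by positivity)
        rw [mul_pow, mul_pow (D : ℝ)]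
        apply mul_le_mul_of_nonneg_left _ (by positivity)
        apply mul_le_mul hD2 _ (by positivity) (by positivity)
        calc P2 ^ 2 ≤ ((C₁ * l) ^ 2) ^ 2 := pow_le_pow_left₀ h40 h4 2
          _ = _ := by ring
    have h8 : (A2.card : ℝ) ≤ ((5 * l) ^ 2 * (((P + 1 : ℕ) : ℝ) * ((h : ℝ) ^ 15 * (C₂ * l ^ 7))) +
        4 * ((h : ℝ) ^ 8) ^ 2 * ((5 * l) ^ 2 * ((P : ℝ) ^ (89 / 100 : ℝ) * (C₁ * l) ^ 4))) / t ^ 2 := by
      rw [le_div_iff₀ (by positivity)]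
      exact h7
    refine h8.trans ?_
    have e8 : ((5 * l) ^ 2 * (((P + 1 : ℕ) : ℝ) * ((h : ℝ) ^ 15 * (C₂ * l ^ 7))) +
        4 * ((h : ℝ) ^ 8) ^ 2 * ((5 * l) ^ 2 * ((P : ℝ) ^ (89 / 100 : ℝ) * (C₁ * l) ^ 4))) / t ^ 2 =
        400 * C₂ / δ₀ ^ 2 * (((P + 1 : ℕ) : ℝ) * l ^ 11 / h) +
        1600 * C₁ ^ 4 / δ₀ ^ 2 * l ^ 8 * (P : ℝ) ^ (89 / 100 : ℝ) := by
      rw [ht]
      field_simp
      ring
    rw [e8]
    apply add_le_add
    · have h9 : ((P + 1 : ℕ) : ℝ) ≤ 2 * P := by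
        push_cast
        linarith
      calc 400 * C₂ / δ₀ ^ 2 * (((P + 1 : ℕ) : ℝ) * l ^ 11 / h) ≤
          400 * C₂ / δ₀ ^ 2 * ((2 * P) * l ^ 11 / h) := by
            apply mul_le_mul_of_nonneg_left _ (by positivity)
            apply div_le_div_of_nonneg_right _ hh0.le
            exact mul_le_mul_of_nonneg_right h9 (by positivity)
        _ = _ := by ring
    · exact e2.trans hPh
  calc (((Icc 1 P).filter (fun n => ((good σ n ((P : ℝ) ^ (1 / 10 : ℝ)) (h ^ 8)).card : ℝ) <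
      δ₀ / 4 * (h : ℝ) ^ 8 / l)).card : ℝ) ≤ (((A1 ∪ A2) ∪ A3).card : ℝ) := by
        exact_mod_cast card_le_card hsub
    _ ≤ A1.card + A2.card + A3.card := by
        exact_mod_cast (card_union_le (A1 ∪ A2) A3).trans
          (Nat.add_le_add_right (card_union_le A1 A2) _)
    _ ≤ F * (P * l ^ 11 / h) := by
        rw [hF]
        have : (800 * C₂ / δ₀ ^ 2 + 3) * (P * l ^ 11 / h) =
          P * l ^ 11 / h + ((800 * C₂ / δ₀ ^ 2) * (P * l ^ 11 / h) + P * l ^ 11 / h) +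
          P * l ^ 11 / h := by ring
        rw [this]
        exact add_le_add (add_le_add c1 c2) c3

end Pool.Agent.K3h31.SQ
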