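import Pool.Agent.K3h31.SQ.ZB

/-! The second moment of the remainder. -/

set_option autoImplicit false

open Finset

namespace Pool.Agent.K3h31.SQ

open Pool.Agent.K3h31.LP (count_sets)

/-- the terms with given greatest common divisor -/
noncomputable def inn (σ : ℤ) (H : ℕ) (P : Finset ℕ) (D : ℕ) (G : Finset ℕ) : ℝ :=
  ∑ A ∈ P.powerset.filter (fun A => Disjoint A G ∧ ∏ q ∈ A, q ≤ D),
    (∏ q ∈ G, (1 / (q : ℝ))) * ((∏ q ∈ A, (1 / (q : ℝ))) * FF σ H G A)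

theorem inn_nonneg (σ : ℤ) (H : ℕ) (P : Finset ℕ) (D : ℕ) (G : Finset ℕ) : 0 ≤ inn σ H P D G := by
  unfold inn
  apply sum_nonneg
  intro A _
  have := FF_nonneg σ H G A
  positivity

/-- sums over subsets -/
theorem sub_sum (P : Finset ℕ) (F : Finset (Finset ℕ)) (hF : F ⊆ P.powerset)
    (hdown : ∀ A ∈ F, ∀ U ⊆ A, U ∈ F) (x : Finset ℕ → ℝ) (hx : ∀ U, 0 ≤ x U) :
    ∑ A ∈ F, (∏ q ∈ A, (2 / (q : ℝ))) * ∑ U ∈ A.powerset, x U ≤
      (∏ q ∈ P, (1 + 2 / (q : ℝ))) * ∑ U ∈ F, (∏ q ∈ U, (2 / (q : ℝ))) * x U := by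
  classical
  have h1 : ∀ A ∈ F, (∏ q ∈ A, (2 / (q : ℝ))) * ∑ U ∈ A.powerset, x U =
      ∑ U ∈ F, if U ⊆ A then (∏ q ∈ U, (2 / (q : ℝ))) * x U * ∏ q ∈ A \ U, (2 / (q : ℝ)) else 0 := by
    intro A hA
    rw [← sum_filter]
    have h2 : F.filter (fun U => U ⊆ A) = A.powerset := by
      ext U
      rw [mem_filter, mem_powerset]
      exact ⟨fun h => h.2, fun h => ⟨hdown A hA U h, h⟩⟩
    rw [h2, mul_sum]
    apply sum_congr rfl
    intro U hU
    rw [mem_powerset] at hU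
    rw [← prod_sdiff hU]
    ring
  rw [sum_congr rfl h1, sum_comm, mul_sum]
  apply sum_le_sum
  intro U hU
  rw [← sum_filter, ← mul_sum, mul_comm]
  apply mul_le_mul_of_nonneg_right
  · rw [prod_one_add]
    have hinj : Set.InjOn (fun A : Finset ℕ => A \ U) (F.filter (fun A => U ⊆ A)) := by
      intro A hA A' hA' h
      rw [mem_coe, mem_filter] at hA hA'
      simp only at h
      rw [← sdiff_union_of_subset hA.2, ← sdiff_union_of_subset hA'.2, h]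
    rw [← sum_image (f := fun B : Finset ℕ => ∏ q ∈ B, (2 / (q : ℝ))) hinj]
    apply sum_le_sum_of_subset_of_nonneg
    · intro B hB
      rw [mem_image] at hB
      obtain ⟨A, hA, rfl⟩ := hB
      rw [mem_filter] at hA
      rw [mem_powerset]
      exact sdiff_subset.trans (mem_powerset.1 (hF hA.1))
    · intro B _ _
      positivity
  · have := hx U
    positivity

theorem cop_of_disj {G A : Finset ℕ} (hG : ∀ p ∈ G, p.Prime) (hA : ∀ p ∈ A, p.Prime)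
    (h : Disjoint A G) : ∀ p ∈ A, Nat.Coprime (∏ q ∈ G, q) p := by
  intro p hp
  apply Nat.Coprime.prod_left
  intro q hq
  rw [Nat.coprime_primes (hG q hq) (hA p hp)]
  rintro rfl
  exact (disjoint_left.1 h) hp hq

theorem inv_prod (S : Finset ℕ) : ∏ q ∈ S, (1 / (q : ℝ)) = 1 / ((∏ q ∈ S, q : ℕ) : ℝ) := by
  rw [prod_div_distrib, prod_const_one]
  push_cast
  rfl

theorem inn_small (σ : ℤ) (hσ : σ * σ = 1) (P G : Finset ℕ) (hP : ∀ p ∈ P, p.Prime)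
    (hG : ∀ p ∈ G, p.Prime) (h D : ℕ) (hh : 1 ≤ h) (L : ℝ)
    (hL1 : 2 + Real.log D ≤ L) (hL2 : 1 + Real.log (4 * ((h : ℝ) ^ 8) ^ 2) ≤ L) :
    inn σ (h ^ 8) P D G ≤ (∏ q ∈ P, (1 + 2 / (q : ℝ))) *
      (1 + (h : ℝ) ^ 14 / 2 * (∏ q ∈ P, (1 + 4 / (q : ℝ)) + 81 * L ^ 2)) := by
  classical
  set g : ℕ := ∏ q ∈ G, q with hgdef
  have hg : 0 < g := prod_pos fun q hq => (hG q hq).pos
  have hgr : (0 : ℝ) < g := by exact_mod_cast hg
  set F : Finset (Finset ℕ) := P.powerset.filter (fun A => Disjoint A G ∧ ∏ q ∈ A, q ≤ D) with hF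
  have hFp : ∀ U ∈ F, U ⊆ P ∧ (∀ p ∈ U, p.Prime) ∧ Disjoint U G ∧ ∏ q ∈ U, q ≤ D := by
    intro U hU
    rw [hF, mem_filter, mem_powerset] at hU
    exact ⟨hU.1, fun p hp => hP p (hU.1 hp), hU.2.1, hU.2.2⟩
  have hdown : ∀ A ∈ F, ∀ U ⊆ A, U ∈ F := by
    intro A hA U hU
    obtain ⟨h1, h2, h3, h4⟩ := hFp A hA
    rw [hF, mem_filter, mem_powerset]
    refine ⟨hU.trans h1, disjoint_of_subset_left hU h3, ?_⟩
    refine le_trans ?_ h4
    apply Nat.le_of_dvd (prod_pos fun q hq => (h2 q hq).pos)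
    exact prod_dvd_prod_of_subset _ _ _ hU
  set M : ℝ := 1 + (h : ℝ) ^ 14 / 2 * (∏ q ∈ P, (1 + 4 / (q : ℝ)) + 81 * L ^ 2) with hM
  have h1 : ∀ A ∈ F, (∏ q ∈ G, (1 / (q : ℝ))) * ((∏ q ∈ A, (1 / (q : ℝ))) * FF σ (h ^ 8) G A) ≤
      (1 / (g : ℝ)) * ∑ u ∈ range g, (∏ q ∈ A, (2 / (q : ℝ))) *
        ∑ U ∈ A.powerset, ff σ (h ^ 8) g u U ^ 2 := by
    intro A hA
    obtain ⟨a1, a2, a3, a4⟩ := hFp A hA
    rw [inv_prod G, ← hgdef]
    apply mul_le_mul_of_nonneg_left _ (by positivity)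
    unfold FF
    rw [← hgdef, mul_sum]
    apply sum_le_sum
    intro u _
    have h2 := AA_sq σ (h ^ 8) g u hg A a2 (cop_of_disj hG a2 a3)
    have h3 : ∏ q ∈ A, (2 / (q : ℝ)) = (∏ q ∈ A, (1 / (q : ℝ))) * 2 ^ A.card := by
      rw [prod_div_distrib, prod_div_distrib, prod_const, prod_const_one]
      ring
    rw [h3, mul_assoc]
    exact mul_le_mul_of_nonneg_left h2 (by positivity)
  unfold inn
  rw [← hF]
  refine (sum_le_sum h1).trans ?_
  rw [← mul_sum, sum_comm]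
  have h2 : ∀ u ∈ range g, ∑ A ∈ F, (∏ q ∈ A, (2 / (q : ℝ))) *
      ∑ U ∈ A.powerset, ff σ (h ^ 8) g u U ^ 2 ≤ (∏ q ∈ P, (1 + 2 / (q : ℝ))) * M := by
    intro u _
    refine (sub_sum P F (filter_subset _ _) hdown (fun U => ff σ (h ^ 8) g u U ^ 2)
      (fun U => sq_nonneg _)).trans ?_
    apply mul_le_mul_of_nonneg_left _ (by positivity)
    exact Z_le σ hσ P G hP hG h u D hh L hL1 hL2
  calc (1 / (g : ℝ)) * ∑ u ∈ range g, ∑ A ∈ F, (∏ q ∈ A, (2 / (q : ℝ))) *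
      ∑ U ∈ A.powerset, ff σ (h ^ 8) g u U ^ 2 ≤
      (1 / (g : ℝ)) * ∑ u ∈ range g, (∏ q ∈ P, (1 + 2 / (q : ℝ))) * M := by
        apply mul_le_mul_of_nonneg_left (sum_le_sum h2) (by positivity)
    _ = _ := by
        rw [sum_const, card_range, nsmul_eq_mul]
        field_simp

theorem inn_large (σ : ℤ) (hσ : σ * σ = 1) (P G : Finset ℕ) (hP : ∀ p ∈ P, p.Prime)
    (hG : ∀ p ∈ G, p.Prime) (H D : ℕ) (x : ℝ) (hx : 0 < x) (hgx : x ≤ ((∏ q ∈ G, q : ℕ) : ℝ)) :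
    inn σ H P D G ≤ (∏ q ∈ G, (2 / (q : ℝ))) *
      ((∏ q ∈ P, (1 + 4 / (q : ℝ))) * (2 * H * (2 * ((H : ℝ) / x) + 1))) := by
  classical
  set g : ℕ := ∏ q ∈ G, q with hgdef
  have hg : 0 < g := prod_pos fun q hq => (hG q hq).pos
  have hgr : (0 : ℝ) < g := by exact_mod_cast hg
  set F : Finset (Finset ℕ) := P.powerset.filter (fun A => Disjoint A G ∧ ∏ q ∈ A, q ≤ D) with hF
  have hFp : ∀ U ∈ F, U ⊆ P ∧ (∀ p ∈ U, p.Prime) ∧ Disjoint U G ∧ ∏ q ∈ U, q ≤ D := by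
    intro U hU
    rw [hF, mem_filter, mem_powerset] at hU
    exact ⟨hU.1, fun p hp => hP p (hU.1 hp), hU.2.1, hU.2.2⟩
  unfold inn
  rw [← hF]
  have h1 : ∀ A ∈ F, (∏ q ∈ G, (1 / (q : ℝ))) * ((∏ q ∈ A, (1 / (q : ℝ))) * FF σ H G A) ≤
      (∏ q ∈ G, (2 / (q : ℝ))) * ((∏ q ∈ A, (4 / (q : ℝ))) * (2 * H * (2 * ((H : ℝ) / x) + 1))) := by
    intro A hA
    obtain ⟨a1, a2, a3, a4⟩ := hFp A hA
    have h2 := FF_large σ hσ H G A hG a2 (cop_of_disj hG a2 a3)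
    rw [← hgdef] at h2
    have h3 : ∏ q ∈ A, (4 / (q : ℝ)) = (∏ q ∈ A, (1 / (q : ℝ))) * 4 ^ A.card := by
      rw [prod_div_distrib, prod_div_distrib, prod_const, prod_const_one]
      ring
    have h4 : ∏ q ∈ G, (2 / (q : ℝ)) = (∏ q ∈ G, (1 / (q : ℝ))) * 2 ^ G.card := by
      rw [prod_div_distrib, prod_div_distrib, prod_const, prod_const_one]
      ring
    rw [h3, h4]
    have h5 : (H : ℝ) / g ≤ (H : ℝ) / x := div_le_div_of_nonneg_left (Nat.cast_nonneg H) hx hgx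
    calc (∏ q ∈ G, (1 / (q : ℝ))) * ((∏ q ∈ A, (1 / (q : ℝ))) * FF σ H G A) ≤
        (∏ q ∈ G, (1 / (q : ℝ))) * ((∏ q ∈ A, (1 / (q : ℝ))) *
          (4 ^ A.card * (2 ^ G.card * (2 * H * (2 * ((H : ℝ) / x) + 1))))) := by
          apply mul_le_mul_of_nonneg_left _ (by positivity)
          apply mul_le_mul_of_nonneg_left _ (by positivity)
          unfold FF
          rw [← hgdef]
          refine h2.trans ?_
          apply mul_le_mul_of_nonneg_left _ (by positivity)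
          apply mul_le_mul_of_nonneg_left _ (by positivity)
          apply mul_le_mul_of_nonneg_left _ (by positivity)
          linarith
      _ = _ := by ring
  refine (sum_le_sum h1).trans ?_
  rw [← mul_sum]
  apply mul_le_mul_of_nonneg_left _ (by positivity)
  rw [← sum_mul]
  apply mul_le_mul_of_nonneg_right _ (by positivity)
  rw [prod_one_add]
  apply sum_le_sum_of_subset_of_nonneg (filter_subset _ _)
  intro U _ _
  positivity

/-- all greatest common divisors -/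
theorem sum_inn (σ : ℤ) (hσ : σ * σ = 1) (P : Finset ℕ) (hP : ∀ p ∈ P, p.Prime)
    (h D : ℕ) (hh : 1 ≤ h) (L : ℝ)
    (hL1 : 2 + Real.log D ≤ L) (hL2 : 1 + Real.log (4 * ((h : ℝ) ^ 8) ^ 2) ≤ L) :
    ∑ G ∈ P.powerset, inn σ (h ^ 8) P D G ≤ (h : ℝ) ^ 15 * ((∏ q ∈ P, (1 + 2 / (q : ℝ))) *
      (1 + 7 * ∏ q ∈ P, (1 + 4 / (q : ℝ)) + 41 * L ^ 2)) := by
  classical
  have hhr : (1 : ℝ) ≤ h := by exact_mod_cast hh
  have hh0 : (0 : ℝ) < h := by linarith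
  set P2 : ℝ := ∏ q ∈ P, (1 + 2 / (q : ℝ)) with hP2
  set P4 : ℝ := ∏ q ∈ P, (1 + 4 / (q : ℝ)) with hP4
  have hP20 : 0 ≤ P2 := by positivity
  have hP40 : 0 ≤ P4 := by positivity
  have h1 : ∀ G ∈ P.powerset, inn σ (h ^ 8) P D G ≤
      (if ((∏ q ∈ G, q : ℕ) : ℝ) ≤ h then P2 * (1 + (h : ℝ) ^ 14 / 2 * (P4 + 81 * L ^ 2)) else 0) +
        (∏ q ∈ G, (2 / (q : ℝ))) * (P4 * (6 * (h : ℝ) ^ 15)) := by
    intro G hG
    rw [mem_powerset] at hG
    have hGp : ∀ p ∈ G, p.Prime := fun p hp => hP p (hG hp)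
    split_ifs with hgh
    · have h2 := inn_small σ hσ P G hP hGp h D hh L hL1 hL2
      have h3 : 0 ≤ (∏ q ∈ G, (2 / (q : ℝ))) * (P4 * (6 * (h : ℝ) ^ 15)) := by positivity
      rw [← hP2, ← hP4] at h2
      linarith
    · push Not at hgh
      have h2 := inn_large σ hσ P G hP hGp (h ^ 8) D h hh0 hgh.le
      rw [zero_add]
      refine h2.trans ?_
      apply mul_le_mul_of_nonneg_left _ (by positivity)
      rw [← hP4]
      apply mul_le_mul_of_nonneg_left _ hP40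
      push_cast
      have e1 : (h : ℝ) ^ 8 / h = (h : ℝ) ^ 7 := by field_simp
      rw [e1]
      have e2 : 2 * (h : ℝ) ^ 8 * (2 * (h : ℝ) ^ 7 + 1) = 4 * (h : ℝ) ^ 15 + 2 * (h : ℝ) ^ 8 := by ring
      rw [e2]
      have e3 : (h : ℝ) ^ 8 ≤ (h : ℝ) ^ 15 := pow_le_pow_right₀ hhr (by norm_num)
      linarith
  refine (sum_le_sum h1).trans ?_
  rw [sum_add_distrib, ← sum_filter, sum_const, nsmul_eq_mul, ← sum_mul]
  have h2 : ∑ G ∈ P.powerset, ∏ q ∈ G, (2 / (q : ℝ)) = P2 := by rw [hP2, prod_one_add]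
  rw [h2]
  have h3 : ((P.powerset.filter (fun G => ((∏ q ∈ G, q : ℕ) : ℝ) ≤ h)).card : ℝ) ≤ h :=
    count_sets P hP h hh0.le
  have h4 : (0 : ℝ) ≤ P2 * (1 + (h : ℝ) ^ 14 / 2 * (P4 + 81 * L ^ 2)) := by positivity
  calc _ ≤ (h : ℝ) * (P2 * (1 + (h : ℝ) ^ 14 / 2 * (P4 + 81 * L ^ 2))) +
        P2 * (P4 * (6 * (h : ℝ) ^ 15)) := by
        have := mul_le_mul_of_nonneg_right h3 h4
        linarith
    _ = P2 * (h + (h : ℝ) ^ 15 / 2 * (P4 + 81 * L ^ 2) + P4 * (6 * (h : ℝ) ^ 15)) := by ring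
    _ ≤ P2 * ((h : ℝ) ^ 15 * (1 + 7 * P4 + 41 * L ^ 2)) := by
        apply mul_le_mul_of_nonneg_left _ hP20
        have e3 : (h : ℝ) ≤ (h : ℝ) ^ 15 := by
          calc (h : ℝ) = (h : ℝ) ^ 1 := (pow_one _).symm
            _ ≤ _ := pow_le_pow_right₀ hhr (by norm_num)
        have e4 : (0 : ℝ) ≤ (h : ℝ) ^ 15 * P4 := by positivity
        have e5 : (0 : ℝ) ≤ (h : ℝ) ^ 15 * L ^ 2 := by positivity
        nlinarith
    _ = _ := by ring

/-- the sum over the pairs of sets -/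
theorem sum_X (σ : ℤ) (H : ℕ) (P : Finset ℕ) (hP : ∀ p ∈ P, p.Prime) (D : ℕ) :
    ∑ T ∈ P.powerset.filter (fun T => ∏ q ∈ T, q ≤ D), ∑ T' ∈ P.powerset,
      ((∏ q ∈ T ∩ T', (1 / (q : ℝ))) * ((∏ q ∈ T \ T', (1 / (q : ℝ))) *
        ∏ q ∈ T' \ T, (1 / (q : ℝ)))) * FF σ H (T ∩ T') (T \ T') ≤
      (∑ G ∈ P.powerset, inn σ H P D G) * ∏ q ∈ P, (1 + 1 / (q : ℝ)) := by
  classical
  set F0 : Finset (Finset ℕ) := P.powerset.filter (fun T => ∏ q ∈ T, q ≤ D) with hF0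
  set Y : (Finset ℕ × Finset ℕ × Finset ℕ) → ℝ := fun z =>
    (if Disjoint z.2.1 z.1 ∧ ∏ q ∈ z.2.1, q ≤ D then
      (∏ q ∈ z.1, (1 / (q : ℝ))) * ((∏ q ∈ z.2.1, (1 / (q : ℝ))) * FF σ H z.1 z.2.1) else 0) *
      ∏ q ∈ z.2.2, (1 / (q : ℝ)) with hY
  have hY0 : ∀ z, 0 ≤ Y z := by
    intro z
    rw [hY]
    simp only
    have := FF_nonneg σ H z.1 z.2.1
    split_ifs <;> positivity
  have e2 : (∑ G ∈ P.powerset, inn σ H P D G) * ∏ q ∈ P, (1 + 1 / (q : ℝ)) =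
      ∑ z ∈ P.powerset ×ˢ P.powerset ×ˢ P.powerset, Y z := by
    rw [sum_product, sum_mul]
    apply sum_congr rfl
    intro G _
    rw [sum_product]
    unfold inn
    rw [sum_filter, sum_mul]
    apply sum_congr rfl
    intro A _
    rw [prod_one_add, mul_sum]
  rw [e2, ← sum_product']
  set i : (Finset ℕ × Finset ℕ) → (Finset ℕ × Finset ℕ × Finset ℕ) :=
    fun z => (z.1 ∩ z.2, z.1 \ z.2, z.2 \ z.1) with hi
  have hinj : Set.InjOn i (F0 ×ˢ P.powerset : Finset (Finset ℕ × Finset ℕ)) := by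
    rintro ⟨A, B⟩ _ ⟨C, D⟩ _ hAB
    rw [hi] at hAB
    simp only [Prod.mk.injEq] at hAB
    obtain ⟨h1, h2, h3⟩ := hAB
    have hA : A = C := by
      rw [← sdiff_union_inter A B, ← sdiff_union_inter C D, h1, h2]
    have hB : B = D := by
      rw [← sdiff_union_inter B A, ← sdiff_union_inter D C, h3, inter_comm B A, inter_comm D C, h1]
    rw [hA, hB]
  have h1 : ∀ z ∈ F0 ×ˢ P.powerset, ((∏ q ∈ z.1 ∩ z.2, (1 / (q : ℝ))) *
      ((∏ q ∈ z.1 \ z.2, (1 / (q : ℝ))) * ∏ q ∈ z.2 \ z.1, (1 / (q : ℝ)))) *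
        FF σ H (z.1 ∩ z.2) (z.1 \ z.2) = Y (i z) := by
    intro z hz
    rw [mem_product, hF0, mem_filter, mem_powerset] at hz
    rw [hY, hi]
    simp only
    rw [if_pos]
    · ring
    · constructor
      · rw [disjoint_left]
        intro p hp hp'
        exact (mem_sdiff.1 hp).2 (mem_inter.1 hp').2
      · refine le_trans ?_ hz.1.2
        apply Nat.le_of_dvd (prod_pos fun q hq => (hP q (hz.1.1 hq)).pos)
        exact prod_dvd_prod_of_subset _ _ _ sdiff_subset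
  rw [sum_congr rfl h1, ← sum_image (f := Y) hinj]
  apply sum_le_sum_of_subset_of_nonneg
  · intro z hz
    rw [mem_image] at hz
    obtain ⟨⟨A, B⟩, hAB, rfl⟩ := hz
    rw [mem_product, hF0, mem_filter, mem_powerset, mem_powerset] at hAB
    rw [hi, mem_product, mem_product, mem_powerset, mem_powerset, mem_powerset]
    exact ⟨inter_subset_left.trans hAB.1.1, sdiff_subset.trans hAB.1.1, sdiff_subset.trans hAB.2⟩
  · intro z _ _
    exact hY0 z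

/-- **The second moment of the remainder.** -/
theorem moment (σ : ℤ) (hσ : σ * σ = 1) (P : Finset ℕ) (hP : ∀ p ∈ P, p.Prime)
    (c : Finset ℕ → ℝ) (C : ℝ) (hC : 0 ≤ C) (D : ℕ) (hcC : ∀ T, |c T| ≤ C)
    (hcD : ∀ T ⊆ P, c T ≠ 0 → ∏ p ∈ T, p ≤ D) (h N : ℕ) (hh : 1 ≤ h) (L : ℝ)
    (hL1 : 2 + Real.log D ≤ L) (hL2 : 1 + Real.log (4 * ((h : ℝ) ^ 8) ^ 2) ≤ L) :
    ∑ n ∈ range N, (∑ T ∈ P.powerset, c T * E σ (h ^ 8) (∏ q ∈ T, q) n) ^ 2 ≤
      C ^ 2 * (N * (((h : ℝ) ^ 15 * ((∏ q ∈ P, (1 + 2 / (q : ℝ))) *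
      (1 + 7 * ∏ q ∈ P, (1 + 4 / (q : ℝ)) + 41 * L ^ 2))) * ∏ q ∈ P, (1 + 1 / (q : ℝ)))) +
      4 * ((h : ℝ) ^ 8) ^ 2 * (C * (D * ∏ q ∈ P, (1 + 2 / (q : ℝ)))) ^ 2 := by
  classical
  have hN0 : (0 : ℝ) ≤ N := Nat.cast_nonneg N
  set H : ℕ := h ^ 8 with hH
  have hprime : ∀ T ∈ P.powerset, ∀ p ∈ T, p.Prime := by
    intro T hT p hp
    rw [mem_powerset] at hT
    exact hP p (hT hp)
  have h1 : ∑ n ∈ range N, (∑ T ∈ P.powerset, c T * E σ H (∏ q ∈ T, q) n) ^ 2 =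
      ∑ T ∈ P.powerset, ∑ T' ∈ P.powerset, c T * c T' *
        ∑ n ∈ range N, E σ H (∏ q ∈ T, q) n * E σ H (∏ q ∈ T', q) n := by
    have h2 : ∀ n ∈ range N, (∑ T ∈ P.powerset, c T * E σ H (∏ q ∈ T, q) n) ^ 2 =
        ∑ T ∈ P.powerset, ∑ T' ∈ P.powerset, c T * c T' *
          (E σ H (∏ q ∈ T, q) n * E σ H (∏ q ∈ T', q) n) := by
      intro n _
      rw [sq, sum_mul_sum]
      apply sum_congr rfl
      intro T _
      apply sum_congr rfl
      intro T' _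
      ring
    rw [sum_congr rfl h2, sum_comm]
    apply sum_congr rfl
    intro T _
    rw [sum_comm]
    apply sum_congr rfl
    intro T' _
    rw [mul_sum]
  rw [h1]
  set X : Finset ℕ → Finset ℕ → ℝ := fun T T' =>
    ((∏ q ∈ T ∩ T', (1 / (q : ℝ))) * ((∏ q ∈ T \ T', (1 / (q : ℝ))) *
        ∏ q ∈ T' \ T, (1 / (q : ℝ)))) * FF σ H (T ∩ T') (T \ T') with hX
  have hX0 : ∀ T T', 0 ≤ X T T' := by
    intro T T'
    rw [hX]
    have := FF_nonneg σ H (T ∩ T') (T \ T')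
    positivity
  have h3 : ∀ T ∈ P.powerset, ∀ T' ∈ P.powerset, c T * c T' *
      ∑ n ∈ range N, E σ H (∏ q ∈ T, q) n * E σ H (∏ q ∈ T', q) n ≤
      N * ((|c T| * |c T'| * X T T' + |c T'| * |c T| * X T' T) / 2) +
        4 * (H : ℝ) ^ 2 * ((|c T| * 2 ^ T.card) * (|c T'| * 2 ^ T'.card)) := by
    intro T hT T' hT'
    have h4 := pair_le σ H N T T' (hprime T hT) (hprime T' hT')
    have h5 : ((∏ q ∈ T ∩ T', (1 / (q : ℝ))) * ((∏ q ∈ T \ T', (1 / (q : ℝ))) *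
        ∏ q ∈ T' \ T, (1 / (q : ℝ)))) * ((FF σ H (T ∩ T') (T \ T') + FF σ H (T ∩ T') (T' \ T)) / 2) =
        (X T T' + X T' T) / 2 := by
      rw [hX]
      simp only
      rw [inter_comm T' T]
      ring
    rw [h5] at h4
    calc c T * c T' * ∑ n ∈ range N, E σ H (∏ q ∈ T, q) n * E σ H (∏ q ∈ T', q) n ≤
        |c T * c T' * ∑ n ∈ range N, E σ H (∏ q ∈ T, q) n * E σ H (∏ q ∈ T', q) n| := le_abs_self _
      _ = |c T| * |c T'| * |∑ n ∈ range N, E σ H (∏ q ∈ T, q) n * E σ H (∏ q ∈ T', q) n| := by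
          rw [abs_mul, abs_mul]
      _ ≤ |c T| * |c T'| * (N * ((X T T' + X T' T) / 2) +
          4 * (H : ℝ) ^ 2 * (2 ^ T.card * 2 ^ T'.card)) :=
          mul_le_mul_of_nonneg_left h4 (by positivity)
      _ = _ := by ring
  refine (sum_le_sum fun T hT => sum_le_sum fun T' hT' => h3 T hT T' hT').trans ?_
  have h6 : ∑ T ∈ P.powerset, ∑ T' ∈ P.powerset,
      (N * ((|c T| * |c T'| * X T T' + |c T'| * |c T| * X T' T) / 2) +
        4 * (H : ℝ) ^ 2 * ((|c T| * 2 ^ T.card) * (|c T'| * 2 ^ T'.card))) =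
      N * (∑ T ∈ P.powerset, ∑ T' ∈ P.powerset, |c T| * |c T'| * X T T') +
        4 * (H : ℝ) ^ 2 * (∑ T ∈ P.powerset, |c T| * 2 ^ T.card) ^ 2 := by
    have e1 : ∑ T ∈ P.powerset, ∑ T' ∈ P.powerset, |c T'| * |c T| * X T' T =
        ∑ T ∈ P.powerset, ∑ T' ∈ P.powerset, |c T| * |c T'| * X T T' := sum_comm
    simp_rw [sum_add_distrib, ← mul_sum, ← sum_div, sum_add_distrib]
    rw [e1, ← sum_mul]
    ring
  rw [h6]
  apply add_le_add
  · have h7 : ∑ T ∈ P.powerset, ∑ T' ∈ P.powerset, |c T| * |c T'| * X T T' ≤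
        C ^ 2 * ∑ T ∈ P.powerset.filter (fun T => ∏ q ∈ T, q ≤ D), ∑ T' ∈ P.powerset, X T T' := by
      rw [mul_sum, sum_filter]
      apply sum_le_sum
      intro T hT
      split_ifs with hTD
      · rw [mul_sum]
        apply sum_le_sum
        intro T' _
        apply mul_le_mul_of_nonneg_right _ (hX0 T T')
        rw [sq]
        exact mul_le_mul (hcC T) (hcC T') (abs_nonneg _) hC
      · have h8 : c T = 0 := by
          by_contra h9
          exact hTD (hcD T (mem_powerset.1 hT) h9)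
        rw [h8]
        simp
    have h8 := sum_X σ H P hP D
    have h9 := sum_inn σ hσ P hP h D hh L hL1 hL2
    calc (N : ℝ) * (∑ T ∈ P.powerset, ∑ T' ∈ P.powerset, |c T| * |c T'| * X T T') ≤
        N * (C ^ 2 * (((h : ℝ) ^ 15 * ((∏ q ∈ P, (1 + 2 / (q : ℝ))) *
      (1 + 7 * ∏ q ∈ P, (1 + 4 / (q : ℝ)) + 41 * L ^ 2))) * ∏ q ∈ P, (1 + 1 / (q : ℝ)))) := by
          apply mul_le_mul_of_nonneg_left _ hN0
          refine h7.trans ?_
          apply mul_le_mul_of_nonneg_left _ (by positivity)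
          refine h8.trans ?_
          exact mul_le_mul_of_nonneg_right h9 (by positivity)
      _ = _ := by ring
  · have e8 : ((H : ℕ) : ℝ) = (h : ℝ) ^ 8 := by rw [hH]; push_cast; rfl
    rw [e8]
    apply mul_le_mul_of_nonneg_left _ (by positivity)
    apply pow_le_pow_left₀ (sum_nonneg fun T _ => by positivity)
    calc ∑ T ∈ P.powerset, |c T| * 2 ^ T.card ≤
        ∑ T ∈ P.powerset, C * (D * ∏ q ∈ T, (2 / (q : ℝ))) := by
          apply sum_le_sum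
          intro T hT
          by_cases h8 : c T = 0
          · rw [h8, abs_zero, zero_mul]
            positivity
          · have h9 := hcD T (mem_powerset.1 hT) h8
            have h10 : (0 : ℝ) < ((∏ q ∈ T, q : ℕ) : ℝ) := by
              exact_mod_cast prod_pos fun q hq => (hprime T hT q hq).pos
            have h11 : ((∏ q ∈ T, q : ℕ) : ℝ) ≤ D := by exact_mod_cast h9
            have e1 : ∏ q ∈ T, (2 / (q : ℝ)) = 2 ^ T.card / ((∏ q ∈ T, q : ℕ) : ℝ) := by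
              rw [prod_div_distrib, prod_const]
              push_cast
              rfl
            rw [e1]
            apply mul_le_mul (hcC T) _ (by positivity) hC
            rw [mul_div_assoc', le_div_iff₀ h10, mul_comm]
            exact mul_le_mul_of_nonneg_right h11 (by positivity)
      _ = C * (D * ∏ q ∈ P, (1 + 2 / (q : ℝ))) := by
          rw [← mul_sum, ← mul_sum, prod_one_add]

end Pool.Agent.K3h31.SQ
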