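import Pool.Agent.K3h31.SQ.Bd

/-! The covariance of the remainders for two moduli: the final bound. -/

set_option autoImplicit false

open Finset

namespace Pool.Agent.K3h31.SQ

open Pool.Agent.K3h31.LP (class_count sum_range_mul' sum_crt sum_periodic)

/-- the incomplete period -/
theorem rem_le (σ : ℤ) (H : ℕ) (T T' A B : Finset ℕ) (g : ℕ) (hg : 0 < g)
    (hT : ∀ p ∈ T, p.Prime) (hT' : ∀ p ∈ T', p.Prime) (hA : ∀ p ∈ A, p.Prime) (hB : ∀ p ∈ B, p.Prime)
    (e1 : ∏ q ∈ T, q = g * ∏ q ∈ A, q) (e2 : ∏ q ∈ T', q = g * ∏ q ∈ B, q)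
    (hc1 : Nat.Coprime (∏ q ∈ T, q) (∏ q ∈ B, q)) (hBT : B.card ≤ T'.card) :
    ∑ n ∈ range (g * ((∏ q ∈ A, q) * ∏ q ∈ B, q)), |E σ H (∏ q ∈ T, q) n * E σ H (∏ q ∈ T', q) n| ≤
      4 * (H : ℝ) ^ 2 * (2 ^ T.card * 2 ^ T'.card) := by
  set a : ℕ := ∏ q ∈ A, q with ha
  set b : ℕ := ∏ q ∈ B, q with hb
  set d : ℕ := ∏ q ∈ T, q with hd
  set d' : ℕ := ∏ q ∈ T', q with hd'
  have ha0 : 0 < a := prod_pos fun q hq => (hA q hq).pos
  have hb0 : 0 < b := prod_pos fun q hq => (hB q hq).pos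
  have hgr : (1 : ℝ) ≤ g := by exact_mod_cast hg
  have hgr0 : (g : ℝ) ≠ 0 := by positivity
  have har : (0 : ℝ) < a := by exact_mod_cast ha0
  have hbr : (0 : ℝ) < b := by exact_mod_cast hb0
  have hH0 : (0 : ℝ) ≤ H := Nat.cast_nonneg H
  have eL : g * (a * b) = d * b := by rw [e1]; ring
  have eL' : g * (a * b) = d' * a := by rw [e2]; ring
  have w1 : (1 : ℝ) ≤ 2 ^ T.card := one_le_pow₀ (by norm_num)
  have w2 : (1 : ℝ) ≤ 2 ^ T'.card := one_le_pow₀ (by norm_num)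
  have w3 : (2 : ℝ) ^ B.card ≤ 2 ^ T'.card := pow_le_pow_right₀ (by norm_num) hBT
  have hH2 : (H : ℝ) ^ 2 / g ≤ (H : ℝ) ^ 2 := div_le_self (by positivity) hgr
  have hw : (1 : ℝ) ≤ 2 ^ T.card * 2 ^ T'.card := one_le_mul_of_one_le_of_one_le w1 w2
  have h1 : ∑ n ∈ range (g * (a * b)), ((KK σ H d n).card : ℝ) * ((KK σ H d' n).card : ℝ) ≤
      H ^ 2 * (2 ^ T.card * 2 ^ T'.card) := by
    rw [eL]
    refine (sum_KK_KK σ H d' T B hT hB hc1 (by rw [e2]; exact dvd_mul_left _ _)).trans ?_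
    apply mul_le_mul_of_nonneg_left _ (by positivity)
    exact mul_le_mul_of_nonneg_left w3 (by positivity)
  have h2 : ∑ n ∈ range (g * (a * b)), ((KK σ H d n).card : ℝ) * ((H : ℝ) / d') ≤
      H ^ 2 * (2 ^ T.card * 2 ^ T'.card) := by
    rw [← sum_mul, eL]
    have := sum_period_KK σ H b T hT
    calc (∑ n ∈ range (d * b), ((KK σ H d n).card : ℝ)) * ((H : ℝ) / d') ≤
        (b * (H * 2 ^ T.card)) * ((H : ℝ) / d') := mul_le_mul_of_nonneg_right this (by positivity)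
      _ = (H : ℝ) ^ 2 / g * 2 ^ T.card := by
          rw [e2]
          push_cast
          field_simp
      _ ≤ (H : ℝ) ^ 2 * (2 ^ T.card * 2 ^ T'.card) := by
          apply mul_le_mul hH2 _ (by positivity) (by positivity)
          exact le_mul_of_one_le_right (by positivity) w2
  have h3 : ∑ n ∈ range (g * (a * b)), ((KK σ H d' n).card : ℝ) * ((H : ℝ) / d) ≤
      H ^ 2 * (2 ^ T.card * 2 ^ T'.card) := by
    rw [← sum_mul, eL']
    have := sum_period_KK σ H a T' hT'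
    calc (∑ n ∈ range (d' * a), ((KK σ H d' n).card : ℝ)) * ((H : ℝ) / d) ≤
        (a * (H * 2 ^ T'.card)) * ((H : ℝ) / d) := mul_le_mul_of_nonneg_right this (by positivity)
      _ = (H : ℝ) ^ 2 / g * 2 ^ T'.card := by
          rw [e1]
          push_cast
          field_simp
      _ ≤ (H : ℝ) ^ 2 * (2 ^ T.card * 2 ^ T'.card) := by
          apply mul_le_mul hH2 _ (by positivity) (by positivity)
          exact le_mul_of_one_le_left (by positivity) w1
  have h4 : ∑ n ∈ range (g * (a * b)), ((H : ℝ) / d) * ((H : ℝ) / d') ≤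
      H ^ 2 * (2 ^ T.card * 2 ^ T'.card) := by
    rw [sum_const, card_range, nsmul_eq_mul]
    calc ((g * (a * b) : ℕ) : ℝ) * (((H : ℝ) / d) * ((H : ℝ) / d')) = (H : ℝ) ^ 2 / g := by
          rw [e1, e2]
          push_cast
          field_simp
      _ ≤ (H : ℝ) ^ 2 := hH2
      _ ≤ _ := le_mul_of_one_le_right (by positivity) hw
  calc ∑ n ∈ range (g * (a * b)), |E σ H d n * E σ H d' n| ≤
      ∑ n ∈ range (g * (a * b)), ((((KK σ H d n).card : ℝ) * ((KK σ H d' n).card : ℝ) +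
        ((KK σ H d n).card : ℝ) * ((H : ℝ) / d')) +
        (((KK σ H d' n).card : ℝ) * ((H : ℝ) / d) +
        ((H : ℝ) / d) * ((H : ℝ) / d'))) := by
        apply sum_le_sum
        intro n _
        rw [abs_mul]
        calc |E σ H d n| * |E σ H d' n| ≤ ((KK σ H d n).card + (H : ℝ) / d) *
            ((KK σ H d' n).card + (H : ℝ) / d') :=
              mul_le_mul (E_abs _ _ _ _) (E_abs _ _ _ _) (abs_nonneg _) (by positivity)
          _ = _ := by ring
    _ ≤ (H ^ 2 * (2 ^ T.card * 2 ^ T'.card) + H ^ 2 * (2 ^ T.card * 2 ^ T'.card)) +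
        (H ^ 2 * (2 ^ T.card * 2 ^ T'.card) + H ^ 2 * (2 ^ T.card * 2 ^ T'.card)) := by
        rw [sum_add_distrib, sum_add_distrib, sum_add_distrib]
        exact add_le_add (add_le_add h1 h2) (add_le_add h3 h4)
    _ = _ := by ring

/-- the second moment over the residue classes -/
noncomputable def FF (σ : ℤ) (H : ℕ) (G A : Finset ℕ) : ℝ :=
  ∑ u ∈ range (∏ q ∈ G, q), AA σ H (∏ q ∈ G, q) (∏ q ∈ A, q) u ^ 2

theorem FF_nonneg (σ : ℤ) (H : ℕ) (G A : Finset ℕ) : 0 ≤ FF σ H G A :=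
  sum_nonneg fun _ _ => sq_nonneg _

/-- **The covariance for two moduli.** -/
theorem pair_le (σ : ℤ) (H N : ℕ) (T T' : Finset ℕ) (hT : ∀ p ∈ T, p.Prime)
    (hT' : ∀ p ∈ T', p.Prime) :
    |∑ n ∈ range N, E σ H (∏ q ∈ T, q) n * E σ H (∏ q ∈ T', q) n| ≤
      N * (((∏ q ∈ T ∩ T', (1 / (q : ℝ))) * ((∏ q ∈ T \ T', (1 / (q : ℝ))) *
        ∏ q ∈ T' \ T, (1 / (q : ℝ)))) * ((FF σ H (T ∩ T') (T \ T') + FF σ H (T ∩ T') (T' \ T)) / 2)) +
        4 * (H : ℝ) ^ 2 * (2 ^ T.card * 2 ^ T'.card) := by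
  set g : ℕ := ∏ q ∈ T ∩ T', q with hgdef
  set a : ℕ := ∏ q ∈ T \ T', q with hadef
  set b : ℕ := ∏ q ∈ T' \ T, q with hbdef
  have hpos : ∀ S : Finset ℕ, (∀ p ∈ S, p.Prime) → 0 < ∏ q ∈ S, q :=
    fun S hS => prod_pos fun q hq => (hS q hq).pos
  have p1 : ∀ p ∈ T ∩ T', p.Prime := fun p hp => hT p (mem_inter.1 hp).1
  have p2 : ∀ p ∈ T \ T', p.Prime := fun p hp => hT p (mem_sdiff.1 hp).1
  have p3 : ∀ p ∈ T' \ T, p.Prime := fun p hp => hT' p (mem_sdiff.1 hp).1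
  have hg : 0 < g := hpos _ p1
  have ha : 0 < a := hpos _ p2
  have hb : 0 < b := hpos _ p3
  have hcop : ∀ (S S' : Finset ℕ), (∀ p ∈ S, p.Prime) → (∀ p ∈ S', p.Prime) → Disjoint S S' →
      ∀ p ∈ S', Nat.Coprime (∏ q ∈ S, q) p := by
    intro S S' hS hS' hd p hp
    apply Nat.Coprime.prod_left
    intro q hq
    rw [Nat.coprime_primes (hS q hq) (hS' p hp)]
    rintro rfl
    exact (disjoint_left.1 hd) hq hp
  have d12 : Disjoint (T ∩ T') (T \ T') := by
    rw [disjoint_left]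
    intro p hp hp'
    exact (mem_sdiff.1 hp').2 (mem_inter.1 hp).2
  have d13 : Disjoint (T ∩ T') (T' \ T) := by
    rw [disjoint_left]
    intro p hp hp'
    exact (mem_sdiff.1 hp').2 (mem_inter.1 hp).1
  have d23 : Disjoint (T \ T') (T' \ T) := by
    rw [disjoint_left]
    intro p hp hp'
    exact (mem_sdiff.1 hp').2 (mem_sdiff.1 hp).1
  have dT3 : Disjoint T (T' \ T) := by
    rw [disjoint_left]
    intro p hp hp'
    exact (mem_sdiff.1 hp').2 hp
  have e1 : ∏ q ∈ T, q = g * a := by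
    rw [hgdef, hadef, ← prod_union d12]
    congr 1
    ext q
    rw [mem_union, mem_inter, mem_sdiff]
    tauto
  have e2 : ∏ q ∈ T', q = g * b := by
    rw [hgdef, hbdef, ← prod_union d13]
    congr 1
    ext q
    rw [mem_union, mem_inter, mem_sdiff]
    tauto
  have hab : Nat.Coprime a b := Nat.Coprime.prod_right (hcop _ _ p2 p3 d23)
  have hTb : Nat.Coprime (∏ q ∈ T, q) b := Nat.Coprime.prod_right (hcop _ _ hT p3 dT3)
  have hL : 0 < g * (a * b) := Nat.mul_pos hg (Nat.mul_pos ha hb)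
  have hrem := rem_le σ H T T' (T \ T') (T' \ T) g hg hT hT' p2 p3 e1 e2 hTb
    (card_le_card sdiff_subset)
  rw [e1, e2] at hrem ⊢
  have key := sum_periodic (fun n => E σ H (g * a) n * E σ H (g * b) n) (g * (a * b)) N hL (by
    intro n m
    show E σ H (g * a) (n + g * (a * b) * m) * E σ H (g * b) (n + g * (a * b) * m) = _
    have c1 : n + g * (a * b) * m ≡ n [MOD g * a] := by
      have h : n + g * (a * b) * m ≡ n + 0 [MOD g * a] := by
        apply Nat.ModEq.add_left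
        exact (Nat.modEq_zero_iff_dvd).2 ⟨b * m, by ring⟩
      simpa using h
    have c2 : n + g * (a * b) * m ≡ n [MOD g * b] := by
      have h : n + g * (a * b) * m ≡ n + 0 [MOD g * b] := by
        apply Nat.ModEq.add_left
        exact (Nat.modEq_zero_iff_dvd).2 ⟨a * m, by ring⟩
      simpa using h
    rw [E_congr σ H c1, E_congr σ H c2])
    ((FF σ H (T ∩ T') (T \ T') + FF σ H (T ∩ T') (T' \ T)) / 2)
    (4 * (H : ℝ) ^ 2 * (2 ^ T.card * 2 ^ T'.card)) (by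
      show |∑ n ∈ range (g * (a * b)), E σ H (g * a) n * E σ H (g * b) n| ≤ _
      rw [full_period σ H g a b ha hb hab]
      refine (abs_sum_le_sum_abs _ _).trans ?_
      unfold FF
      rw [← sum_add_distrib, sum_div]
      apply sum_le_sum
      intro u _
      rw [abs_mul]
      have := two_mul_le_add_sq |AA σ H g a u| |AA σ H g b u|
      rw [sq_abs, sq_abs] at this
      linarith)
    hrem
  refine key.trans (le_of_eq ?_)
  congr 1
  have f1 : ∀ S : Finset ℕ, ∏ q ∈ S, (1 / (q : ℝ)) = 1 / ((∏ q ∈ S, q : ℕ) : ℝ) := by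
    intro S
    rw [prod_div_distrib, prod_const_one]
    push_cast
    rfl
  rw [f1, f1, f1, ← hgdef, ← hadef, ← hbdef]
  have hgr : (g : ℝ) ≠ 0 := by exact_mod_cast hg.ne'
  have har : (a : ℝ) ≠ 0 := by exact_mod_cast ha.ne'
  have hbr : (b : ℝ) ≠ 0 := by exact_mod_cast hb.ne'
  push_cast
  field_simp

end Pool.Agent.K3h31.SQ
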