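import Pool.Agent.K3h31.SQ.Mom
import Pool.Agent.K3h31.LP.Sq

/-! Squares of medium primes dividing `n ^ 2 + σ k`. -/

set_option autoImplicit false

open Finset Filter

namespace Pool.Agent.K3h31.SQ

open Pool.Agent.W23.DC
open Pool.Agent.Y882
open Pool.Agent.Y882.KW
open Pool.Agent.K3h31.LP (class_count pr_facts pr_sq card_pr)

open Classical in
/-- the `k ≤ H` such that `n ^ 2 + σ k` is divisible by the square of a medium prime -/
noncomputable def sqk (σ : ℤ) (Y : ℕ) (ζ υ : ℝ) (n H : ℕ) : Finset ℕ :=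
  (Icc 1 H).filter (fun k => ∃ q ∈ pr Y ζ υ, ((q : ℤ)) ^ 2 ∣ (n : ℤ) ^ 2 + σ * k)

theorem count_n (σ : ℤ) (hσ : σ * σ = 1) (N k q : ℕ) (hq : q.Prime) (hq2 : q ≠ 2) :
    (((Icc 1 N).filter (fun n : ℕ => (q : ℤ) ^ 2 ∣ (n : ℤ) ^ 2 + σ * k)).card : ℝ) ≤
      2 * (N * (1 / (q : ℝ) ^ 2) + 1) + (if q ^ 2 ∣ k then (N : ℝ) / q + 1 else 0) := by
  classical
  have hqi : Prime (q : ℤ) := Nat.prime_iff_prime_int.1 hq
  have hq2pos : 0 < q ^ 2 := pow_pos hq.pos 2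
  have hcl : ∀ b : ℕ, (((Icc 1 N).filter (fun n : ℕ => q ^ 2 ∣ 1 * n + b)).card : ℝ) ≤
      N * (1 / (q : ℝ) ^ 2) + 1 := by
    intro b
    have := class_count (q ^ 2) hq2pos 1 b (Nat.coprime_one_left _) N
    rw [abs_le] at this
    push_cast at this
    have e : (N : ℝ) * (1 / (q : ℝ) ^ 2) = (N : ℝ) / (q : ℝ) ^ 2 := by ring
    rw [e]
    linarith [this.2]
  have h0 : (0 : ℝ) ≤ N * (1 / (q : ℝ) ^ 2) + 1 := by positivity
  by_cases hqk : (q : ℤ) ∣ (k : ℤ)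
  · have hn : ∀ n : ℕ, (q : ℤ) ^ 2 ∣ (n : ℤ) ^ 2 + σ * k → (q : ℤ) ∣ n ∧ (q : ℤ) ^ 2 ∣ (k : ℤ) := by
      intro n hn
      have h1 : (q : ℤ) ∣ (n : ℤ) ^ 2 + σ * k := (dvd_pow_self _ (by norm_num)).trans hn
      have h2 : (q : ℤ) ∣ (n : ℤ) ^ 2 := (dvd_add_left (hqk.mul_left σ)).1 h1
      have h3 : (q : ℤ) ∣ n := hqi.dvd_of_dvd_pow h2
      have h4 : (q : ℤ) ^ 2 ∣ (n : ℤ) ^ 2 := pow_dvd_pow_of_dvd h3 2
      have h5 : (q : ℤ) ^ 2 ∣ σ * k := (dvd_add_right h4).1 hn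
      refine ⟨h3, ?_⟩
      have h6 : (k : ℤ) = σ * (σ * k) := by linear_combination (-(k : ℤ)) * hσ
      rw [h6]
      exact h5.mul_left σ
    by_cases hk2 : q ^ 2 ∣ k
    · rw [if_pos hk2]
      have hsub : (Icc 1 N).filter (fun n : ℕ => (q : ℤ) ^ 2 ∣ (n : ℤ) ^ 2 + σ * k) ⊆
          (Icc 1 N).filter (fun n : ℕ => q ∣ 1 * n + 0) := by
        intro n hn'
        rw [mem_filter] at hn' ⊢
        refine ⟨hn'.1, ?_⟩
        rw [one_mul, add_zero]
        exact Int.natCast_dvd_natCast.1 (hn n hn'.2).1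
      have h1 := class_count q hq.pos 1 0 (Nat.coprime_one_left _) N
      rw [abs_le] at h1
      have h2 : (((Icc 1 N).filter (fun n : ℕ => (q : ℤ) ^ 2 ∣ (n : ℤ) ^ 2 + σ * k)).card : ℝ) ≤
          (((Icc 1 N).filter (fun n : ℕ => q ∣ 1 * n + 0)).card : ℝ) := by
        exact_mod_cast card_le_card hsub
      linarith [h1.2]
    · rw [if_neg hk2]
      have hemp : (Icc 1 N).filter (fun n : ℕ => (q : ℤ) ^ 2 ∣ (n : ℤ) ^ 2 + σ * k) = ∅ := by
        rw [filter_eq_empty_iff]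
        intro n _ h
        apply hk2
        have := (hn n h).2
        exact_mod_cast this
      rw [hemp]
      simp only [card_empty, Nat.cast_zero]
      linarith
  · have hadd : (0 : ℝ) ≤ (if q ^ 2 ∣ k then (N : ℝ) / q + 1 else 0) := by
      split_ifs <;> positivity
    rcases (filter (fun n : ℕ => (q : ℤ) ^ 2 ∣ (n : ℤ) ^ 2 + σ * k) (Icc 1 N)).eq_empty_or_nonempty
      with hemp | ⟨n₀, hn₀⟩
    · rw [hemp]
      simp only [card_empty, Nat.cast_zero]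
      linarith
    · rw [mem_filter] at hn₀
      have hsub : (Icc 1 N).filter (fun n : ℕ => (q : ℤ) ^ 2 ∣ (n : ℤ) ^ 2 + σ * k) ⊆
          (Icc 1 N).filter (fun n : ℕ => q ^ 2 ∣ 1 * n + (q ^ 2 * n₀ - n₀)) ∪
          (Icc 1 N).filter (fun n : ℕ => q ^ 2 ∣ 1 * n + n₀) := by
        intro n hn
        rw [mem_filter] at hn
        rw [mem_union, mem_filter, mem_filter]
        have h1 : (q : ℤ) ^ 2 ∣ ((n : ℤ) - n₀) * (n + n₀) := by
          have := dvd_sub hn.2 hn₀.2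
          have e : (n : ℤ) ^ 2 + σ * k - ((n₀ : ℤ) ^ 2 + σ * k) = ((n : ℤ) - n₀) * (n + n₀) := by ring
          rwa [e] at this
        have hqn : ¬ (q : ℤ) ∣ n := by
          intro h
          apply hqk
          have h2 : (q : ℤ) ∣ (n : ℤ) ^ 2 + σ * k := (dvd_pow_self _ (by norm_num)).trans hn.2
          have h3 : (q : ℤ) ∣ σ * k := (dvd_add_right (h.trans (dvd_pow_self _ (by norm_num)))).1 h2
          have h6 : (k : ℤ) = σ * (σ * k) := by linear_combination (-(k : ℤ)) * hσ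
          rw [h6]
          exact h3.mul_left σ
        by_cases h2 : (q : ℤ) ∣ (n : ℤ) - n₀
        · left
          refine ⟨hn.1, ?_⟩
          have h3 : ¬ (q : ℤ) ∣ (n : ℤ) + n₀ := by
            intro h4
            have h5 : (q : ℤ) ∣ 2 * n := by
              have := dvd_add h2 h4
              have e : (n : ℤ) - n₀ + (n + n₀) = 2 * n := by ring
              rwa [e] at this
            rcases hqi.dvd_or_dvd h5 with h6 | h6
            · have h7 : q ∣ 2 := by exact_mod_cast h6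
              exact hq2 ((Nat.prime_dvd_prime_iff_eq hq Nat.prime_two).1 h7)
            · exact hqn h6
          have h4 : IsCoprime ((q : ℤ) ^ 2) ((n : ℤ) + n₀) :=
            (hqi.coprime_iff_not_dvd.2 h3).pow_left
          have h5 : (q : ℤ) ^ 2 ∣ (n : ℤ) - n₀ := h4.dvd_of_dvd_mul_right h1
          have hle : n₀ ≤ q ^ 2 * n₀ := Nat.le_mul_of_pos_left n₀ hq2pos
          rw [← Int.natCast_dvd_natCast]
          push_cast [Nat.cast_sub hle]
          have e : 1 * (n : ℤ) + ((q : ℤ) ^ 2 * n₀ - n₀) = (n - n₀) + (q : ℤ) ^ 2 * n₀ := by ring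
          rw [e]
          exact dvd_add h5 (dvd_mul_right _ _)
        · right
          refine ⟨hn.1, ?_⟩
          have h4 : IsCoprime ((q : ℤ) ^ 2) ((n : ℤ) - n₀) :=
            (hqi.coprime_iff_not_dvd.2 h2).pow_left
          have h5 : (q : ℤ) ^ 2 ∣ (n : ℤ) + n₀ := h4.dvd_of_dvd_mul_left h1
          rw [← Int.natCast_dvd_natCast]
          push_cast
          rw [one_mul]
          exact h5
      have h1 : (((Icc 1 N).filter (fun n : ℕ => (q : ℤ) ^ 2 ∣ (n : ℤ) ^ 2 + σ * k)).card : ℝ) ≤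
          (((Icc 1 N).filter (fun n : ℕ => q ^ 2 ∣ 1 * n + (q ^ 2 * n₀ - n₀))).card : ℝ) +
          (((Icc 1 N).filter (fun n : ℕ => q ^ 2 ∣ 1 * n + n₀)).card : ℝ) := by
        exact_mod_cast (card_le_card hsub).trans (card_union_le _ _)
      have h2 := hcl (q ^ 2 * n₀ - n₀)
      have h3 := hcl n₀
      linarith

theorem sq_sum (σ : ℤ) (hσ : σ * σ = 1) {Y : ℕ} (hY : 2 ≤ Y) (ζ υ : ℝ)
    (hζ : (3 : ℝ) ≤ (Y : ℝ) ^ ζ) (N H : ℕ) (hYN : Y ≤ N) :
    ∑ n ∈ Icc 1 N, ((sqk σ Y ζ υ n H).card : ℝ) ≤ H * (8 * (N / (Y : ℝ) ^ ζ) + 2 * (Y : ℝ) ^ υ) := by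
  classical
  have h1 : ∀ n ∈ Icc 1 N, ((sqk σ Y ζ υ n H).card : ℝ) ≤
      ∑ k ∈ Icc 1 H, ∑ q ∈ pr Y ζ υ, (if (q : ℤ) ^ 2 ∣ (n : ℤ) ^ 2 + σ * k then (1 : ℝ) else 0) := by
    intro n _
    unfold sqk
    rw [card_filter]
    push_cast
    apply sum_le_sum
    intro k _
    have h0 : 0 ≤ ∑ q ∈ pr Y ζ υ, (if (q : ℤ) ^ 2 ∣ (n : ℤ) ^ 2 + σ * k then (1 : ℝ) else 0) :=
      sum_nonneg fun q _ => by split_ifs <;> norm_num
    split_ifs with h
    · obtain ⟨q, hq, hqd⟩ := h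
      have h2 := single_le_sum (f := fun q : ℕ => (if (q : ℤ) ^ 2 ∣ (n : ℤ) ^ 2 + σ * k then (1 : ℝ) else 0))
        (fun q _ => by
          show (0 : ℝ) ≤ if (q : ℤ) ^ 2 ∣ (n : ℤ) ^ 2 + σ * k then (1 : ℝ) else 0
          split_ifs <;> norm_num) hq
      simp only [if_pos hqd] at h2
      exact h2
    · exact h0
  have hfact : ∀ q ∈ pr Y ζ υ, q.Prime ∧ q ≤ Y ∧ q ≠ 2 := by
    intro q hq
    obtain ⟨h3, h4, h5, h6⟩ := pr_facts hY hq
    refine ⟨h3, h4, ?_⟩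
    rintro rfl
    have := hζ.trans h5
    norm_num at this
  have hq : ∀ q ∈ pr Y ζ υ, ∑ k ∈ Icc 1 H, ∑ n ∈ Icc 1 N,
      (if (q : ℤ) ^ 2 ∣ (n : ℤ) ^ 2 + σ * k then (1 : ℝ) else 0) ≤
      H * (4 * N * (1 / (q : ℝ) ^ 2) + 2) := by
    intro q hq
    obtain ⟨hqp, hqY, hq2⟩ := hfact q hq
    have hq0 : (0 : ℝ) < q := by exact_mod_cast hqp.pos
    have hqN : (q : ℝ) ≤ N := by exact_mod_cast hqY.trans hYN
    calc ∑ k ∈ Icc 1 H, ∑ n ∈ Icc 1 N,
        (if (q : ℤ) ^ 2 ∣ (n : ℤ) ^ 2 + σ * k then (1 : ℝ) else 0) ≤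
        ∑ k ∈ Icc 1 H, (2 * (N * (1 / (q : ℝ) ^ 2) + 1) + (if q ^ 2 ∣ k then (N : ℝ) / q + 1 else 0)) := by
          apply sum_le_sum
          intro k _
          have := count_n σ hσ N k q hqp hq2
          rw [card_filter] at this
          push_cast at this
          exact this
      _ = H * (2 * (N * (1 / (q : ℝ) ^ 2) + 1)) +
          ((Icc 1 H).filter (fun k => q ^ 2 ∣ k)).card * ((N : ℝ) / q + 1) := by
          rw [sum_add_distrib, sum_const, Nat.card_Icc, Nat.add_sub_cancel, nsmul_eq_mul,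
            ← sum_filter, sum_const, nsmul_eq_mul]
      _ ≤ H * (2 * (N * (1 / (q : ℝ) ^ 2) + 1)) + (H / (q : ℝ) ^ 2) * (2 * N) := by
          apply add_le_add le_rfl
          have e1 : (Icc 1 H).filter (fun k => q ^ 2 ∣ k) = (Ioc 0 H).filter (fun k => q ^ 2 ∣ k) := by
            ext k
            rw [mem_filter, mem_filter, mem_Icc, mem_Ioc]
            constructor <;> rintro ⟨h, h'⟩ <;> exact ⟨by omega, h'⟩
          have e2 : (((Icc 1 H).filter (fun k => q ^ 2 ∣ k)).card : ℝ) ≤ H / (q : ℝ) ^ 2 := by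
            rw [e1, Nat.Ioc_filter_dvd_card_eq_div]
            refine Nat.cast_div_le.trans (le_of_eq ?_)
            push_cast
            rfl
          apply mul_le_mul e2 _ (by positivity) (by positivity)
          have hq1 : (1 : ℝ) ≤ q := by exact_mod_cast hqp.one_le
          have h3 : (N : ℝ) / q ≤ N := div_le_self (Nat.cast_nonneg N) hq1
          linarith
      _ = _ := by ring
  calc ∑ n ∈ Icc 1 N, ((sqk σ Y ζ υ n H).card : ℝ) ≤
      ∑ n ∈ Icc 1 N, ∑ k ∈ Icc 1 H, ∑ q ∈ pr Y ζ υ,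
        (if (q : ℤ) ^ 2 ∣ (n : ℤ) ^ 2 + σ * k then (1 : ℝ) else 0) := sum_le_sum h1
    _ = ∑ q ∈ pr Y ζ υ, ∑ k ∈ Icc 1 H, ∑ n ∈ Icc 1 N,
        (if (q : ℤ) ^ 2 ∣ (n : ℤ) ^ 2 + σ * k then (1 : ℝ) else 0) := by
        rw [sum_comm]
        simp_rw [sum_comm (s := Icc 1 N)]
        rw [sum_comm]
    _ ≤ ∑ q ∈ pr Y ζ υ, H * (4 * N * (1 / (q : ℝ) ^ 2) + 2) := sum_le_sum hq
    _ = H * (4 * N * ∑ q ∈ pr Y ζ υ, (1 / (q : ℝ) ^ 2) + 2 * (pr Y ζ υ).card) := by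
        rw [← mul_sum, sum_add_distrib, ← mul_sum, sum_const, nsmul_eq_mul]
        ring
    _ ≤ H * (4 * N * (2 / (Y : ℝ) ^ ζ) + 2 * (Y : ℝ) ^ υ) := by
        apply mul_le_mul_of_nonneg_left _ (Nat.cast_nonneg H)
        apply add_le_add
        · exact mul_le_mul_of_nonneg_left (pr_sq hY ζ υ (by linarith)) (by positivity)
        · exact mul_le_mul_of_nonneg_left (card_pr hY ζ υ) (by norm_num)
    _ = _ := by ring

end Pool.Agent.K3h31.SQ
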