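import Pool.Agent.K3h31.SQ.LS
import Pool.Agent.K3h31.LP.Mom

/-! The mean square of the character sums over the moduli. -/

set_option autoImplicit false

open Finset

namespace Pool.Agent.K3h31.SQ

theorem abel (f : ℕ → ℝ) (E0 : ℕ) (hE : 1 ≤ E0) (D : ℕ) (hD : E0 ≤ D) :
    ∑ e ∈ Ioc E0 D, f e / e = (∑ e ∈ Ioc E0 D, f e) / D +
      ∑ X ∈ Ico E0 D, (∑ e ∈ Ioc E0 X, f e) * (1 / (X : ℝ) - 1 / ((X : ℝ) + 1)) := by
  induction D, hD using Nat.le_induction with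
  | base => simp
  | succ D hD ih =>
    rw [sum_Ioc_succ_top hD, sum_Ioc_succ_top hD, ih, sum_Ico_succ_top hD]
    have h1 : (0 : ℝ) < D := by exact_mod_cast (by omega : 0 < D)
    have h2 : (0 : ℝ) < (D : ℝ) + 1 := by linarith
    push_cast
    field_simp
    ring

theorem harm (D : ℕ) : ∑ s ∈ Icc 1 D, 1 / (s : ℝ) ≤ 1 + Real.log D := by
  have h1 := harmonic_le_one_add_log D
  rw [harmonic_eq_sum_Icc] at h1
  push_cast at h1
  refine le_trans (le_of_eq ?_) h1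
  apply sum_congr rfl
  intro s _
  rw [one_div]

theorem abel_le (f : ℕ → ℝ) (E0 : ℕ) (hE : 1 ≤ E0) (α β : ℝ) (hα : 0 ≤ α) (hβ : 0 ≤ β)
    (hS : ∀ X : ℕ, ∑ e ∈ Ioc E0 X, f e ≤ α * X + β) (D : ℕ) (hD : E0 ≤ D) :
    ∑ e ∈ Ioc E0 D, f e / e ≤ α * (2 + Real.log D) + 2 * β / E0 := by
  rw [abel f E0 hE D hD]
  have hE0 : (0 : ℝ) < E0 := by exact_mod_cast hE
  have hD0 : (0 : ℝ) < D := by exact_mod_cast (by omega : 0 < D)
  have hDE : (E0 : ℝ) ≤ D := by exact_mod_cast hD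
  have h1 : (∑ e ∈ Ioc E0 D, f e) / D ≤ α + β / E0 := by
    rw [div_le_iff₀ hD0]
    refine (hS D).trans ?_
    have : β ≤ β / E0 * D := by
      rw [div_mul_eq_mul_div, le_div_iff₀ hE0]
      exact mul_le_mul_of_nonneg_left hDE hβ
    rw [add_mul]
    linarith
  have h2 : ∑ X ∈ Ico E0 D, (∑ e ∈ Ioc E0 X, f e) * (1 / (X : ℝ) - 1 / ((X : ℝ) + 1)) ≤
      ∑ X ∈ Ico E0 D, (α * (1 / ((X : ℝ) + 1)) + β * (1 / (X : ℝ) - 1 / ((X : ℝ) + 1))) := by
    apply sum_le_sum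
    intro X hX
    rw [mem_Ico] at hX
    have hX0 : (0 : ℝ) < X := by exact_mod_cast (by omega : 0 < X)
    have h3 : 0 ≤ 1 / (X : ℝ) - 1 / ((X : ℝ) + 1) := by
      rw [sub_nonneg]
      exact one_div_le_one_div_of_le hX0 (by linarith)
    calc _ ≤ (α * X + β) * (1 / (X : ℝ) - 1 / ((X : ℝ) + 1)) :=
          mul_le_mul_of_nonneg_right (hS X) h3
      _ = _ := by
          field_simp
          ring
  have h4 : ∑ X ∈ Ico E0 D, (1 / ((X : ℝ) + 1)) ≤ 1 + Real.log D := by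
    refine le_trans ?_ (harm D)
    have h5 : ∑ X ∈ Ico E0 D, (1 / ((X : ℝ) + 1)) =
        ∑ s ∈ (Ico E0 D).image (fun X : ℕ => X + 1), 1 / ((s : ℕ) : ℝ) := by
      rw [sum_image (fun a _ b _ h => Nat.succ_injective h)]
      apply sum_congr rfl
      intro X _
      push_cast
      rfl
    rw [h5]
    apply sum_le_sum_of_subset_of_nonneg
    · intro s hs
      rw [mem_image] at hs
      obtain ⟨X, hX, rfl⟩ := hs
      rw [mem_Ico] at hX
      rw [mem_Icc]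
      omega
    · intro i _ _
      positivity
  have h6 : ∑ X ∈ Ico E0 D, (1 / (X : ℝ) - 1 / ((X : ℝ) + 1)) ≤ 1 / E0 := by
    have h7 : ∀ D : ℕ, E0 ≤ D → ∑ X ∈ Ico E0 D, (1 / (X : ℝ) - 1 / ((X : ℝ) + 1)) = 1 / E0 - 1 / D := by
      intro D hD
      induction D, hD using Nat.le_induction with
      | base => simp
      | succ D hD ih =>
        rw [sum_Ico_succ_top hD, ih]
        push_cast
        ring
    rw [h7 D hD]
    have : (0 : ℝ) ≤ 1 / (D : ℝ) := by positivity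
    linarith
  rw [sum_add_distrib, ← mul_sum, ← mul_sum] at h2
  have h8 := mul_le_mul_of_nonneg_left h4 hα
  have h9 := mul_le_mul_of_nonneg_left h6 hβ
  have e1 : 2 * β / E0 = β / E0 + β * (1 / E0) := by ring
  rw [e1]
  linarith

/-- the sum of the Jacobi symbols -/
noncomputable def SS (σ : ℤ) (H g u e : ℕ) : ℝ :=
  ∑ k ∈ KK σ H g u, ((jacobiSym (-(σ * k)) e : ℤ) : ℝ)

theorem KK_sub (σ : ℤ) (H g u : ℕ) : KK σ H g u ⊆ Icc 1 H := filter_subset _ _

/-- the mean square over the moduli -/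
theorem W_le (σ : ℤ) (hσ : σ * σ = 1) (h g u D : ℕ) (hh : 1 ≤ h) (hg : 0 < g) (L : ℝ)
    (hL1 : 2 + Real.log D ≤ L) (hL2 : 1 + Real.log (4 * ((h : ℝ) ^ 8) ^ 2) ≤ L) :
    ∑ e ∈ (Icc 2 D).filter (fun e => Odd e ∧ Squarefree e ∧ Nat.Coprime g e),
      (1 / (e : ℝ)) * SS σ (h ^ 8) g u e ^ 2 ≤ 81 * (h : ℝ) ^ 12 * L ^ 2 := by
  classical
  have hhr : (1 : ℝ) ≤ h := by exact_mod_cast hh
  have hh8 : 1 ≤ h ^ 8 := Nat.one_le_pow _ _ (by omega)
  have hh12 : 1 ≤ h ^ 12 := Nat.one_le_pow _ _ (by omega)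
  have p8 : (1 : ℝ) ≤ (h : ℝ) ^ 8 := one_le_pow₀ hhr
  have p12 : (1 : ℝ) ≤ (h : ℝ) ^ 12 := one_le_pow₀ hhr
  have lg1 : 0 ≤ Real.log (4 * ((h : ℝ) ^ 8) ^ 2) := by
    apply Real.log_nonneg
    nlinarith
  have hL : 1 ≤ L := by linarith
  have lg2 : Real.log ((h : ℝ) ^ 12) ≤ Real.log (4 * ((h : ℝ) ^ 8) ^ 2) := by
    apply Real.log_le_log (by positivity)
    have e : ((h : ℝ) ^ 8) ^ 2 = (h : ℝ) ^ 12 * (h : ℝ) ^ 4 := by ring
    rw [e]
    have p4 : (1 : ℝ) ≤ (h : ℝ) ^ 4 := one_le_pow₀ hhr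
    nlinarith
  have lg3 : Real.log ((h : ℝ) ^ 8) ≤ Real.log (4 * ((h : ℝ) ^ 8) ^ 2) := by
    apply Real.log_le_log (by positivity)
    nlinarith
  set f : ℕ → ℝ := fun e => if Odd e then SS σ (h ^ 8) g u e ^ 2 else 0 with hf
  have hf0 : ∀ e, 0 ≤ f e := by
    intro e
    rw [hf]
    simp only
    split_ifs
    · exact sq_nonneg _
    · exact le_refl 0
  have hS : ∀ X : ℕ, ∑ e ∈ Ioc (h ^ 12) X, f e ≤ ((h : ℝ) ^ 8 * L) * X +
      ((h : ℝ) ^ 8) ^ 2 * (8 * (h : ℝ) ^ 8 * L) := by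
    intro X
    have h1 := large_sieve σ hσ (h ^ 8) X hh8 (KK σ (h ^ 8) g u) (KK_sub σ (h ^ 8) g u)
    have h2 : ∑ e ∈ Ioc (h ^ 12) X, f e ≤ ∑ e ∈ (Icc 1 X).filter (fun e => Odd e),
        (∑ k ∈ KK σ (h ^ 8) g u, ((jacobiSym (-(σ * k)) e : ℤ) : ℝ)) ^ 2 := by
      rw [sum_filter]
      apply sum_le_sum_of_subset_of_nonneg
      · intro e he
        rw [mem_Ioc] at he
        rw [mem_Icc]
        omega
      · intro e _ _
        exact hf0 e
    refine h2.trans (h1.trans ?_)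
    push_cast
    apply add_le_add
    · rw [mul_comm ((h : ℝ) ^ 8 * L)]
      apply mul_le_mul_of_nonneg_left _ (Nat.cast_nonneg X)
      apply mul_le_mul_of_nonneg_left _ (by positivity)
      linarith
    · apply mul_le_mul_of_nonneg_left _ (by positivity)
      apply mul_le_mul_of_nonneg_left _ (by positivity)
      exact hL2
  -- the small moduli
  have hsmall : ∑ e ∈ (Icc 1 (h ^ 12)).filter (fun e => 2 ≤ e ∧ Odd e ∧ Squarefree e ∧ Nat.Coprime g e),
      (1 / (e : ℝ)) * SS σ (h ^ 8) g u e ^ 2 ≤ 64 * (h : ℝ) ^ 12 * L ^ 2 := by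
    calc _ ≤ ∑ e ∈ (Icc 1 (h ^ 12)).filter
          (fun e => 2 ≤ e ∧ Odd e ∧ Squarefree e ∧ Nat.Coprime g e), 64 * L ^ 2 := by
          apply sum_le_sum
          intro e he
          rw [mem_filter, mem_Icc] at he
          obtain ⟨⟨he1, he2⟩, he3, he4, he5, he6⟩ := he
          have h1 := pv_KK σ hσ (h ^ 8) g u e hg he3 he4 he5 he6
          have he0 : (0 : ℝ) < e := by exact_mod_cast (by omega : 0 < e)
          have h2 : Real.log e ≤ Real.log ((h : ℝ) ^ 12) := by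
            apply Real.log_le_log he0
            exact_mod_cast he2
          have h20 : 0 ≤ Real.log e := Real.log_nonneg (by exact_mod_cast he1)
          have h3 : |SS σ (h ^ 8) g u e| ≤ 8 * Real.sqrt e * L := by
            refine h1.trans ?_
            apply mul_le_mul_of_nonneg_left _ (by positivity)
            linarith
          have h4 : SS σ (h ^ 8) g u e ^ 2 ≤ 64 * e * L ^ 2 := by
            rw [← sq_abs]
            calc _ ≤ (8 * Real.sqrt e * L) ^ 2 := pow_le_pow_left₀ (abs_nonneg _) h3 2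
              _ = 64 * (Real.sqrt e) ^ 2 * L ^ 2 := by ring
              _ = _ := by rw [Real.sq_sqrt he0.le]
          calc (1 / (e : ℝ)) * SS σ (h ^ 8) g u e ^ 2 ≤ (1 / (e : ℝ)) * (64 * e * L ^ 2) :=
                mul_le_mul_of_nonneg_left h4 (by positivity)
            _ = _ := by field_simp
      _ ≤ (h : ℝ) ^ 12 * (64 * L ^ 2) := by
          rw [sum_const, nsmul_eq_mul]
          apply mul_le_mul_of_nonneg_right _ (by positivity)
          have : ((Icc 1 (h ^ 12)).filter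
              (fun e => 2 ≤ e ∧ Odd e ∧ Squarefree e ∧ Nat.Coprime g e)).card ≤ h ^ 12 := by
            refine (card_filter_le _ _).trans ?_
            rw [Nat.card_Icc, Nat.add_sub_cancel]
          exact_mod_cast this
      _ = _ := by ring
  have hlarge : ∑ e ∈ Ioc (h ^ 12) D, f e / e ≤ 17 * (h : ℝ) ^ 12 * L ^ 2 := by
    rcases le_or_gt (h ^ 12) D with hD | hD
    · have h1 := abel_le f (h ^ 12) hh12 ((h : ℝ) ^ 8 * L) (((h : ℝ) ^ 8) ^ 2 * (8 * (h : ℝ) ^ 8 * L))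
        (by positivity) (by positivity) hS D hD
      refine h1.trans ?_
      have h2 : (h : ℝ) ^ 8 * L * (2 + Real.log D) ≤ (h : ℝ) ^ 12 * L ^ 2 := by
        have h3 : (h : ℝ) ^ 8 ≤ (h : ℝ) ^ 12 := pow_le_pow_right₀ hhr (by norm_num)
        calc (h : ℝ) ^ 8 * L * (2 + Real.log D) ≤ (h : ℝ) ^ 8 * L * L :=
              mul_le_mul_of_nonneg_left hL1 (by positivity)
          _ ≤ (h : ℝ) ^ 12 * L * L := by
              apply mul_le_mul_of_nonneg_right _ (by linarith)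
              exact mul_le_mul_of_nonneg_right h3 (by linarith)
          _ = _ := by ring
      have h4 : 2 * (((h : ℝ) ^ 8) ^ 2 * (8 * (h : ℝ) ^ 8 * L)) / ((h ^ 12 : ℕ) : ℝ) ≤
          16 * (h : ℝ) ^ 12 * L ^ 2 := by
        push_cast
        rw [div_le_iff₀ (by positivity)]
        have h5 : 2 * (((h : ℝ) ^ 8) ^ 2 * (8 * (h : ℝ) ^ 8 * L)) = 16 * (h : ℝ) ^ 24 * L := by ring
        have h6 : 16 * (h : ℝ) ^ 12 * L ^ 2 * (h : ℝ) ^ 12 = 16 * (h : ℝ) ^ 24 * L * L := by ring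
        rw [h5, h6]
        exact le_mul_of_one_le_right (by positivity) hL
      linarith
    · rw [Ioc_eq_empty (by omega)]
      simp only [sum_empty]
      positivity
  have hsplit : ∑ e ∈ (Icc 2 D).filter (fun e => Odd e ∧ Squarefree e ∧ Nat.Coprime g e),
      (1 / (e : ℝ)) * SS σ (h ^ 8) g u e ^ 2 ≤
      ∑ e ∈ (Icc 1 (h ^ 12)).filter (fun e => 2 ≤ e ∧ Odd e ∧ Squarefree e ∧ Nat.Coprime g e),
      (1 / (e : ℝ)) * SS σ (h ^ 8) g u e ^ 2 + ∑ e ∈ Ioc (h ^ 12) D, f e / e := by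
    have h0 : ∀ e : ℕ, 0 ≤ (1 / (e : ℝ)) * SS σ (h ^ 8) g u e ^ 2 := fun e => by positivity
    have hA : ∀ e : ℕ, (if e ∈ Ioc (h ^ 12) D ∧ Odd e then (1 / (e : ℝ)) * SS σ (h ^ 8) g u e ^ 2
        else 0) = if e ∈ Ioc (h ^ 12) D then f e / e else 0 := by
      intro e
      rw [hf]
      by_cases h1 : e ∈ Ioc (h ^ 12) D <;> by_cases h2 : Odd e
      · rw [if_pos ⟨h1, h2⟩, if_pos h1]
        simp only [if_pos h2]
        ring
      · rw [if_neg (fun h => h2 h.2), if_pos h1]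
        simp only [if_neg h2]
        simp
      · rw [if_neg (fun h => h1 h.1), if_neg h1]
      · rw [if_neg (fun h => h1 h.1), if_neg h1]
    have hB : ∑ e ∈ Ioc (h ^ 12) D, f e / e =
        ∑ e ∈ (Ioc (h ^ 12) D).filter (fun e => Odd e), (1 / (e : ℝ)) * SS σ (h ^ 8) g u e ^ 2 := by
      rw [sum_filter]
      apply sum_congr rfl
      intro e he
      have := hA e
      rw [if_pos he] at this
      rw [← this]
      by_cases h2 : Odd e
      · rw [if_pos ⟨he, h2⟩, if_pos h2]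
      · rw [if_neg (fun h => h2 h.2), if_neg h2]
    rw [hB]
    rw [← sum_union]
    · apply sum_le_sum_of_subset_of_nonneg
      · intro e he
        rw [mem_filter, mem_Icc] at he
        rw [mem_union, mem_filter, mem_filter, mem_Icc, mem_Ioc]
        rcases le_or_gt e (h ^ 12) with h1 | h1
        · left
          exact ⟨⟨by omega, h1⟩, he.1.1, he.2⟩
        · right
          exact ⟨⟨h1, he.1.2⟩, he.2.1⟩
      · intro e _ _
        exact h0 e
    · rw [disjoint_left]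
      intro e he he'
      rw [mem_filter, mem_Icc] at he
      rw [mem_filter, mem_Ioc] at he'
      omega
  linarith

/-- products of the characters -/
theorem ch_prod (m : ℤ) (U : Finset ℕ) : (∀ p ∈ U, p.Prime) → 2 ∉ U →
    ∏ q ∈ U, ch m q = ((jacobiSym m (∏ q ∈ U, q) : ℤ) : ℝ) := by
  classical
  induction U using Finset.induction_on with
  | empty => simp
  | insert q U hq ih =>
    intro hU h2
    have hU' : ∀ p ∈ U, p.Prime := fun p hp => hU p (mem_insert_of_mem hp)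
    have hqp := hU q (mem_insert_self _ _)
    rw [prod_insert hq, prod_insert hq, ih hU' (fun h => h2 (mem_insert_of_mem h))]
    have : NeZero q := ⟨hqp.ne_zero⟩
    have : NeZero (∏ p ∈ U, p) := ⟨(prod_pos fun p hp => (hU' p hp).pos).ne'⟩
    rw [jacobiSym.mul_right]
    unfold ch
    rw [if_neg (fun h => h2 (by rw [← h]; exact mem_insert_self _ _))]
    push_cast
    rfl

theorem prod_sets_inj (S S' : Finset ℕ) (hS : ∀ p ∈ S, p.Prime) (hS' : ∀ p ∈ S', p.Prime)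
    (h : ∏ q ∈ S, q = ∏ q ∈ S', q) : S = S' := by
  have e1 := Nat.primeFactors_prod hS
  have e2 := Nat.primeFactors_prod hS'
  rw [← e1, ← e2]
  exact congrArg Nat.primeFactors h

/-- the sum over the sets of primes -/
theorem Z_le (σ : ℤ) (hσ : σ * σ = 1) (P G : Finset ℕ) (hP : ∀ p ∈ P, p.Prime)
    (hG : ∀ p ∈ G, p.Prime) (h u D : ℕ) (hh : 1 ≤ h) (L : ℝ)
    (hL1 : 2 + Real.log D ≤ L) (hL2 : 1 + Real.log (4 * ((h : ℝ) ^ 8) ^ 2) ≤ L) :
    ∑ U ∈ P.powerset.filter (fun U => Disjoint U G ∧ ∏ q ∈ U, q ≤ D),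
      (∏ q ∈ U, (2 / (q : ℝ))) * ff σ (h ^ 8) (∏ q ∈ G, q) u U ^ 2 ≤
      1 + (h : ℝ) ^ 14 / 2 * (∏ q ∈ P, (1 + 4 / (q : ℝ)) + 81 * L ^ 2) := by
  classical
  set g : ℕ := ∏ q ∈ G, q with hgdef
  have hg : 0 < g := prod_pos fun q hq => (hG q hq).pos
  have hhr : (1 : ℝ) ≤ h := by exact_mod_cast hh
  have hh0 : (0 : ℝ) < h := by linarith
  set F : Finset (Finset ℕ) := P.powerset.filter (fun U => Disjoint U G ∧ ∏ q ∈ U, q ≤ D) with hF
  have hFp : ∀ U ∈ F, U ⊆ P ∧ (∀ p ∈ U, p.Prime) ∧ Disjoint U G ∧ ∏ q ∈ U, q ≤ D := by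
    intro U hU
    rw [hF, mem_filter, mem_powerset] at hU
    exact ⟨hU.1, fun p hp => hP p (hU.1 hp), hU.2.1, hU.2.2⟩
  have hpt : ∀ U ∈ F, (∏ q ∈ U, (2 / (q : ℝ))) * ff σ (h ^ 8) g u U ^ 2 ≤
      (if U = ∅ then 1 else 0) + (1 / 2 * (h : ℝ) ^ 14 * ∏ q ∈ U, (4 / (q : ℝ)) +
        1 / 2 * (h : ℝ) ^ 2 * (if U = ∅ then 0 else (1 / ((∏ q ∈ U, q : ℕ) : ℝ)) *
          TU σ (h ^ 8) g u U ^ 2)) := by
    intro U hU
    obtain ⟨h1, h2, h3, h4⟩ := hFp U hU
    by_cases hU0 : U = ∅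
    · subst hU0
      rw [if_pos rfl, if_pos rfl]
      unfold ff
      rw [if_pos rfl]
      have h5 := card_KK σ hσ (h ^ 8) g u hg
      have h6 : (((KK σ (h ^ 8) g u).card : ℝ) - ((h ^ 8 : ℕ) : ℝ) / g) ^ 2 ≤ 1 := by
        rw [← sq_abs]
        exact pow_le_one₀ (abs_nonneg _) h5
      have h7 : (0 : ℝ) ≤ 1 / 2 * (h : ℝ) ^ 14 * ∏ q ∈ (∅ : Finset ℕ), (4 / (q : ℝ)) := by positivity
      rw [prod_empty, one_mul]
      linarith
    · rw [if_neg hU0, if_neg hU0]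
      unfold ff
      rw [if_neg hU0]
      have hpos : (0 : ℝ) < ((∏ q ∈ U, q : ℕ) : ℝ) := by
        exact_mod_cast prod_pos fun q hq => (h2 q hq).pos
      have e1 : ∏ q ∈ U, (2 / (q : ℝ)) = 2 ^ U.card / ((∏ q ∈ U, q : ℕ) : ℝ) := by
        rw [prod_div_distrib, prod_const]
        push_cast
        rfl
      have e2 : ∏ q ∈ U, (4 / (q : ℝ)) = (2 ^ U.card) ^ 2 / ((∏ q ∈ U, q : ℕ) : ℝ) := by
        rw [prod_div_distrib, prod_const, ← pow_mul, mul_comm, pow_mul]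
        push_cast
        norm_num
      rw [e1, e2]
      set w : ℝ := ((∏ q ∈ U, q : ℕ) : ℝ) with hw
      set a : ℝ := 2 ^ U.card with ha
      set t : ℝ := TU σ (h ^ 8) g u U with ht
      have h5 : t ^ 2 ≤ ((h : ℝ) ^ 8) ^ 2 := by
        rw [← sq_abs]
        apply pow_le_pow_left₀ (abs_nonneg _)
        refine (TU_abs σ (h ^ 8) g u U).trans ?_
        have h6 : (KK σ (h ^ 8) g u).card ≤ h ^ 8 := by
          refine (card_le_card (KK_sub σ (h ^ 8) g u)).trans ?_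
          rw [Nat.card_Icc, Nat.add_sub_cancel]
        exact_mod_cast h6
      have h7 : 2 * a ≤ a ^ 2 / (h : ℝ) ^ 2 + (h : ℝ) ^ 2 := by
        have h8 := two_mul_le_add_sq (a / h) (h : ℝ)
        rw [div_pow] at h8
        have h9 : 2 * (a / h) * h = 2 * a := by field_simp
        linarith
      have h8 : a / w * t ^ 2 ≤ 1 / 2 * (a ^ 2 / (h : ℝ) ^ 2 + (h : ℝ) ^ 2) / w * t ^ 2 := by
        apply mul_le_mul_of_nonneg_right _ (sq_nonneg t)
        apply div_le_div_of_nonneg_right _ hpos.le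
        linarith
      refine h8.trans ?_
      rw [zero_add]
      have h9 : 1 / 2 * (a ^ 2 / (h : ℝ) ^ 2 + (h : ℝ) ^ 2) / w * t ^ 2 =
          1 / 2 * (a ^ 2 / (h : ℝ) ^ 2) / w * t ^ 2 + 1 / 2 * (h : ℝ) ^ 2 * (1 / w * t ^ 2) := by
        ring
      rw [h9]
      apply add_le_add _ (le_refl _)
      calc 1 / 2 * (a ^ 2 / (h : ℝ) ^ 2) / w * t ^ 2 ≤
          1 / 2 * (a ^ 2 / (h : ℝ) ^ 2) / w * ((h : ℝ) ^ 8) ^ 2 :=
            mul_le_mul_of_nonneg_left h5 (by positivity)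
        _ = _ := by
            field_simp
  refine (sum_le_sum hpt).trans ?_
  rw [sum_add_distrib, sum_add_distrib, ← mul_sum, ← mul_sum]
  have hB1 : ∑ U ∈ F, (if U = ∅ then (1 : ℝ) else 0) ≤ 1 := by
    rw [sum_ite_eq']
    split_ifs <;> norm_num
  have hB2 : ∑ U ∈ F, ∏ q ∈ U, (4 / (q : ℝ)) ≤ ∏ q ∈ P, (1 + 4 / (q : ℝ)) := by
    rw [prod_one_add]
    apply sum_le_sum_of_subset_of_nonneg (filter_subset _ _)
    intro U _ _
    positivity
  have hB3 : ∑ U ∈ F, (if U = ∅ then 0 else (1 / ((∏ q ∈ U, q : ℕ) : ℝ)) *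
          TU σ (h ^ 8) g u U ^ 2) ≤ 81 * (h : ℝ) ^ 12 * L ^ 2 := by
    refine le_trans ?_ (W_le σ hσ h g u D hh hg L hL1 hL2)
    have h1 : ∑ U ∈ F, (if U = ∅ then 0 else (1 / ((∏ q ∈ U, q : ℕ) : ℝ)) *
          TU σ (h ^ 8) g u U ^ 2) = ∑ U ∈ F.filter (fun U => U ≠ ∅ ∧ 2 ∉ U),
          (1 / ((∏ q ∈ U, q : ℕ) : ℝ)) * SS σ (h ^ 8) g u (∏ q ∈ U, q) ^ 2 := by
      symm
      rw [sum_filter]
      symm
      apply sum_congr rfl
      intro U hU
      obtain ⟨h1, h2, h3, h4⟩ := hFp U hU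
      by_cases hU0 : U = ∅
      · rw [if_pos hU0, if_neg (fun h => h.1 hU0)]
      · rw [if_neg hU0]
        by_cases hU2 : 2 ∈ U
        · rw [if_neg (fun h => h.2 hU2)]
          have h5 : TU σ (h ^ 8) g u U = 0 := by
            unfold TU
            apply sum_eq_zero
            intro k _
            apply prod_eq_zero hU2
            unfold ch
            rw [if_pos rfl]
          rw [h5]
          simp
        · rw [if_pos ⟨hU0, hU2⟩]
          have h5 : TU σ (h ^ 8) g u U = SS σ (h ^ 8) g u (∏ q ∈ U, q) := by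
            unfold TU SS
            apply sum_congr rfl
            intro k _
            exact ch_prod _ U h2 hU2
          rw [h5]
    rw [h1]
    have hinj : Set.InjOn (fun U : Finset ℕ => ∏ q ∈ U, q) (F.filter (fun U => U ≠ ∅ ∧ 2 ∉ U)) := by
      intro U hU U' hU' h2
      rw [mem_coe, mem_filter] at hU hU'
      exact prod_sets_inj U U' (hFp U hU.1).2.1 (hFp U' hU'.1).2.1 h2
    rw [← sum_image (f := fun e : ℕ => (1 / (e : ℝ)) * SS σ (h ^ 8) g u e ^ 2) hinj]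
    apply sum_le_sum_of_subset_of_nonneg
    · intro e he
      rw [mem_image] at he
      obtain ⟨U, hU, rfl⟩ := he
      rw [mem_filter] at hU
      obtain ⟨hUF, hU0, hU2⟩ := hU
      obtain ⟨h2, h3, h4, h5⟩ := hFp U hUF
      rw [mem_filter, mem_Icc]
      refine ⟨⟨?_, h5⟩, ?_, ?_, ?_⟩
      · obtain ⟨q, hq⟩ := nonempty_iff_ne_empty.2 hU0
        have h6 : q ∣ ∏ q ∈ U, q := dvd_prod_of_mem _ hq
        exact (h3 q hq).two_le.trans (Nat.le_of_dvd (prod_pos fun q hq => (h3 q hq).pos) h6)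
      · apply Finset.prod_induction _ Odd (fun a b ha hb => ha.mul hb) odd_one
        intro q hq
        exact (h3 q hq).odd_of_ne_two (fun h => hU2 (h ▸ hq))
      · apply Finset.squarefree_prod_of_pairwise_isCoprime
        · intro i hi i' hi' hii
          show IsRelPrime _ _
          rw [← Nat.coprime_iff_isRelPrime, Nat.coprime_primes (h3 _ hi) (h3 _ hi')]
          exact hii
        · intro i hi
          exact (h3 _ hi).prime.squarefree
      · apply Nat.Coprime.prod_left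
        intro p hp
        apply Nat.Coprime.prod_right
        intro q hq
        rw [Nat.coprime_primes (hG p hp) (h3 q hq)]
        rintro rfl
        exact (disjoint_left.1 h4) hq hp
    · intro e _ _
      positivity
  have h14 : (0 : ℝ) ≤ 1 / 2 * (h : ℝ) ^ 14 := by positivity
  have h2' : (0 : ℝ) ≤ 1 / 2 * (h : ℝ) ^ 2 := by positivity
  have q1 := mul_le_mul_of_nonneg_left hB2 h14
  have q2 := mul_le_mul_of_nonneg_left hB3 h2'
  have e3 : 1 / 2 * (h : ℝ) ^ 2 * (81 * (h : ℝ) ^ 12 * L ^ 2) = (h : ℝ) ^ 14 / 2 * (81 * L ^ 2) := by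
    ring
  rw [e3] at q2
  have e4 : 1 + (h : ℝ) ^ 14 / 2 * (∏ q ∈ P, (1 + 4 / (q : ℝ)) + 81 * L ^ 2) =
      1 + (1 / 2 * (h : ℝ) ^ 14 * ∏ q ∈ P, (1 + 4 / (q : ℝ)) + (h : ℝ) ^ 14 / 2 * (81 * L ^ 2)) := by
    ring
  rw [e4]
  linarith

end Pool.Agent.K3h31.SQ
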